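import Mathlib
open MeasureTheory Real ProbabilityTheory
open scoped ENNReal BigOperators

namespace Tus

/-- the grid -/
abbrev Pt (d K : ℕ) := Fin d → Fin (2^(K+1))

/-- dyadic interval (block) of level `l` containing `x`, for `l = 0, ..., K+1` -/
def blk (K l : ℕ) (x : Fin (2^(K+1))) : ℕ := (x:ℕ) / 2^(K+1-l)

/-- sign of the Haar function of level `l` at `x`: `+1` on the right half, `-1` on the left half -/
def sg (K l : ℕ) (x : Fin (2^(K+1))) : ℝ := if ((x:ℕ) / 2^(K-l)) % 2 = 1 then 1 else -1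

/-- relative distance of `p` to the boundary of its block of level `l` -/
noncomputable def w1 (K l : ℕ) (p : Fin (2^(K+1))) : ℝ :=
  ((min ((p:ℕ) % 2^(K+1-l)) (2^(K+1-l) - (p:ℕ) % 2^(K+1-l)) : ℕ) : ℝ) / 2^(K+1-l)

/-- terms of the Haar expansion of `1[p ≤ x]` (in the variable `x`); `none` is the constant -/
noncomputable def tm {K : ℕ} (o : Option (Fin (K+1))) (p x : Fin (2^(K+1))) : ℝ := match o with
  | none => (2^(K+1) - ((p:ℕ):ℝ)) / 2^(K+1)
  | some l => if blk K l x = blk K l p then w1 K l p * sg K l x else 0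

def lev {K : ℕ} (o : Option (Fin (K+1))) : ℕ := match o with
  | none => 0
  | some l => l

/-- low part of the Haar expansion of the indicator of the anchored box -/
noncomputable def Low {d K : ℕ} (K0 : ℕ) (p x : Pt d K) : ℝ :=
  ∑ o ∈ (Finset.univ : Finset (Fin d → Option (Fin (K+1)))).filter (fun o => ∑ j, lev (o j) < K0),
    ∏ j, tm (o j) (p j) (x j)

/-- high part -/
noncomputable def Hi {d K : ℕ} (K0 : ℕ) (p x : Pt d K) : ℝ :=
  ∑ o ∈ (Finset.univ : Finset (Fin d → Option (Fin (K+1)))).filter (fun o => K0 ≤ ∑ j, lev (o j)),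
    ∏ j, tm (o j) (p j) (x j)

noncomputable def phi {d K : ℕ} (p x : Pt d K) : ℝ := if ∀ j, p j ≤ x j then 1 else 0

/-- shapes -/
abbrev Sh (d K : ℕ) := {s : Fin d → Fin (K+1) // ∑ j, ((s j : Fin (K+1)) : ℕ) = K}

def sh (d K : ℕ) : ℕ := Fintype.card (Sh d K)

/-- dyadic boxes of the layer `K` -/
abbrev Bx (d K : ℕ) := (s : Sh d K) × (∀ j, Fin (2^((s.1 j : Fin (K+1)) : ℕ)))

/-- Haar function of a box -/
noncomputable def hR {d K : ℕ} (R : Bx d K) (x : Pt d K) : ℝ :=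
  ∏ j, (if blk K (R.1.1 j) (x j) = (R.2 j : ℕ) then sg K (R.1.1 j) (x j) else 0)

noncomputable def wR {d K : ℕ} (R : Bx d K) (p : Pt d K) : ℝ :=
  ∏ j, (if blk K (R.1.1 j) (p j) = (R.2 j : ℕ) then w1 K (R.1.1 j) (p j) else 0)

/-- number of common digits -/
def T1 (K : ℕ) (x y : Fin (2^(K+1))) : ℕ := Nat.findGreatest (fun l => blk K l x = blk K l y) (K+1)

def TT {d K : ℕ} (x y : Pt d K) : ℕ := ∑ j, T1 K (x j) (y j)

noncomputable def Dk {d K : ℕ} (x y : Pt d K) : ℝ := ∑ R : Bx d K, hR R x * hR R y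

noncomputable def Gm {d K : ℕ} (p q : Pt d K) : ℝ := (∑ R : Bx d K, wR R p * wR R q) / sh d K

/-- standard Gaussian law -/
noncomputable def gam (ι : Type) [Fintype ι] : Measure (ι → ℝ) :=
  Measure.pi (fun _ => gaussianReal 0 1)

/-- cardinality of the grid, as a real number -/
noncomputable def cX (d K : ℕ) : ℝ := Fintype.card (Pt d K)

noncomputable def uu {d K : ℕ} (s : ℝ) (α : Bx d K → ℝ) (x : Pt d K) : ℝ := s * ∑ R, α R * hR R x

noncomputable def QQ {d K : ℕ} (s : ℝ) (α : Bx d K → ℝ) (x : Pt d K) : ℝ :=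
  Real.exp (uu s α x - s^2 * sh d K / 2)

noncomputable def ZZ {d K : ℕ} (s : ℝ) (α : Bx d K → ℝ) : ℝ := (∑ x, QQ s α x) / cX d K

noncomputable def nz {d K : ℕ} (s : ℝ) (K0 : ℕ) (α : Bx d K → ℝ) (p : Pt d K) : ℝ :=
  (∑ x, Hi K0 p x * (QQ s α x - 1 - uu s α x)) / cX d K

open Classical in
/-- discrepancy of a finite point set with respect to closed axis-parallel boxes -/
noncomputable def disc {d : ℕ} (P : Finset (Fin d → ℝ)) : ℕ :=
  sInf {m : ℕ | ∃ χ : (Fin d → ℝ) → ℤ, (∀ p ∈ P, χ p = 1 ∨ χ p = -1) ∧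
    ∀ a b : Fin d → ℝ, a ≤ b → |∑ p ∈ P with p ∈ Set.Icc a b, χ p| ≤ m}

/-- maximum discrepancy of `n` points of `ℝ^d` -/
noncomputable def dn (d n : ℕ) : ℕ :=
  sSup {m : ℕ | ∃ P : Finset (Fin d → ℝ), P.card = n ∧ m = disc P}

end Tus
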