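import Pool.Agent.Tus.Defs
open MeasureTheory Real ProbabilityTheory
open scoped ENNReal BigOperators

namespace Tus
namespace Sol_T1_spec



theorem T1_spec_blk_mono {K l m : ℕ} (hlm : l ≤ m) (hm : m ≤ K + 1) (x : Fin (2^(K+1))) :
    blk K l x = blk K m x / 2 ^ (m - l) := by
  unfold blk
  rw [Nat.div_div_eq_div_mul, ← pow_add]
  congr 2
  omega

theorem T1_spec (K l : ℕ) (hl : l ≤ K+1) (x y : Fin (2^(K+1))) :
    (blk K l x = blk K l y ↔ l ≤ T1 K x y) ∧ T1 K x y ≤ K+1 := by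
  have hle : T1 K x y ≤ K + 1 := Nat.findGreatest_le _
  refine ⟨⟨fun h => Nat.le_findGreatest hl h, fun h => ?_⟩, hle⟩
  have h0 : blk K 0 x = blk K 0 y := by
    unfold blk
    rw [Nat.sub_zero, Nat.div_eq_of_lt x.2, Nat.div_eq_of_lt y.2]
  have h1 : blk K (T1 K x y) x = blk K (T1 K x y) y :=
    Nat.findGreatest_spec (P := fun l => blk K l x = blk K l y) (Nat.zero_le (K + 1)) h0
  rw [T1_spec_blk_mono h hle x, T1_spec_blk_mono h hle y, h1]


end Sol_T1_spec

alias T1_spec := Sol_T1_spec.T1_spec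

end Tus
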