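import Pool.Agent.Tus.Defs
import Pool.Agent.Tus.L_T1_spec
open MeasureTheory Real ProbabilityTheory
open scoped ENNReal BigOperators

namespace Tus
namespace Sol_D_bound




theorem h267_sg (K l : ℕ) (x : Fin (2^(K+1))) : |sg K l x| ≤ 1 := by
  unfold sg
  split_ifs <;> simp

/-- contribution of one coordinate -/
noncomputable def h267F {d K : ℕ} (x y : Pt d K) (s : Sh d K) (j : Fin d)
    (r : Fin (2^((s.1 j : Fin (K+1)) : ℕ))) : ℝ :=
  (if blk K (s.1 j) (x j) = (r : ℕ) then sg K (s.1 j) (x j) else 0) *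
  (if blk K (s.1 j) (y j) = (r : ℕ) then sg K (s.1 j) (y j) else 0)

theorem h267_inner {d K : ℕ} (x y : Pt d K) (s : Sh d K) (j : Fin d) :
    |∑ r, h267F x y s j r| ≤ if ((s.1 j : Fin (K+1)) : ℕ) ≤ T1 K (x j) (y j) then 1 else 0 := by
  have hl : ((s.1 j : Fin (K+1)) : ℕ) ≤ K + 1 := by
    have := (s.1 j).isLt
    omega
  have hT := (T1_spec K (s.1 j : ℕ) hl (x j) (y j)).1
  have hterm : ∀ r, |h267F x y s j r| ≤
      if blk K (s.1 j) (x j) = (r : ℕ) ∧ blk K (s.1 j) (x j) = blk K (s.1 j) (y j) then 1 else 0 := by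
    intro r
    unfold h267F
    by_cases h1 : blk K (s.1 j) (x j) = (r : ℕ)
    · by_cases h2 : blk K (s.1 j) (y j) = (r : ℕ)
      · rw [if_pos h1, if_pos h2, if_pos ⟨h1, h1.trans h2.symm⟩, abs_mul]
        have a1 := h267_sg K (s.1 j) (x j)
        have a2 := h267_sg K (s.1 j) (y j)
        exact mul_le_one₀ a1 (abs_nonneg _) a2
      · rw [if_neg h2, mul_zero, abs_zero]
        split_ifs <;> norm_num
    · rw [if_neg h1, zero_mul, abs_zero]
      split_ifs <;> norm_num
  calc |∑ r, h267F x y s j r| ≤ ∑ r, |h267F x y s j r| := Finset.abs_sum_le_sum_abs _ _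
    _ ≤ ∑ r : Fin (2^((s.1 j : Fin (K+1)) : ℕ)),
        (if blk K (s.1 j) (x j) = (r : ℕ) ∧ blk K (s.1 j) (x j) = blk K (s.1 j) (y j)
          then (1:ℝ) else 0) := Finset.sum_le_sum (fun r _ => hterm r)
    _ ≤ _ := by
      by_cases hb : ((s.1 j : Fin (K+1)) : ℕ) ≤ T1 K (x j) (y j)
      · rw [if_pos hb]
        rw [Finset.sum_ite, Finset.sum_const_zero, add_zero, Finset.sum_const, nsmul_eq_mul, mul_one]
        have : (Finset.univ.filter (fun r : Fin (2^((s.1 j : Fin (K+1)) : ℕ)) =>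
            blk K (s.1 j) (x j) = (r : ℕ) ∧ blk K (s.1 j) (x j) = blk K (s.1 j) (y j))).card ≤ 1 := by
          rw [Finset.card_le_one]
          intro a ha b hb
          rw [Finset.mem_filter] at ha hb
          exact Fin.ext (ha.2.1.symm.trans hb.2.1)
        exact_mod_cast this
      · rw [if_neg hb]
        apply le_of_eq
        apply Finset.sum_eq_zero
        intro r _
        rw [if_neg]
        exact fun h => hb (hT.mp h.2)

theorem h267_C {d K : ℕ} (x y : Pt d K) (s : Sh d K) :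
    |∑ r : (∀ j, Fin (2^((s.1 j : Fin (K+1)) : ℕ))), hR ⟨s, r⟩ x * hR ⟨s, r⟩ y| ≤
      if (∀ j, ((s.1 j : Fin (K+1)) : ℕ) ≤ T1 K (x j) (y j)) then 1 else 0 := by
  have e : ∑ r : (∀ j, Fin (2^((s.1 j : Fin (K+1)) : ℕ))), hR ⟨s, r⟩ x * hR ⟨s, r⟩ y
      = ∏ j, ∑ r : Fin (2^((s.1 j : Fin (K+1)) : ℕ)), h267F x y s j r := by
    rw [Finset.prod_univ_sum, Fintype.piFinset_univ]
    apply Finset.sum_congr rfl
    intro r _
    unfold hR h267F
    rw [← Finset.prod_mul_distrib]
  rw [e, Finset.abs_prod]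
  split_ifs with h
  · apply Finset.prod_le_one (fun j _ => abs_nonneg _)
    intro j _
    refine le_trans (h267_inner x y s j) ?_
    split_ifs <;> norm_num
  · push Not at h
    obtain ⟨j, hj⟩ := h
    apply le_of_eq
    apply Finset.prod_eq_zero (Finset.mem_univ j)
    have := h267_inner x y s j
    rw [if_neg (not_le.mpr hj)] at this
    exact le_antisymm this (abs_nonneg _)

/-- number of admissible shapes -/
noncomputable def h267N {d K : ℕ} (x y : Pt d K) : ℕ :=
  (Finset.univ.filter (fun s : Sh d K =>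
    ∀ j, ((s.1 j : Fin (K+1)) : ℕ) ≤ T1 K (x j) (y j))).card

theorem h267_D {d K : ℕ} (x y : Pt d K) : |Dk x y| ≤ (h267N x y : ℝ) := by
  have e : Dk x y = ∑ s : Sh d K, ∑ r : (∀ j, Fin (2^((s.1 j : Fin (K+1)) : ℕ))),
      hR ⟨s, r⟩ x * hR ⟨s, r⟩ y := by
    unfold Dk
    exact Fintype.sum_sigma _
  rw [e]
  refine le_trans (Finset.abs_sum_le_sum_abs _ _) ?_
  refine le_trans (Finset.sum_le_sum (fun s _ => h267_C x y s)) ?_
  rw [Finset.sum_ite, Finset.sum_const_zero, add_zero, Finset.sum_const, nsmul_eq_mul, mul_one]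
  exact le_refl _

theorem h267_N3 {d' K : ℕ} (x y : Pt (d'+1) K) (hK : K ≤ TT x y) :
    h267N x y ≤ (TT x y - K + 1) ^ d' := by
  unfold h267N
  have hcard : (TT x y - K + 1) ^ d' =
      (Fintype.piFinset (fun _ : Fin d' => Finset.range (TT x y - K + 1))).card := by
    rw [Fintype.card_piFinset]
    simp
  rw [hcard]
  apply Finset.card_le_card_of_injOn
    (fun s : Sh (d'+1) K => fun j : Fin d' =>
      T1 K (x j.castSucc) (y j.castSucc) - ((s.1 j.castSucc : Fin (K+1)) : ℕ))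
  · intro s hs
    have hs' : ∀ j, ((s.1 j : Fin (K+1)) : ℕ) ≤ T1 K (x j) (y j) := by
      simpa using hs
    simp only [Finset.mem_coe, Fintype.mem_piFinset, Finset.mem_range]
    intro j
    have hsum : ∑ j, (T1 K (x j) (y j) - ((s.1 j : Fin (K+1)) : ℕ)) = TT x y - K := by
      have h0 := s.2
      have h1 : ∑ j, (T1 K (x j) (y j) - ((s.1 j : Fin (K+1)) : ℕ)) + ∑ j, ((s.1 j : Fin (K+1)) : ℕ) = TT x y := by
        rw [← Finset.sum_add_distrib]
        unfold TT
        apply Finset.sum_congr rfl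
        intro j _
        have := hs' j
        omega
      omega
    have h2 : T1 K (x j.castSucc) (y j.castSucc) - ((s.1 j.castSucc : Fin (K+1)) : ℕ)
        ≤ ∑ j, (T1 K (x j) (y j) - ((s.1 j : Fin (K+1)) : ℕ)) :=
      Finset.single_le_sum (f := fun j => T1 K (x j) (y j) - ((s.1 j : Fin (K+1)) : ℕ))
        (fun _ _ => Nat.zero_le _) (Finset.mem_univ j.castSucc)
    omega
  · intro s hs t ht hst
    have hs' : ∀ j, ((s.1 j : Fin (K+1)) : ℕ) ≤ T1 K (x j) (y j) := by
      simpa using hs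
    have ht' : ∀ j, ((t.1 j : Fin (K+1)) : ℕ) ≤ T1 K (x j) (y j) := by
      simpa using ht
    have hj : ∀ j : Fin d', ((s.1 j.castSucc : Fin (K+1)) : ℕ) = ((t.1 j.castSucc : Fin (K+1)) : ℕ) := by
      intro j
      have h1 := congrFun hst j
      have h2 := hs' j.castSucc
      have h3 := ht' j.castSucc
      simp only at h1
      omega
    have hlast : ((s.1 (Fin.last d') : Fin (K+1)) : ℕ) = ((t.1 (Fin.last d') : Fin (K+1)) : ℕ) := by
      have h1 := s.2
      have h2 := t.2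
      rw [Fin.sum_univ_castSucc] at h1 h2
      have h3 : ∑ i : Fin d', ((s.1 i.castSucc : Fin (K+1)) : ℕ)
          = ∑ i : Fin d', ((t.1 i.castSucc : Fin (K+1)) : ℕ) :=
        Finset.sum_congr rfl (fun i _ => hj i)
      omega
    apply Subtype.ext
    funext j
    apply Fin.ext
    refine Fin.lastCases ?_ (fun i => ?_) j
    · exact hlast
    · exact hj i

theorem D_bound {d K : ℕ} (hd : 1 ≤ d) (x y : Pt d K) :
    (TT x y < K → Dk x y = 0) ∧ |Dk x y| ≤ sh d K ∧ (K ≤ TT x y → |Dk x y| ≤ ((TT x y : ℝ) - K + 1)^(d-1)) := by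
  have hD := h267_D x y
  refine ⟨?_, ?_, ?_⟩
  · intro h
    have hN : h267N x y = 0 := by
      unfold h267N
      rw [Finset.card_eq_zero, Finset.filter_eq_empty_iff]
      intro s _ hs
      have h1 := s.2
      have h2 : ∑ j, ((s.1 j : Fin (K+1)) : ℕ) ≤ ∑ j, T1 K (x j) (y j) :=
        Finset.sum_le_sum (fun j _ => hs j)
      unfold TT at h
      omega
    rw [hN] at hD
    have : |Dk x y| = 0 := le_antisymm (by simpa using hD) (abs_nonneg _)
    exact abs_eq_zero.mp this
  · refine le_trans hD ?_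
    have : h267N x y ≤ sh d K := by
      unfold h267N sh
      exact Finset.card_le_univ _
    exact_mod_cast this
  · intro hK
    refine le_trans hD ?_
    obtain ⟨d', rfl⟩ : ∃ d', d = d' + 1 := ⟨d - 1, by omega⟩
    have h3 := h267_N3 x y hK
    have h4 : ((TT x y : ℝ) - K + 1) = ((TT x y - K + 1 : ℕ) : ℝ) := by
      push_cast [Nat.cast_sub hK]
      ring
    rw [h4, Nat.add_sub_cancel]
    exact_mod_cast h3


end Sol_D_bound

alias D_bound := Sol_D_bound.D_bound

end Tus
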