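import Pool.Agent.Tus.Defs
open MeasureTheory Real ProbabilityTheory
open scoped ENNReal BigOperators

namespace Tus
namespace Sol_h_sq



theorem blk_lt_hsq (K l : ℕ) (hl : l ≤ K) (x : Fin (2^(K+1))) : blk K l x < 2 ^ l := by
  unfold blk
  apply Nat.div_lt_of_lt_mul
  rw [← pow_add]
  have : K + 1 - l + l = K + 1 := by omega
  rw [this]
  exact x.2

theorem sg_sq_hsq (K l : ℕ) (x : Fin (2^(K+1))) : sg K l x ^ 2 = 1 := by
  unfold sg
  split_ifs <;> norm_num

theorem h_sq {d K : ℕ} (x : Pt d K) : ∑ R : Bx d K, hR R x ^ 2 = sh d K := by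
  rw [Fintype.sum_sigma]
  have key : ∀ s : Sh d K, ∑ b : (∀ j, Fin (2^((s.1 j : Fin (K+1)) : ℕ))), hR (⟨s, b⟩ : Bx d K) x ^ 2 = 1 := by
    intro s
    let b0 : ∀ j, Fin (2^((s.1 j : Fin (K+1)) : ℕ)) := fun j =>
      ⟨blk K (s.1 j) (x j), blk_lt_hsq K _ (by have := (s.1 j).2; omega) (x j)⟩
    rw [Finset.sum_eq_single b0]
    · unfold hR
      rw [← Finset.prod_pow]
      apply Finset.prod_eq_one
      intro j _
      simp only [b0, if_true]
      exact sg_sq_hsq _ _ _
    · intro b _ hb
      have : ∃ j, b j ≠ b0 j := by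
        by_contra hcon
        push Not at hcon
        exact hb (funext hcon)
      obtain ⟨j, hj⟩ := this
      unfold hR
      rw [Finset.prod_eq_zero (Finset.mem_univ j)]
      · norm_num
      · rw [if_neg]
        intro he
        apply hj
        apply Fin.ext
        exact he.symm
    · intro h; exact absurd (Finset.mem_univ _) h
  rw [Finset.sum_congr rfl (fun s _ => key s)]
  simp [sh]


end Sol_h_sq

alias h_sq := Sol_h_sq.h_sq

end Tus
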