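import Pool.Agent.Tus.Defs
import Pool.Agent.Tus.L_gam_prob
import Pool.Agent.Tus.L_h_sq
open MeasureTheory Real ProbabilityTheory
open scoped ENNReal BigOperators

namespace Tus
namespace Sol_Z_int





/-- one grid point -/
theorem zi_one {d K : ℕ} (s : ℝ) (x : Pt d K) :
    Integrable (fun α : Bx d K → ℝ => QQ s α x) (gam (Bx d K)) ∧
      ∫ α, QQ s α x ∂(gam (Bx d K)) = 1 := by
  have hQ : ∀ α : Bx d K → ℝ, QQ s α x =
      (∏ R, Real.exp ((s * hR R x) * α R)) * Real.exp (-(s^2 * sh d K / 2)) := by
    intro α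
    unfold QQ uu
    rw [← Real.exp_sum, ← Real.exp_add]
    congr 1
    rw [Finset.mul_sum, sub_eq_add_neg]
    congr 1
    exact Finset.sum_congr rfl (fun R _ => by ring)
  have hint : Integrable (fun α : Bx d K → ℝ => ∏ R, Real.exp ((s * hR R x) * α R))
      (gam (Bx d K)) := by
    unfold gam
    exact Integrable.fintype_prod (f := fun R (a : ℝ) => Real.exp ((s * hR R x) * a))
      (fun R => integrable_exp_mul_gaussianReal _)
  have hval : ∫ α : Bx d K → ℝ, ∏ R, Real.exp ((s * hR R x) * α R) ∂(gam (Bx d K)) =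
      Real.exp (s^2 * sh d K / 2) := by
    unfold gam
    rw [integral_fintype_prod_eq_prod (f := fun R (a : ℝ) => Real.exp ((s * hR R x) * a))]
    have h1 : ∀ R : Bx d K, ∫ a : ℝ, Real.exp ((s * hR R x) * a) ∂(gaussianReal 0 1) =
        Real.exp (s^2 / 2 * hR R x ^ 2) := by
      intro R
      have h2 := congrFun (mgf_id_gaussianReal (μ := 0) (v := 1)) (s * hR R x)
      unfold mgf at h2
      simp only [id] at h2
      rw [h2]
      congr 1
      push_cast
      ring
    simp only [h1]
    rw [← Real.exp_sum, ← Finset.mul_sum, h_sq]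
    congr 1
    ring
  constructor
  · refine (hint.mul_const (Real.exp (-(s^2 * sh d K / 2)))).congr (ae_of_all _ fun α => ?_)
    exact (hQ α).symm
  · simp only [hQ]
    rw [integral_mul_const, hval, ← Real.exp_add, add_neg_cancel, Real.exp_zero]

theorem Z_int {d K : ℕ} (s : ℝ) :
    Integrable (fun α : Bx d K → ℝ => ZZ s α) (gam (Bx d K)) ∧ ∫ α, ZZ s α ∂(gam (Bx d K)) = 1 := by
  have hc : (cX d K) ≠ 0 := by
    unfold cX
    have h : 0 < Fintype.card (Pt d K) := Fintype.card_pos
    exact_mod_cast h.ne'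
  unfold ZZ
  constructor
  · exact (integrable_finsetSum _ (fun x _ => (zi_one s x).1)).div_const _
  · rw [integral_div, integral_finsetSum _ (fun x _ => (zi_one s x).1)]
    simp only [(zi_one s _).2]
    rw [Finset.sum_const, nsmul_eq_mul, mul_one, Finset.card_univ]
    exact div_self hc


end Sol_Z_int

alias Z_int := Sol_Z_int.Z_int

end Tus
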