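import Pool.Agent.Tus.Defs
open MeasureTheory Real ProbabilityTheory
open scoped ENNReal BigOperators

namespace Tus
namespace Sol_card_X



theorem card_X (d K : ℕ) : cX d K = (2:ℝ)^((K+1)*d) := by
  unfold cX
  have h : Fintype.card (Pt d K) = 2 ^ ((K + 1) * d) := by
    simp [Pt, pow_mul]
  rw [h]
  push_cast
  rfl


end Sol_card_X

alias card_X := Sol_card_X.card_X

end Tus
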