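import Pool.Agent.Tus.Defs
open MeasureTheory Real ProbabilityTheory
open scoped ENNReal BigOperators

namespace Tus
namespace Sol_disc_lower



open Classical in
theorem disc_lower_mem {d : ℕ} (P : Finset (Fin d → ℝ)) :
    P.card ∈ {m : ℕ | ∃ χ : (Fin d → ℝ) → ℤ, (∀ p ∈ P, χ p = 1 ∨ χ p = -1) ∧
    ∀ a b : Fin d → ℝ, a ≤ b → |∑ p ∈ P with p ∈ Set.Icc a b, χ p| ≤ m} := by
  refine ⟨fun _ => 1, fun p _ => Or.inl rfl, fun a b _ => ?_⟩
  rw [Finset.sum_const, nsmul_eq_mul, mul_one]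
  rw [abs_of_nonneg (by positivity)]
  exact_mod_cast Finset.card_filter_le _ _

theorem disc_lower_le {d : ℕ} (P : Finset (Fin d → ℝ)) : disc P ≤ P.card :=
  Nat.sInf_le (disc_lower_mem P)

open Classical in
theorem disc_lower_spec {d : ℕ} (P : Finset (Fin d → ℝ)) :
    ∃ χ : (Fin d → ℝ) → ℤ, (∀ p ∈ P, χ p = 1 ∨ χ p = -1) ∧
    ∀ a b : Fin d → ℝ, a ≤ b → |∑ p ∈ P, if p ∈ Set.Icc a b then χ p else 0| ≤ (disc P : ℤ) := by
  have h := Nat.sInf_mem ⟨_, disc_lower_mem P⟩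
  obtain ⟨χ, h1, h2⟩ := h
  refine ⟨χ, h1, fun a b hab => ?_⟩
  have h3 := h2 a b hab
  rw [Finset.sum_filter] at h3
  exact h3

theorem disc_lower_dn {d N : ℕ} (Q : Finset (Fin d → ℝ)) (hQ : Q.card = N) : disc Q ≤ dn d N := by
  apply le_csSup
  · refine ⟨N, ?_⟩
    rintro m ⟨P, hP, rfl⟩
    rw [← hP]
    exact disc_lower_le P
  · exact ⟨Q, hQ, rfl⟩

/-- perturbed real points -/
noncomputable def disc_lower_q {d n K : ℕ} (P : Fin n → Pt d K) (i : Fin n) : Fin d → ℝ :=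
  fun j => (((P i j : Fin (2^(K+1))) : ℕ) : ℝ) - ((i : ℕ) : ℝ) / ((n : ℝ) + 1)

/-- extra points -/
noncomputable def disc_lower_e (d K : ℕ) (k : ℕ) : Fin d → ℝ :=
  fun _ => (2 : ℝ)^(K+1) + 1 + (k : ℝ)

theorem disc_lower_frac {n : ℕ} (i : Fin n) :
    0 ≤ ((i : ℕ) : ℝ) / ((n : ℝ) + 1) ∧ ((i : ℕ) : ℝ) / ((n : ℝ) + 1) < 1 := by
  have hn : (0 : ℝ) < (n : ℝ) + 1 := by positivity
  refine ⟨by positivity, ?_⟩
  rw [div_lt_one hn]
  have : ((i : ℕ) : ℝ) < (n : ℝ) := by exact_mod_cast i.2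
  linarith

theorem disc_lower_qle {d n K : ℕ} (P : Fin n → Pt d K) (i : Fin n) (j : Fin d)
    (x : Fin (2^(K+1))) :
    disc_lower_q P i j ≤ ((x : ℕ) : ℝ) ↔ P i j ≤ x := by
  obtain ⟨h1, h2⟩ := disc_lower_frac i
  unfold disc_lower_q
  constructor
  · intro h
    by_contra hcon
    have h3 : x < P i j := not_le.1 hcon
    have h4 : (x : ℕ) + 1 ≤ (P i j : ℕ) := h3
    have h5 : ((x : ℕ) : ℝ) + 1 ≤ ((P i j : ℕ) : ℝ) := by exact_mod_cast h4
    linarith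
  · intro h
    have h4 : (P i j : ℕ) ≤ (x : ℕ) := h
    have h5 : ((P i j : ℕ) : ℝ) ≤ ((x : ℕ) : ℝ) := by exact_mod_cast h4
    linarith

theorem disc_lower_qinj {d n K : ℕ} (hd : 1 ≤ d) (P : Fin n → Pt d K) :
    Function.Injective (disc_lower_q P) := by
  intro i i' h
  have h0 := congrFun h ⟨0, hd⟩
  unfold disc_lower_q at h0
  have hn : (0 : ℝ) < (n : ℝ) + 1 := by positivity
  have h1 : ((n : ℝ) + 1) * ((((P i ⟨0, hd⟩ : Fin (2^(K+1))) : ℕ) : ℝ)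
      - (((P i' ⟨0, hd⟩ : Fin (2^(K+1))) : ℕ) : ℝ)) = ((i : ℕ) : ℝ) - ((i' : ℕ) : ℝ) := by
    have h2 : (((P i ⟨0, hd⟩ : Fin (2^(K+1))) : ℕ) : ℝ) - (((P i' ⟨0, hd⟩ : Fin (2^(K+1))) : ℕ) : ℝ)
        = ((i : ℕ) : ℝ) / ((n : ℝ) + 1) - ((i' : ℕ) : ℝ) / ((n : ℝ) + 1) := by linarith
    rw [h2]
    field_simp
  have h2 : ((n : ℤ) + 1) * ((((P i ⟨0, hd⟩ : Fin (2^(K+1))) : ℕ) : ℤ)
      - (((P i' ⟨0, hd⟩ : Fin (2^(K+1))) : ℕ) : ℤ)) = ((i : ℕ) : ℤ) - ((i' : ℕ) : ℤ) := by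
    exact_mod_cast h1
  have hi := i.2
  have hi' := i'.2
  have h3 : (((P i ⟨0, hd⟩ : Fin (2^(K+1))) : ℕ) : ℤ)
      - (((P i' ⟨0, hd⟩ : Fin (2^(K+1))) : ℕ) : ℤ) = 0 := by
    rcases lt_trichotomy ((((P i ⟨0, hd⟩ : Fin (2^(K+1))) : ℕ) : ℤ)
      - (((P i' ⟨0, hd⟩ : Fin (2^(K+1))) : ℕ) : ℤ)) 0 with h4 | h4 | h4
    · exfalso
      have h5 : (((P i ⟨0, hd⟩ : Fin (2^(K+1))) : ℕ) : ℤ)
        - (((P i' ⟨0, hd⟩ : Fin (2^(K+1))) : ℕ) : ℤ) ≤ -1 := by omega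
      have h6 : ((n : ℤ) + 1) * ((((P i ⟨0, hd⟩ : Fin (2^(K+1))) : ℕ) : ℤ)
        - (((P i' ⟨0, hd⟩ : Fin (2^(K+1))) : ℕ) : ℤ)) ≤ ((n : ℤ) + 1) * (-1) :=
        mul_le_mul_of_nonneg_left h5 (by positivity)
      rw [h2] at h6
      omega
    · exact h4
    · exfalso
      have h5 : 1 ≤ (((P i ⟨0, hd⟩ : Fin (2^(K+1))) : ℕ) : ℤ)
        - (((P i' ⟨0, hd⟩ : Fin (2^(K+1))) : ℕ) : ℤ) := by omega
      have h6 : ((n : ℤ) + 1) * 1 ≤ ((n : ℤ) + 1) * ((((P i ⟨0, hd⟩ : Fin (2^(K+1))) : ℕ) : ℤ)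
        - (((P i' ⟨0, hd⟩ : Fin (2^(K+1))) : ℕ) : ℤ)) :=
        mul_le_mul_of_nonneg_left h5 (by positivity)
      rw [h2] at h6
      omega
  rw [h3, mul_zero] at h2
  apply Fin.ext
  omega

theorem disc_lower_qlt {d n K : ℕ} (P : Fin n → Pt d K) (i : Fin n) (j : Fin d) :
    disc_lower_q P i j < (2 : ℝ)^(K+1) := by
  obtain ⟨h1, h2⟩ := disc_lower_frac i
  unfold disc_lower_q
  have h3 : ((P i j : ℕ) : ℝ) < (2 : ℝ)^(K+1) := by exact_mod_cast (P i j).2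
  linarith

theorem disc_lower_qge {d n K : ℕ} (P : Fin n → Pt d K) (i : Fin n) (j : Fin d) :
    -1 ≤ disc_lower_q P i j := by
  obtain ⟨h1, h2⟩ := disc_lower_frac i
  unfold disc_lower_q
  have h3 : (0 : ℝ) ≤ ((P i j : ℕ) : ℝ) := by positivity
  linarith

theorem disc_lower {d n K N : ℕ} (hd : 1 ≤ d) (P : Fin n → Pt d K) (D : ℝ)
    (h : ¬ ∀ I : Finset (Fin n), ∃ χ : Fin n → ℝ, (∀ i, χ i = 1 ∨ χ i = -1) ∧
      ∀ x, |∑ i ∈ I, χ i * phi (P i) x| ≤ D) (hN : n ≤ N) : D ≤ (dn d N : ℝ) := by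
  classical
  push Not at h
  obtain ⟨I, hI⟩ := h
  have hIn : I.card ≤ n := by
    have := Finset.card_le_univ I
    simpa using this
  obtain ⟨Q, hQ⟩ : ∃ Q : Finset (Fin d → ℝ), Q = I.image (disc_lower_q P) ∪
      (Finset.range (N - I.card)).image (disc_lower_e d K) := ⟨_, rfl⟩
  have hdisj : Disjoint (I.image (disc_lower_q P))
      ((Finset.range (N - I.card)).image (disc_lower_e d K)) := by
    rw [Finset.disjoint_left]
    intro p hp hp'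
    rw [Finset.mem_image] at hp hp'
    obtain ⟨i, hi, rfl⟩ := hp
    obtain ⟨k, hk, hk'⟩ := hp'
    have h1 := congrFun hk' ⟨0, hd⟩
    have h2 := disc_lower_qlt P i ⟨0, hd⟩
    rw [← h1] at h2
    unfold disc_lower_e at h2
    have h3 : (0 : ℝ) ≤ (k : ℝ) := by positivity
    linarith
  have heinj : Function.Injective (disc_lower_e d K) := by
    intro k k' hkk
    have h1 := congrFun hkk ⟨0, hd⟩
    unfold disc_lower_e at h1
    have h2 : (k : ℝ) = (k' : ℝ) := by linarith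
    exact_mod_cast h2
  have hcard : Q.card = N := by
    rw [hQ, Finset.card_union_of_disjoint hdisj,
      Finset.card_image_of_injective _ (disc_lower_qinj hd P),
      Finset.card_image_of_injective _ heinj, Finset.card_range]
    omega
  have hdn := disc_lower_dn Q hcard
  obtain ⟨χ, h1, h2⟩ := disc_lower_spec Q
  by_contra hcon
  have hcon' : (dn d N : ℝ) < D := not_le.1 hcon
  obtain ⟨x, hx⟩ := hI (fun i => if i ∈ I then (χ (disc_lower_q P i) : ℝ) else 1) (by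
    intro i
    by_cases hi : i ∈ I
    · rw [if_pos hi]
      have hmem : disc_lower_q P i ∈ Q := by
        rw [hQ]
        exact Finset.mem_union_left _ (Finset.mem_image_of_mem _ hi)
      rcases h1 _ hmem with h3 | h3
      · left; rw [h3]; norm_num
      · right; rw [h3]; norm_num
    · rw [if_neg hi]
      left; rfl)
  have h3 := h2 (fun _ => -1) (fun j => (((x j : Fin (2^(K+1))) : ℕ) : ℝ)) (by
    intro j
    show (-1 : ℝ) ≤ _
    have : (0 : ℝ) ≤ (((x j : Fin (2^(K+1))) : ℕ) : ℝ) := by positivity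
    linarith)
  have h4 : (∑ p ∈ Q, if p ∈ Set.Icc (fun _ => (-1 : ℝ))
      (fun j => (((x j : Fin (2^(K+1))) : ℕ) : ℝ)) then χ p else 0)
      = ∑ i ∈ I, if (∀ j, P i j ≤ x j) then χ (disc_lower_q P i) else 0 := by
    rw [hQ, Finset.sum_union hdisj,
      Finset.sum_image (fun a _ b _ hab => disc_lower_qinj hd P hab),
      Finset.sum_image (fun a _ b _ hab => heinj hab)]
    have h5 : ∑ k ∈ Finset.range (N - I.card), (if disc_lower_e d K k ∈ Set.Icc (fun _ => (-1 : ℝ))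
      (fun j => (((x j : Fin (2^(K+1))) : ℕ) : ℝ)) then χ (disc_lower_e d K k) else 0) = 0 := by
      refine Finset.sum_eq_zero (fun k _ => ?_)
      rw [if_neg]
      rintro ⟨-, h6⟩
      have h7 := h6 ⟨0, hd⟩
      unfold disc_lower_e at h7
      simp only at h7
      have h8 : (((x ⟨0, hd⟩ : Fin (2^(K+1))) : ℕ) : ℝ) < (2 : ℝ)^(K+1) := by
        exact_mod_cast (x ⟨0, hd⟩).2
      have h9 : (0 : ℝ) ≤ (k : ℝ) := by positivity
      linarith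
    rw [h5, add_zero]
    refine Finset.sum_congr rfl (fun i _ => ?_)
    by_cases hix : ∀ j, P i j ≤ x j
    · rw [if_pos hix, if_pos]
      exact ⟨fun j => disc_lower_qge P i j, fun j => (disc_lower_qle P i j (x j)).2 (hix j)⟩
    · rw [if_neg hix, if_neg]
      rintro ⟨-, h6⟩
      exact hix (fun j => (disc_lower_qle P i j (x j)).1 (h6 j))
  rw [h4] at h3
  have h5 : ∑ i ∈ I, (if i ∈ I then (χ (disc_lower_q P i) : ℝ) else 1) * phi (P i) x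
      = ((∑ i ∈ I, if (∀ j, P i j ≤ x j) then χ (disc_lower_q P i) else 0 : ℤ) : ℝ) := by
    rw [Int.cast_sum]
    refine Finset.sum_congr rfl (fun i hi => ?_)
    rw [if_pos hi]
    unfold phi
    by_cases hix : ∀ j, P i j ≤ x j
    · simp [hix]
    · simp [hix]
  rw [h5] at hx
  have h6 : |((∑ i ∈ I, if (∀ j, P i j ≤ x j) then χ (disc_lower_q P i) else 0 : ℤ) : ℝ)|
      ≤ (disc Q : ℝ) := by exact_mod_cast h3
  have h7 : (disc Q : ℝ) ≤ (dn d N : ℝ) := by exact_mod_cast hdn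
  linarith


end Sol_disc_lower

alias disc_lower := Sol_disc_lower.disc_lower

end Tus
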