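import Pool.Agent.Tus.Defs
open MeasureTheory Real ProbabilityTheory
open scoped ENNReal BigOperators

namespace Tus
namespace Sol_haar_orth



theorem haar_orth_block (f : ℕ → ℝ) (m b N : ℕ) (hm : 0 < m) (h : b * m + m ≤ N) :
    ∑ n ∈ Finset.range N, (if n / m = b then f n else 0) = ∑ r ∈ Finset.range m, f (b * m + r) := by
  rw [← Finset.sum_filter]
  refine Finset.sum_nbij' (fun n => n - b * m) (fun r => b * m + r) ?_ ?_ ?_ ?_ ?_
  · intro n hn
    rw [Finset.mem_filter, Finset.mem_range] at hn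
    have h1 := Nat.div_add_mod n m
    have h2 := Nat.mod_lt n hm
    rw [hn.2, mul_comm] at h1
    rw [Finset.mem_range]
    omega
  · intro r hr
    rw [Finset.mem_range] at hr
    rw [Finset.mem_filter, Finset.mem_range]
    refine ⟨by omega, ?_⟩
    rw [add_comm, Nat.add_mul_div_right _ _ hm, Nat.div_eq_of_lt hr, zero_add]
  · intro n hn
    rw [Finset.mem_filter, Finset.mem_range] at hn
    have h1 := Nat.div_add_mod n m
    rw [hn.2, mul_comm] at h1
    show b * m + (n - b * m) = n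
    omega
  · intro r hr
    simp
  · intro n hn
    rw [Finset.mem_filter, Finset.mem_range] at hn
    have h1 := Nat.div_add_mod n m
    rw [hn.2, mul_comm] at h1
    congr 1
    omega

theorem haar_orth_zero (K l b : ℕ) (hl : l ≤ K) (hb : b < 2 ^ l) :
    ∑ n ∈ Finset.range (2 ^ (K + 1)), (if n / 2 ^ (K + 1 - l) = b then
      (if (n / 2 ^ (K - l)) % 2 = 1 then (1 : ℝ) else -1) else 0) = 0 := by
  have hm' : 0 < 2 ^ (K - l) := by positivity
  have hm : 2 ^ (K + 1 - l) = 2 ^ (K - l) + 2 ^ (K - l) := by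
    rw [show K + 1 - l = (K - l) + 1 by omega, pow_succ]; ring
  have hN : b * 2 ^ (K + 1 - l) + 2 ^ (K + 1 - l) ≤ 2 ^ (K + 1) := by
    have h1 : (2 : ℕ) ^ (K + 1) = 2 ^ l * 2 ^ (K + 1 - l) := by
      rw [← pow_add]; congr 1; omega
    rw [h1]
    calc b * 2 ^ (K + 1 - l) + 2 ^ (K + 1 - l) = (b + 1) * 2 ^ (K + 1 - l) := by ring
      _ ≤ 2 ^ l * 2 ^ (K + 1 - l) := Nat.mul_le_mul_right _ hb
  rw [haar_orth_block (fun n => if (n / 2 ^ (K - l)) % 2 = 1 then (1 : ℝ) else -1) _ b _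
    (by positivity) hN]
  have hdiv : ∀ r, (b * 2 ^ (K + 1 - l) + r) / 2 ^ (K - l) = r / 2 ^ (K - l) + 2 * b := by
    intro r
    have : b * 2 ^ (K + 1 - l) + r = r + (2 * b) * 2 ^ (K - l) := by rw [hm]; ring
    rw [this, Nat.add_mul_div_right _ _ hm']
  rw [hm, Finset.sum_range_add]
  rw [← hm]
  have e1 : ∀ r ∈ Finset.range (2 ^ (K - l)),
      (if ((b * 2 ^ (K + 1 - l) + r) / 2 ^ (K - l)) % 2 = 1 then (1 : ℝ) else -1) = -1 := by
    intro r hr
    rw [Finset.mem_range] at hr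
    rw [hdiv, Nat.div_eq_of_lt hr, if_neg (by omega)]
  have e2 : ∀ r ∈ Finset.range (2 ^ (K - l)),
      (if ((b * 2 ^ (K + 1 - l) + (2 ^ (K - l) + r)) / 2 ^ (K - l)) % 2 = 1 then (1 : ℝ) else -1)
        = 1 := by
    intro r hr
    rw [Finset.mem_range] at hr
    rw [hdiv, Nat.add_div_left _ hm', Nat.div_eq_of_lt hr, if_pos (by omega)]
  rw [Finset.sum_congr rfl e1, Finset.sum_congr rfl e2]
  simp

theorem haar_orth_sq (K l b : ℕ) (hl : l ≤ K) (hb : b < 2 ^ l) :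
    ∑ n ∈ Finset.range (2 ^ (K + 1)), (if n / 2 ^ (K + 1 - l) = b then (1 : ℝ) else 0)
      = 2 ^ (K + 1 - l) := by
  have hN : b * 2 ^ (K + 1 - l) + 2 ^ (K + 1 - l) ≤ 2 ^ (K + 1) := by
    have h1 : (2 : ℕ) ^ (K + 1) = 2 ^ l * 2 ^ (K + 1 - l) := by
      rw [← pow_add]; congr 1; omega
    rw [h1]
    calc b * 2 ^ (K + 1 - l) + 2 ^ (K + 1 - l) = (b + 1) * 2 ^ (K + 1 - l) := by ring
      _ ≤ 2 ^ l * 2 ^ (K + 1 - l) := Nat.mul_le_mul_right _ hb
  rw [haar_orth_block (fun _ => (1 : ℝ)) _ b _ (by positivity) hN]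
  simp

theorem haar_orth_lt (K l l' b b' : ℕ) (hl : l < l') (hl' : l' ≤ K) (hb' : b' < 2 ^ l') :
    ∑ n ∈ Finset.range (2 ^ (K + 1)), (if n / 2 ^ (K + 1 - l) = b then
      (if (n / 2 ^ (K - l)) % 2 = 1 then (1 : ℝ) else -1) else 0) *
      (if n / 2 ^ (K + 1 - l') = b' then
      (if (n / 2 ^ (K - l')) % 2 = 1 then (1 : ℝ) else -1) else 0) = 0 := by
  have h1 : ∀ n, n / 2 ^ (K + 1 - l) = (n / 2 ^ (K + 1 - l')) / 2 ^ (l' - l) := by
    intro n
    rw [Nat.div_div_eq_div_mul, ← pow_add]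
    congr 2
    omega
  have h2 : ∀ n, n / 2 ^ (K - l) = (n / 2 ^ (K + 1 - l')) / 2 ^ (l' - l - 1) := by
    intro n
    rw [Nat.div_div_eq_div_mul, ← pow_add]
    congr 2
    omega
  have h3 : ∀ n ∈ Finset.range (2 ^ (K + 1)), (if n / 2 ^ (K + 1 - l) = b then
      (if (n / 2 ^ (K - l)) % 2 = 1 then (1 : ℝ) else -1) else 0) *
      (if n / 2 ^ (K + 1 - l') = b' then
      (if (n / 2 ^ (K - l')) % 2 = 1 then (1 : ℝ) else -1) else 0) =
      (if b' / 2 ^ (l' - l) = b then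
      (if (b' / 2 ^ (l' - l - 1)) % 2 = 1 then (1 : ℝ) else -1) else 0) *
      (if n / 2 ^ (K + 1 - l') = b' then
      (if (n / 2 ^ (K - l')) % 2 = 1 then (1 : ℝ) else -1) else 0) := by
    intro n _
    by_cases h : n / 2 ^ (K + 1 - l') = b'
    · rw [h1 n, h2 n, h]
    · rw [if_neg h, mul_zero, mul_zero]
  rw [Finset.sum_congr rfl h3, ← Finset.mul_sum, haar_orth_zero K l' b' hl' hb', mul_zero]

theorem haar_orth (K : ℕ) (l l' : Fin (K+1)) (b b' : ℕ) (hb : b < 2^(l:ℕ)) (hb' : b' < 2^(l':ℕ)) :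
    (∑ x : Fin (2^(K+1)), (if blk K l x = b then sg K l x else 0) = 0) ∧
    (∑ x : Fin (2^(K+1)), (if blk K l x = b then sg K l x else 0) * (if blk K l' x = b' then sg K l' x else 0)
      = if l = l' ∧ b = b' then (2:ℝ)^(K+1-(l:ℕ)) else 0) := by
  have hl : (l : ℕ) ≤ K := by omega
  have hl' : (l' : ℕ) ≤ K := by omega
  constructor
  · refine Eq.trans ?_ (haar_orth_zero K l b hl hb)
    exact (Finset.sum_range (fun n => (if n / 2 ^ (K + 1 - (l : ℕ)) = b then
        (if (n / 2 ^ (K - (l : ℕ))) % 2 = 1 then (1 : ℝ) else -1) else 0))).symm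
  · refine Eq.trans (Finset.sum_range (fun n => (if n / 2 ^ (K + 1 - (l : ℕ)) = b then
        (if (n / 2 ^ (K - (l : ℕ))) % 2 = 1 then (1 : ℝ) else -1) else 0) *
        (if n / 2 ^ (K + 1 - (l' : ℕ)) = b' then
        (if (n / 2 ^ (K - (l' : ℕ))) % 2 = 1 then (1 : ℝ) else -1) else 0))).symm ?_
    rcases lt_trichotomy (l : ℕ) (l' : ℕ) with h | h | h
    · rw [haar_orth_lt K l l' b b' h hl' hb', if_neg]
      rintro ⟨h1, _⟩
      rw [h1] at h
      exact lt_irrefl _ h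
    · have hll : l = l' := Fin.ext h
      subst hll
      by_cases hbb : b = b'
      · subst hbb
        rw [if_pos ⟨rfl, rfl⟩, ← haar_orth_sq K l b hl hb]
        refine Finset.sum_congr rfl fun n _ => ?_
        split_ifs <;> norm_num
      · rw [if_neg (fun h => hbb h.2)]
        refine Finset.sum_eq_zero fun n _ => ?_
        by_cases h1 : n / 2 ^ (K + 1 - (l : ℕ)) = b
        · have h2 : ¬ (n / 2 ^ (K + 1 - (l : ℕ)) = b') := by rw [h1]; exact hbb
          rw [if_neg h2, mul_zero]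
        · rw [if_neg h1, zero_mul]
    · rw [if_neg (by rintro ⟨h1, _⟩; rw [h1] at h; exact lt_irrefl _ h)]
      exact Eq.trans (Finset.sum_congr rfl fun n _ => mul_comm _ _) (haar_orth_lt K l' l b' b h hl hb)


end Sol_haar_orth

alias haar_orth := Sol_haar_orth.haar_orth

end Tus
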