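import Pool.Agent.Tus.Defs
import Pool.Agent.Tus.L_haar_orth
open MeasureTheory Real ProbabilityTheory
open scoped ENNReal BigOperators

namespace Tus
namespace Sol_hi_avg




theorem hi_avg_blk (K l : ℕ) (hl : l ≤ K + 1) (x : Fin (2^(K+1))) : blk K l x < 2 ^ l := by
  unfold blk
  apply Nat.div_lt_of_lt_mul
  rw [← pow_add]
  have h : K + 1 - l + l = K + 1 := by omega
  rw [h]
  exact x.2

theorem hi_avg_tm {K : ℕ} (l : Fin (K+1)) (p : Fin (2^(K+1))) :
    ∑ y : Fin (2^(K+1)), tm (some l) p y = 0 := by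
  have hb := hi_avg_blk K l (by omega) p
  have h1 := (haar_orth K l l (blk K l p) (blk K l p) hb hb).1
  have h2 : ∑ y : Fin (2^(K+1)), tm (some l) p y =
      w1 K l p * ∑ y : Fin (2^(K+1)), (if blk K l y = blk K l p then sg K l y else 0) := by
    rw [Finset.mul_sum]
    refine Finset.sum_congr rfl (fun y _ => ?_)
    show (if blk K l y = blk K l p then w1 K l p * sg K l y else 0) = _
    split_ifs
    · rfl
    · rw [mul_zero]
  rw [h2, h1, mul_zero]

theorem hi_avg {d K : ℕ} (K0 : ℕ) (hK0 : 1 ≤ K0) (p : Pt d K) : ∑ x, Hi K0 p x = 0 := by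
  unfold Hi
  rw [Finset.sum_comm]
  refine Finset.sum_eq_zero (fun o ho => ?_)
  have ho' := (Finset.mem_filter.1 ho).2
  have h1 : ∑ x : Pt d K, ∏ j, tm (o j) (p j) (x j) =
      ∏ j, ∑ y : Fin (2^(K+1)), tm (o j) (p j) y := by
    rw [Finset.prod_univ_sum, Fintype.piFinset_univ]
  rw [h1]
  obtain ⟨j, hj⟩ : ∃ j, lev (o j) ≠ 0 := by
    by_contra hcon
    push Not at hcon
    rw [Finset.sum_eq_zero (fun j _ => hcon j)] at ho'
    omega
  refine Finset.prod_eq_zero (Finset.mem_univ j) ?_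
  obtain ⟨l, hl⟩ : ∃ l, o j = some l := by
    cases h : o j with
    | none => rw [h] at hj; exact absurd rfl hj
    | some l => exact ⟨l, rfl⟩
  rw [hl]
  exact hi_avg_tm l (p j)



end Sol_hi_avg

alias hi_avg := Sol_hi_avg.hi_avg

end Tus
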