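import Pool.Agent.Tus.Defs
import Pool.Agent.Tus.L_haar_orth
open MeasureTheory Real ProbabilityTheory
open scoped ENNReal BigOperators

namespace Tus
namespace Sol_hi_h




theorem hih_blk (K l : ℕ) (hl : l ≤ K + 1) (p : Fin (2^(K+1))) : blk K l p < 2 ^ l := by
  unfold blk
  apply Nat.div_lt_of_lt_mul
  rw [← pow_add]
  have h : K + 1 - l + l = K + 1 := by omega
  rw [h]
  exact p.isLt

theorem hih_one (K : ℕ) (o : Option (Fin (K+1))) (p : Fin (2^(K+1))) (l' : Fin (K+1)) (b' : ℕ)
    (hb' : b' < 2^(l':ℕ)) :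
    ∑ x : Fin (2^(K+1)), tm o p x * (if blk K l' x = b' then sg K l' x else 0) =
      if o = some l' then (2:ℝ)^(K+1-(l':ℕ)) * (if blk K l' p = b' then w1 K l' p else 0) else 0 := by
  cases o with
  | none =>
    rw [if_neg (by simp)]
    simp only [tm]
    rw [← Finset.mul_sum, (haar_orth K l' l' b' b' hb' hb').1, mul_zero]
  | some l =>
    have h := (haar_orth K l l' (blk K l p) b' (hih_blk K l (by omega) p) hb').2
    have e : ∀ x : Fin (2^(K+1)), tm (some l) p x * (if blk K l' x = b' then sg K l' x else 0) =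
        w1 K l p * ((if blk K l x = blk K l p then sg K l x else 0) *
          (if blk K l' x = b' then sg K l' x else 0)) := by
      intro x
      simp only [tm]
      by_cases h1 : blk K l x = blk K l p
      · rw [if_pos h1, if_pos h1]
        ring
      · rw [if_neg h1, if_neg h1]
        ring
    simp only [e]
    rw [← Finset.mul_sum, h]
    by_cases h1 : l = l'
    · subst h1
      rw [if_pos rfl]
      by_cases h2 : blk K l p = b'
      · rw [if_pos ⟨rfl, h2⟩, if_pos h2]
        ring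
      · rw [if_neg (fun hh => h2 hh.2), if_neg h2]
        ring
    · rw [if_neg (fun hh => h1 hh.1), if_neg (by simpa using h1)]
      ring

theorem hi_h {d K : ℕ} (K0 : ℕ) (hK0 : K0 ≤ K) (p : Pt d K) (R : Bx d K) :
    (∑ x, Hi K0 p x * hR R x) / cX d K = (1/2)^K * wR R p := by
  classical
  have hb : ∀ j, ((R.2 j : Fin _) : ℕ) < 2 ^ ((R.1.1 j : Fin (K+1)) : ℕ) := fun j => (R.2 j).isLt
  have h1 : ∑ x, Hi K0 p x * hR R x =
      ∑ o ∈ (Finset.univ : Finset (Fin d → Option (Fin (K+1)))).filter (fun o => K0 ≤ ∑ j, lev (o j)),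
        ∏ j, (if o j = some (R.1.1 j) then (2:ℝ)^(K+1-((R.1.1 j : Fin (K+1)) : ℕ)) *
          (if blk K (R.1.1 j) (p j) = (R.2 j : ℕ) then w1 K (R.1.1 j) (p j) else 0) else 0) := by
    unfold Hi hR
    simp only [Finset.sum_mul]
    rw [Finset.sum_comm]
    apply Finset.sum_congr rfl
    intro o _
    simp only [← Finset.prod_mul_distrib]
    have e := Finset.prod_univ_sum (fun _ : Fin d => (Finset.univ : Finset (Fin (2^(K+1)))))
      (fun j x => tm (o j) (p j) x * (if blk K (R.1.1 j) x = (R.2 j : ℕ) then sg K (R.1.1 j) x else 0))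
    rw [Fintype.piFinset_univ] at e
    rw [← e]
    apply Finset.prod_congr rfl
    intro j _
    exact hih_one K (o j) (p j) (R.1.1 j) _ (hb j)
  have h2 : ∑ x, Hi K0 p x * hR R x =
      ∏ j, ((2:ℝ)^(K+1-((R.1.1 j : Fin (K+1)) : ℕ)) *
          (if blk K (R.1.1 j) (p j) = (R.2 j : ℕ) then w1 K (R.1.1 j) (p j) else 0)) := by
    rw [h1, Finset.sum_eq_single (fun j => some (R.1.1 j))]
    · apply Finset.prod_congr rfl
      intro j _
      rw [if_pos rfl]
    · intro o _ ho
      have : ∃ j, o j ≠ some (R.1.1 j) := by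
        by_contra hcon
        push Not at hcon
        exact ho (funext hcon)
      obtain ⟨j, hj⟩ := this
      apply Finset.prod_eq_zero (Finset.mem_univ j)
      rw [if_neg hj]
    · intro hn
      exfalso
      apply hn
      rw [Finset.mem_filter]
      refine ⟨Finset.mem_univ _, ?_⟩
      have : ∑ j, lev (some (R.1.1 j)) = K := R.1.2
      rw [this]
      exact hK0
  rw [h2, Finset.prod_mul_distrib]
  have h3 : wR R p = ∏ j, (if blk K (R.1.1 j) (p j) = (R.2 j : ℕ) then w1 K (R.1.1 j) (p j) else 0) := rfl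
  rw [← h3]
  have h4 : cX d K = ∏ _j : Fin d, (2:ℝ)^(K+1) := by
    unfold cX
    rw [Fintype.card_fun, Fintype.card_fin, Fintype.card_fin, Finset.prod_const, Finset.card_univ,
      Fintype.card_fin]
    push_cast
    rfl
  have h5 : (∏ j, (2:ℝ)^(K+1-((R.1.1 j : Fin (K+1)) : ℕ))) * 2 ^ K = cX d K := by
    have h6 : (2:ℝ) ^ K = ∏ j, (2:ℝ) ^ ((R.1.1 j : Fin (K+1)) : ℕ) := by
      rw [Finset.prod_pow_eq_pow_sum, R.1.2]
    rw [h6, h4, ← Finset.prod_mul_distrib]
    apply Finset.prod_congr rfl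
    intro j _
    rw [← pow_add]
    congr 1
    have := (R.1.1 j).isLt
    omega
  have h7 : (0:ℝ) < ∏ j, (2:ℝ)^(K+1-((R.1.1 j : Fin (K+1)) : ℕ)) :=
    Finset.prod_pos fun j _ => by positivity
  rw [← h5, one_div, inv_pow]
  field_simp


end Sol_hi_h

alias hi_h := Sol_hi_h.hi_h

end Tus
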