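import Pool.Agent.Tus.Defs
open MeasureTheory Real ProbabilityTheory
open scoped ENNReal BigOperators

namespace Tus
namespace Sol_haar1



noncomputable def haar1_AA (B p x : ℕ) : ℝ :=
  if p / B = x / B then 1 - ((p % B : ℕ) : ℝ) / B else if x / B < p / B then 0 else 1

theorem haar1_core (M a b r : ℕ) (hr : r < M) :
    (if a = b then 1 - (r : ℝ) / M else if b < a then 0 else 1)
      - (if a / 2 = b / 2 then 1 - ((r + M * (a % 2) : ℕ) : ℝ) / ((2 * M : ℕ) : ℝ)
          else if b / 2 < a / 2 then 0 else 1)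
      = if b / 2 = a / 2 then
          ((min (r + M * (a % 2)) (2 * M - (r + M * (a % 2))) : ℕ) : ℝ) / ((2 * M : ℕ) : ℝ)
            * (if b % 2 = 1 then (1:ℝ) else -1) else 0 := by
  have hM : (0:ℝ) < M := by exact_mod_cast (by omega : 0 < M)
  by_cases h : a / 2 = b / 2
  · rw [if_pos h, if_pos h.symm]
    rcases Nat.mod_two_eq_zero_or_one a with ha | ha <;>
      rcases Nat.mod_two_eq_zero_or_one b with hb | hb
    · have e : a = b := by omega
      have m : min (r + M * (a % 2)) (2 * M - (r + M * (a % 2))) = r := by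
        rw [ha]; omega
      rw [if_pos e, m, if_neg (by omega), ha]
      push_cast
      field_simp
      ring
    · have e : a ≠ b := by omega
      have m : min (r + M * (a % 2)) (2 * M - (r + M * (a % 2))) = r := by
        rw [ha]; omega
      rw [if_neg e, if_neg (by omega), m, if_pos hb, ha]
      push_cast
      field_simp
      ring
    · have e : a ≠ b := by omega
      have m : min (r + M * (a % 2)) (2 * M - (r + M * (a % 2))) = M - r := by
        rw [ha]; omega
      rw [if_neg e, if_pos (by omega), m, if_neg (by omega), ha, Nat.cast_sub hr.le]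
      push_cast
      field_simp
      ring
    · have e : a = b := by omega
      have m : min (r + M * (a % 2)) (2 * M - (r + M * (a % 2))) = M - r := by
        rw [ha]; omega
      rw [if_pos e, m, if_pos hb, ha, Nat.cast_sub hr.le]
      push_cast
      field_simp
      ring
  · have h' : ¬ b / 2 = a / 2 := fun h2 => h h2.symm
    have e : a ≠ b := by rintro rfl; exact h rfl
    rw [if_neg h, if_neg h', if_neg e]
    by_cases h3 : b / 2 < a / 2
    · rw [if_pos h3, if_pos (by omega)]; ring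
    · rw [if_neg h3, if_neg (by omega)]; ring

theorem haar1_step (M p x : ℕ) (hM : 0 < M) :
    haar1_AA M p x - haar1_AA (2 * M) p x = if x / (2 * M) = p / (2 * M) then
      ((min (p % (2 * M)) (2 * M - p % (2 * M)) : ℕ) : ℝ) / ((2 * M : ℕ) : ℝ)
        * (if (x / M) % 2 = 1 then (1:ℝ) else -1) else 0 := by
  have h1 : ∀ y : ℕ, y / (2 * M) = (y / M) / 2 := by
    intro y; rw [Nat.div_div_eq_div_mul, mul_comm]
  have h2 : p % (2 * M) = p % M + M * ((p / M) % 2) := by
    rw [mul_comm 2 M, Nat.mod_mul]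
  unfold haar1_AA
  rw [h1, h1, h2]
  exact haar1_core M (p / M) (x / M) (p % M) (Nat.mod_lt _ hM)

theorem haar1 (K : ℕ) (p x : Fin (2^(K+1))) :
    (if p ≤ x then (1:ℝ) else 0) = ∑ o : Option (Fin (K+1)), tm o p x := by
  rw [Fintype.sum_option]
  have hl : ∀ l : Fin (K+1), tm (some l) p x =
      haar1_AA (2^(K+1-((l:ℕ)+1))) p x - haar1_AA (2^(K+1-(l:ℕ))) p x := by
    intro l
    have hlK : (l:ℕ) ≤ K := by omega
    have e1 : K + 1 - ((l:ℕ) + 1) = K - l := by omega
    have e2 : 2^(K+1-(l:ℕ)) = 2 * 2^(K-(l:ℕ)) := by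
      rw [show K + 1 - (l:ℕ) = (K - l) + 1 by omega, pow_succ]; ring
    have h := haar1_step (2^(K-(l:ℕ))) p x (by positivity)
    rw [e1, e2, h]
    simp only [tm, blk, w1, sg, e2]
    push_cast
    have e3 : (2:ℝ)^(K+1-(l:ℕ)) = 2 * 2^(K-(l:ℕ)) := by exact_mod_cast e2
    rw [e3]
  rw [Finset.sum_congr rfl (fun l _ => hl l)]
  rw [Fin.sum_univ_eq_sum_range (fun l => haar1_AA (2^(K+1-(l+1))) p x - haar1_AA (2^(K+1-l)) p x)
    (K+1), Finset.sum_range_sub (fun l => haar1_AA (2^(K+1-l)) p x)]
  have hp := p.2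
  have hx := x.2
  have hA0 : haar1_AA (2^(K+1-0)) p x = tm none p x := by
    unfold haar1_AA
    rw [Nat.sub_zero, Nat.div_eq_of_lt hp, Nat.div_eq_of_lt hx, if_pos rfl, Nat.mod_eq_of_lt hp]
    simp only [tm]
    push_cast
    field_simp
  have hA1 : haar1_AA (2^(K+1-(K+1))) p x = if p ≤ x then (1:ℝ) else 0 := by
    unfold haar1_AA
    rw [Nat.sub_self, pow_zero, Nat.div_one, Nat.div_one, Nat.mod_one]
    by_cases h1 : (p:ℕ) = x
    · rw [if_pos h1, if_pos (by rw [Fin.le_def]; omega)]; simp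
    · rw [if_neg h1]
      by_cases h2 : (x:ℕ) < p
      · rw [if_pos h2, if_neg (by rw [Fin.le_def]; omega)]
      · rw [if_neg h2, if_pos (by rw [Fin.le_def]; omega)]
  rw [hA0, hA1]
  ring


end Sol_haar1

alias haar1 := Sol_haar1.haar1

end Tus
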