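import Pool.Agent.Tus.Defs
import Pool.Agent.Tus.L_haar1
open MeasureTheory Real ProbabilityTheory
open scoped ENNReal BigOperators

namespace Tus
namespace Sol_phi_split




theorem phi_split {d K : ℕ} (K0 : ℕ) (p x : Pt d K) : phi p x = Low K0 p x + Hi K0 p x := by
  have h1 : phi p x = ∏ j, (if p j ≤ x j then (1:ℝ) else 0) := by
    unfold phi
    by_cases h : ∀ j, p j ≤ x j
    · rw [if_pos h]
      symm
      apply Finset.prod_eq_one
      intro j _
      rw [if_pos (h j)]
    · rw [if_neg h]
      push Not at h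
      obtain ⟨j, hj⟩ := h
      symm
      apply Finset.prod_eq_zero (Finset.mem_univ j)
      rw [if_neg (not_le.2 hj)]
  have h2 : (∏ j, (if p j ≤ x j then (1:ℝ) else 0)) =
      ∑ o : Fin d → Option (Fin (K+1)), ∏ j, tm (o j) (p j) (x j) := by
    have h3 : (∏ j, (if p j ≤ x j then (1:ℝ) else 0)) =
        ∏ j, ∑ o : Option (Fin (K+1)), tm o (p j) (x j) := by
      apply Finset.prod_congr rfl
      intro j _
      exact haar1 K (p j) (x j)
    rw [h3, Finset.prod_univ_sum, Fintype.piFinset_univ]
  rw [h1, h2]
  unfold Low Hi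
  have h4 : (Finset.univ : Finset (Fin d → Option (Fin (K+1)))).filter
      (fun o => K0 ≤ ∑ j, lev (o j)) =
      (Finset.univ : Finset (Fin d → Option (Fin (K+1)))).filter
      (fun o => ¬ (∑ j, lev (o j) < K0)) := by
    apply Finset.filter_congr
    intro o _
    exact not_lt.symm
  rw [h4, Finset.sum_filter_add_sum_filter_not]


end Sol_phi_split

alias phi_split := Sol_phi_split.phi_split

end Tus
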