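import Pool.Agent.Tus.Defs
import Pool.Agent.Tus.L_phi_split
import Pool.Agent.Tus.L_hi_avg
import Pool.Agent.Tus.L_hi_h
open MeasureTheory Real ProbabilityTheory
open scoped ENNReal BigOperators

namespace Tus
namespace Sol_dual






theorem dual_cX_pos (d K : ℕ) : 0 < cX d K := by
  unfold cX
  have : Nonempty (Pt d K) := ⟨fun _ => ⟨0, by positivity⟩⟩
  exact_mod_cast Fintype.card_pos

theorem dual_term {d K : ℕ} (s : ℝ) (K0 : ℕ) (h0 : 1 ≤ K0) (hK0 : K0 ≤ K) (p : Pt d K)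
    (α : Bx d K → ℝ) :
    (∑ R, (s * (1/2)^K * wR R p) * α R) + nz s K0 α p = (∑ x, Hi K0 p x * QQ s α x) / cX d K := by
  have hc := dual_cX_pos d K
  have h1 : ∑ x, Hi K0 p x * uu s α x = ∑ R, s * α R * ∑ x, Hi K0 p x * hR R x := by
    unfold uu
    simp only [Finset.mul_sum]
    rw [Finset.sum_comm]
    refine Finset.sum_congr rfl fun R _ => Finset.sum_congr rfl fun x _ => ?_
    ring
  have h2 : (∑ x, Hi K0 p x * uu s α x) / cX d K = ∑ R, (s * (1/2)^K * wR R p) * α R := by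
    rw [h1, Finset.sum_div]
    refine Finset.sum_congr rfl fun R _ => ?_
    rw [mul_div_assoc, hi_h K0 hK0 p R]
    ring
  have h3 : ∑ x, Hi K0 p x * QQ s α x = ∑ x, Hi K0 p x * (QQ s α x - 1 - uu s α x) +
      ∑ x, Hi K0 p x + ∑ x, Hi K0 p x * uu s α x := by
    rw [← Finset.sum_add_distrib, ← Finset.sum_add_distrib]
    refine Finset.sum_congr rfl fun x _ => ?_
    ring
  rw [h3, hi_avg K0 h0 p, add_zero, add_div, h2]
  unfold nz
  ring

theorem dual {d K n : ℕ} (s : ℝ) (K0 : ℕ) (h0 : 1 ≤ K0) (hK0 : K0 ≤ K) (P : Fin n → Pt d K)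
    (b : Fin n → ℝ) (hb : ∀ x, ∑ l, b l * Low K0 (P l) x = 0) (D : ℝ)
    (hD : ∀ x, |∑ l, b l * phi (P l) x| ≤ D) (α : Bx d K → ℝ) :
    |∑ l, b l * ((∑ R, (s * (1/2)^K * wR R (P l)) * α R) + nz s K0 α (P l))| ≤ D * ZZ s α := by
  have hc := dual_cX_pos d K
  have hHi : ∀ x, ∑ l, b l * Hi K0 (P l) x = ∑ l, b l * phi (P l) x := by
    intro x
    have : ∑ l, b l * phi (P l) x = ∑ l, b l * Low K0 (P l) x + ∑ l, b l * Hi K0 (P l) x := by
      rw [← Finset.sum_add_distrib]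
      refine Finset.sum_congr rfl fun l _ => ?_
      rw [phi_split K0 (P l) x]; ring
    rw [this, hb x, zero_add]
  have heq : ∑ l, b l * ((∑ R, (s * (1/2)^K * wR R (P l)) * α R) + nz s K0 α (P l)) =
      (∑ x, (∑ l, b l * phi (P l) x) * QQ s α x) / cX d K := by
    simp only [dual_term s K0 h0 hK0 _ α, ← mul_div_assoc, ← Finset.sum_div]
    congr 1
    simp only [← hHi, Finset.mul_sum, Finset.sum_mul]
    rw [Finset.sum_comm]
    refine Finset.sum_congr rfl fun x _ => Finset.sum_congr rfl fun l _ => ?_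
    ring
  rw [heq, abs_div, abs_of_pos hc, div_le_iff₀ hc]
  calc |∑ x, (∑ l, b l * phi (P l) x) * QQ s α x| ≤ ∑ x, |(∑ l, b l * phi (P l) x) * QQ s α x| :=
        Finset.abs_sum_le_sum_abs _ _
    _ ≤ ∑ x, D * QQ s α x := by
        refine Finset.sum_le_sum fun x _ => ?_
        have hq : 0 < QQ s α x := Real.exp_pos _
        rw [abs_mul, abs_of_pos hq]
        exact mul_le_mul_of_nonneg_right (hD x) hq.le
    _ = D * ZZ s α * cX d K := by
        unfold ZZ
        rw [← Finset.mul_sum, mul_assoc, div_mul_cancel₀ _ hc.ne']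


end Sol_dual

alias dual := Sol_dual.dual

end Tus
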