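import Pool.Agent.Tus.Defs
open MeasureTheory Real ProbabilityTheory
open scoped ENNReal BigOperators

namespace Tus
namespace Sol_sh_pos



theorem sh_pos (d K : ℕ) (hd : 1 ≤ d) : 1 ≤ sh d K := by
  unfold sh
  rw [Nat.one_le_iff_ne_zero, Ne, Fintype.card_eq_zero_iff, not_isEmpty_iff]
  refine ⟨⟨fun j => if j = ⟨0, hd⟩ then Fin.last K else 0, ?_⟩⟩
  rw [Finset.sum_eq_single (⟨0, hd⟩ : Fin d)]
  · simp
  · intro b _ hb
    simp [hb]
  · intro h
    exact absurd (Finset.mem_univ _) h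


end Sol_sh_pos

alias sh_pos := Sol_sh_pos.sh_pos

end Tus
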