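import Pool.Agent.Tus.Defs
open MeasureTheory Real ProbabilityTheory
open scoped ENNReal BigOperators

namespace Tus
namespace Sol_w1_sq



theorem s1_34373 (h : ℕ) : ∑ r ∈ Finset.range h, (r:ℝ) = h*((h:ℝ)-1)/2 := by
  induction h with
  | zero => simp
  | succ n ih => rw [Finset.sum_range_succ, ih]; push_cast; ring

theorem s2_34373 (h : ℕ) : ∑ r ∈ Finset.range h, (r:ℝ)^2 = ((h:ℝ)-1)*h*(2*h-1)/6 := by
  induction h with
  | zero => simp
  | succ n ih => rw [Finset.sum_range_succ, ih]; push_cast; ring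

theorem s3_34373 (h : ℕ) : ∑ r ∈ Finset.range h, ((r:ℝ)^2 + ((h:ℝ) - r)^2) = h*(2*(h:ℝ)^2+1)/3 := by
  have e : ∀ r ∈ Finset.range h, ((r:ℝ)^2 + ((h:ℝ) - r)^2) = 2 * (r:ℝ)^2 - 2 * h * r + (h:ℝ)^2 := by
    intro r _; ring
  rw [Finset.sum_congr rfl e, Finset.sum_add_distrib, Finset.sum_sub_distrib, ← Finset.mul_sum,
    ← Finset.mul_sum, s1_34373, s2_34373]
  simp only [Finset.sum_const, Finset.card_range, nsmul_eq_mul]
  ring

theorem per_34373 (M : ℕ) (hM : 0 < M) (g : ℕ → ℝ) (k : ℕ) :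
    ∑ p ∈ Finset.range (k * M), g (p % M) = k * ∑ r ∈ Finset.range M, g r := by
  induction k with
  | zero => simp
  | succ n ih =>
    rw [Nat.succ_mul, Finset.sum_range_add, ih]
    have e : ∀ x ∈ Finset.range M, g ((n * M + x) % M) = g x := by
      intro x hx
      rw [Finset.mem_range] at hx
      rw [Nat.mul_comm n M, Nat.mul_add_mod, Nat.mod_eq_of_lt hx]
    rw [Finset.sum_congr rfl e]
    push_cast
    ring

theorem w1_sq (K : ℕ) (l : Fin (K+1)) : (2:ℝ)^(K+1) / 12 ≤ ∑ p : Fin (2^(K+1)), w1 K l p ^ 2 ∧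
    ∀ p : Fin (2^(K+1)), 0 ≤ w1 K l p ∧ w1 K l p ≤ 1 := by
  have hl : (l : ℕ) ≤ K := Nat.lt_succ_iff.mp l.2
  refine ⟨?_, ?_⟩
  · obtain ⟨h, hh⟩ : ∃ h : ℕ, h = 2 ^ (K - (l:ℕ)) := ⟨_, rfl⟩
    have hh0 : 0 < h := by rw [hh]; positivity
    have hM : 2 ^ (K + 1 - (l:ℕ)) = h + h := by
      rw [hh, show K + 1 - (l:ℕ) = (K - (l:ℕ)) + 1 by omega, pow_succ]; ring
    have hMR : (2:ℝ) ^ (K + 1 - (l:ℕ)) = (h:ℝ) + h := by
      have := congrArg (fun n : ℕ => (n : ℝ)) hM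
      push_cast at this
      exact this
    have hN : 2 ^ (K + 1) = 2 ^ (l:ℕ) * (h + h) := by
      rw [← hM, ← pow_add]; congr 1; omega
    have hNR : (2:ℝ) ^ (K + 1) = 2 ^ (l:ℕ) * ((h:ℝ) + h) := by
      have := congrArg (fun n : ℕ => (n : ℝ)) hN
      push_cast at this
      exact this
    let g : ℕ → ℝ := fun r => (((min r (h + h - r) : ℕ) : ℝ) / ((h:ℝ) + h)) ^ 2
    have e1 : ∑ p : Fin (2^(K+1)), w1 K l p ^ 2 = ∑ p ∈ Finset.range (2 ^ (l:ℕ) * (h + h)), g (p % (h + h)) := by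
      rw [← hN, ← Fin.sum_univ_eq_sum_range (fun p => g (p % (h + h))) (2 ^ (K+1))]
      apply Finset.sum_congr rfl
      intro p _
      simp only [w1, g, hM, hMR]
    have e2 : ∑ r ∈ Finset.range (h + h), g r = h*(2*(h:ℝ)^2+1)/3 / ((h:ℝ)+h)^2 := by
      rw [Finset.sum_range_add, ← Finset.sum_add_distrib, ← s3_34373, Finset.sum_div]
      apply Finset.sum_congr rfl
      intro r hr
      rw [Finset.mem_range] at hr
      have m1 : min r (h + h - r) = r := by omega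
      have m2 : min (h + r) (h + h - (h + r)) = h - r := by omega
      simp only [g, m1, m2]
      rw [Nat.cast_sub hr.le, div_pow, div_pow, ← add_div]
    rw [e1, per_34373 (h + h) (by omega) g, e2, hNR]
    have hr0 : (0:ℝ) < h := by exact_mod_cast hh0
    push_cast
    have hp : (0:ℝ) < 2 ^ (l:ℕ) := by positivity
    rw [mul_div_assoc]
    apply mul_le_mul_of_nonneg_left _ hp.le
    rw [div_div, div_le_div_iff₀ (by norm_num) (by positivity)]
    nlinarith [pow_pos hr0 3, hr0]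
  · intro p
    unfold w1
    have hM0 : (0:ℝ) < 2 ^ (K + 1 - (l:ℕ)) := by positivity
    refine ⟨by positivity, ?_⟩
    rw [div_le_one hM0]
    have : min ((p:ℕ) % 2^(K+1-(l:ℕ))) (2^(K+1-(l:ℕ)) - (p:ℕ) % 2^(K+1-(l:ℕ))) ≤ 2^(K+1-(l:ℕ)) :=
      (min_le_right _ _).trans (Nat.sub_le _ _)
    calc _ ≤ ((2^(K+1-(l:ℕ)) : ℕ) : ℝ) := by exact_mod_cast this
      _ = _ := by push_cast; rfl


end Sol_w1_sq

alias w1_sq := Sol_w1_sq.w1_sq

end Tus
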