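import Pool.Agent.Tus.Defs
import Pool.Agent.Tus.L_T1_spec
import Pool.Agent.Tus.L_card_X
import Pool.Agent.Tus.L_w1_sq
import Pool.Agent.Tus.L_sh_pos
open MeasureTheory Real ProbabilityTheory
open scoped ENNReal BigOperators

namespace Tus
namespace Sol_gm_avg







theorem gm_pp {ι : Type*} [Fintype ι] [DecidableEq ι] {κ : ι → Type*} [∀ i, Fintype (κ i)]
    (f : ∀ i, κ i → ℝ) : ∑ x : (∀ i, κ i), ∏ i, f i (x i) = ∏ i, ∑ y, f i y := by
  rw [Finset.prod_univ_sum, Fintype.piFinset_univ]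

theorem gm_one (n A B : ℕ) (x y : ℝ) (hx : 0 ≤ x) (hx1 : x ≤ 1) (hy : 0 ≤ y) (hy1 : y ≤ 1) :
    0 ≤ (∑ m : Fin n, (if A = (m:ℕ) then x else 0) * (if B = (m:ℕ) then y else 0)) ∧
    (∑ m : Fin n, (if A = (m:ℕ) then x else 0) * (if B = (m:ℕ) then y else 0)) ≤
      (if A = B then (1:ℝ) else 0) := by
  constructor
  · apply Finset.sum_nonneg
    intro m _
    apply mul_nonneg <;> split_ifs <;> first | assumption | exact le_refl _
  · by_cases hAB : A = B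
    · subst hAB
      rw [if_pos rfl]
      calc (∑ m : Fin n, (if A = (m:ℕ) then x else 0) * (if A = (m:ℕ) then y else 0))
          ≤ ∑ m : Fin n, (if A = (m:ℕ) then (1:ℝ) else 0) := by
            apply Finset.sum_le_sum
            intro m _
            split_ifs
            · nlinarith
            · simp
        _ ≤ 1 := by
            rw [Finset.sum_boole]
            have : (Finset.univ.filter (fun m : Fin n => A = (m:ℕ))).card ≤ 1 := by
              rw [Finset.card_le_one]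
              intro a ha b hb
              simp only [Finset.mem_filter, Finset.mem_univ, true_and] at ha hb
              exact Fin.ext (by omega)
            exact_mod_cast this
    · rw [if_neg hAB]
      apply le_of_eq
      apply Finset.sum_eq_zero
      intro m _
      by_cases h1 : A = (m:ℕ)
      · have h2 : ¬ B = (m:ℕ) := fun h => hAB (h1.trans h.symm)
        simp [h2]
      · simp [h1]

/-- agreement indicator -/
noncomputable def gm_ag (K l : ℕ) (x y : Fin (2^(K+1))) : ℝ := if blk K l x = blk K l y then 1 else 0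

theorem gm_ag_nonneg (K l : ℕ) (x y : Fin (2^(K+1))) : 0 ≤ gm_ag K l x y := by
  unfold gm_ag; split_ifs <;> norm_num

theorem gm_ag_le (K l : ℕ) (x y : Fin (2^(K+1))) : gm_ag K l x y ≤ 1 := by
  unfold gm_ag; split_ifs <;> norm_num

theorem gm_bound {d K : ℕ} (p q : Pt d K) :
    0 ≤ (∑ R : Bx d K, wR R p * wR R q) ∧
    (∑ R : Bx d K, wR R p * wR R q) ≤ ∑ s : Sh d K, ∏ j, gm_ag K (s.1 j : ℕ) (p j) (q j) := by
  have hsig : (∑ R : Bx d K, wR R p * wR R q) =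
      ∑ s : Sh d K, ∏ j, ∑ m : Fin (2^((s.1 j : Fin (K+1)) : ℕ)),
        (if blk K (s.1 j) (p j) = (m : ℕ) then w1 K (s.1 j) (p j) else 0) *
        (if blk K (s.1 j) (q j) = (m : ℕ) then w1 K (s.1 j) (q j) else 0) := by
    rw [Fintype.sum_sigma]
    apply Finset.sum_congr rfl
    intro s _
    rw [← gm_pp (fun j (m : Fin (2^((s.1 j : Fin (K+1)) : ℕ))) =>
        (if blk K (s.1 j) (p j) = (m : ℕ) then w1 K (s.1 j) (p j) else 0) *
        (if blk K (s.1 j) (q j) = (m : ℕ) then w1 K (s.1 j) (q j) else 0))]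
    apply Finset.sum_congr rfl
    intro m _
    unfold wR
    rw [← Finset.prod_mul_distrib]
  rw [hsig]
  have h1 : ∀ (s : Sh d K) (j : Fin d), _ := fun s j =>
    gm_one (2^((s.1 j : Fin (K+1)) : ℕ)) (blk K (s.1 j) (p j)) (blk K (s.1 j) (q j))
      (w1 K (s.1 j) (p j)) (w1 K (s.1 j) (q j)) ((w1_sq K (s.1 j)).2 (p j)).1
      ((w1_sq K (s.1 j)).2 (p j)).2 ((w1_sq K (s.1 j)).2 (q j)).1 ((w1_sq K (s.1 j)).2 (q j)).2
  constructor
  · apply Finset.sum_nonneg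
    intro s _
    apply Finset.prod_nonneg
    intro j _
    exact (h1 s j).1
  · apply Finset.sum_le_sum
    intro s _
    apply Finset.prod_le_prod
    · intro j _
      exact (h1 s j).1
    · intro j _
      exact (h1 s j).2

theorem gm_cnt1 (K l : ℕ) (hl : l ≤ K + 1) (x : Fin (2^(K+1))) :
    ∑ y : Fin (2^(K+1)), gm_ag K l x y ≤ (2:ℝ)^(K+1-l) := by
  unfold gm_ag
  rw [Finset.sum_boole]
  have : (Finset.univ.filter (fun y : Fin (2^(K+1)) => blk K l x = blk K l y)).card ≤ 2^(K+1-l) := by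
    have hM : 0 < 2^(K+1-l) := by positivity
    have : (Finset.univ.filter (fun y : Fin (2^(K+1)) => blk K l x = blk K l y)).card
        ≤ (Finset.range (2^(K+1-l))).card := by
      apply Finset.card_le_card_of_injOn (fun y : Fin (2^(K+1)) => (y:ℕ) % 2^(K+1-l))
      · intro y hy
        simp only [Finset.coe_range, Set.mem_Iio]
        exact Nat.mod_lt _ hM
      · intro a ha b hb hab
        simp only [Finset.coe_filter, Finset.mem_univ, true_and, Set.mem_setOf_eq, blk] at ha hb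
        simp only at hab
        apply Fin.ext
        rw [← Nat.div_add_mod (a:ℕ) (2^(K+1-l)), ← Nat.div_add_mod (b:ℕ) (2^(K+1-l)), ← ha, ← hb, hab]
    simpa using this
  exact_mod_cast this

theorem gm_cnt (K l1 l2 : ℕ) (h1 : l1 ≤ K + 1) (h2 : l2 ≤ K + 1) :
    ∑ x : Fin (2^(K+1)), ∑ y : Fin (2^(K+1)), gm_ag K l1 x y * gm_ag K l2 x y
      ≤ (2:ℝ)^(K+1) * (2:ℝ)^(K+1-max l1 l2) := by
  have hx : ∀ x : Fin (2^(K+1)), ∑ y : Fin (2^(K+1)), gm_ag K l1 x y * gm_ag K l2 x y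
      ≤ (2:ℝ)^(K+1-max l1 l2) := by
    intro x
    rcases le_total l1 l2 with h | h
    · rw [max_eq_right h]
      refine le_trans (Finset.sum_le_sum ?_) (gm_cnt1 K l2 h2 x)
      intro y _
      have := gm_ag_le K l1 x y
      have := gm_ag_nonneg K l2 x y
      have := gm_ag_nonneg K l1 x y
      nlinarith
    · rw [max_eq_left h]
      refine le_trans (Finset.sum_le_sum ?_) (gm_cnt1 K l1 h1 x)
      intro y _
      have := gm_ag_le K l2 x y
      have := gm_ag_nonneg K l2 x y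
      have := gm_ag_nonneg K l1 x y
      nlinarith
  calc _ ≤ ∑ x : Fin (2^(K+1)), (2:ℝ)^(K+1-max l1 l2) := Finset.sum_le_sum (fun x _ => hx x)
    _ = _ := by simp

theorem gm_geo (a n : ℕ) (θ : ℝ) (h0 : 0 ≤ θ) (h1 : θ ≤ 5/7) :
    ∑ t ∈ Finset.range n, θ^((a - t) + (t - a)) ≤ 6 := by
  have hlt : θ < 1 := by linarith
  have hg : ∀ m : ℕ, ∑ i ∈ Finset.range m, θ^i ≤ 7/2 := by
    intro m
    have : ∑ i ∈ Finset.range m, θ^i = (1 - θ^m)/(1-θ) := by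
      rw [geom_sum_eq (by linarith), ← neg_div_neg_eq]
      congr 1 <;> ring
    rw [this, div_le_iff₀ (by linarith)]
    have := pow_nonneg h0 m
    nlinarith
  have hA : ∑ t ∈ Finset.range (a+1), θ^(a - t) ≤ 7/2 := by
    have := Finset.sum_range_reflect (fun i => θ^i) (a+1)
    have h2 : ∑ t ∈ Finset.range (a+1), θ^(a - t) = ∑ t ∈ Finset.range (a+1), θ^t := by
      rw [← this]
      apply Finset.sum_congr rfl
      intro t ht
      simp
    rw [h2]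
    exact hg _
  have hB : ∀ m : ℕ, ∑ t ∈ Finset.range m, θ^(t+1) ≤ 5/2 := by
    intro m
    have : ∑ t ∈ Finset.range m, θ^(t+1) = θ * ∑ t ∈ Finset.range m, θ^t := by
      rw [Finset.mul_sum]
      apply Finset.sum_congr rfl
      intro t _
      ring
    rw [this]
    have h3 := hg m
    have h4 : 0 ≤ ∑ t ∈ Finset.range m, θ^t := Finset.sum_nonneg (fun i _ => pow_nonneg h0 i)
    nlinarith
  have hmono : ∑ t ∈ Finset.range n, θ^((a - t) + (t - a)) ≤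
      ∑ t ∈ Finset.range ((a+1)+n), θ^((a - t) + (t - a)) := by
    apply Finset.sum_le_sum_of_subset_of_nonneg
    · intro t ht
      simp only [Finset.mem_range] at ht ⊢
      omega
    · intro i _ _
      positivity
  refine le_trans hmono ?_
  rw [Finset.sum_range_add]
  have e1 : ∑ t ∈ Finset.range (a+1), θ^((a - t) + (t - a)) = ∑ t ∈ Finset.range (a+1), θ^(a - t) := by
    apply Finset.sum_congr rfl
    intro t ht
    simp only [Finset.mem_range] at ht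
    congr 1
    omega
  have e2 : ∑ t ∈ Finset.range n, θ^((a - (a+1+t)) + ((a+1+t) - a)) = ∑ t ∈ Finset.range n, θ^(t+1) := by
    apply Finset.sum_congr rfl
    intro t ht
    congr 1
    omega
  rw [e1, e2]
  have := hB n
  linarith

theorem gm_theta : ∃ θ : ℝ, 0 < θ ∧ θ ≤ 5/7 ∧ θ^2 = 1/2 := by
  refine ⟨Real.sqrt (1/2), by positivity, ?_, ?_⟩
  · rw [Real.sqrt_le_left (by norm_num)]
    norm_num
  · rw [Real.sq_sqrt (by norm_num)]

theorem gm_fin (a n : ℕ) (θ : ℝ) (h0 : 0 ≤ θ) (h1 : θ ≤ 5/7) :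
    ∑ t : Fin n, θ^((a - (t:ℕ)) + ((t:ℕ) - a)) ≤ 6 := by
  rw [Finset.sum_range (fun t => θ^((a - t) + (t - a))) |>.symm]
  exact gm_geo a n θ h0 h1

theorem gm_shapes (d K : ℕ) :
    ∑ s : Sh d K, ∑ t : Sh d K, ∏ j : Fin d, (1/2:ℝ)^(max (s.1 j : ℕ) (t.1 j : ℕ))
      ≤ (sh d K : ℝ) * ((1/2:ℝ)^K * 6^d) := by
  obtain ⟨θ, hθ0, hθ1, hθ2⟩ := gm_theta
  have key : ∀ s t : Sh d K, ∏ j : Fin d, (1/2:ℝ)^(max (s.1 j : ℕ) (t.1 j : ℕ)) =
      (1/2:ℝ)^K * ∏ j : Fin d, θ^(((s.1 j : ℕ) - (t.1 j : ℕ)) + ((t.1 j : ℕ) - (s.1 j : ℕ))) := by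
    intro s t
    have h1 : ∀ j : Fin d, (1/2:ℝ)^(max (s.1 j : ℕ) (t.1 j : ℕ)) =
        θ^((s.1 j : ℕ)) * θ^((t.1 j : ℕ)) * θ^(((s.1 j : ℕ) - (t.1 j : ℕ)) + ((t.1 j : ℕ) - (s.1 j : ℕ))) := by
      intro j
      rw [← hθ2, ← pow_mul, ← pow_add, ← pow_add]
      congr 1
      rcases le_total (s.1 j : ℕ) (t.1 j : ℕ) with h | h
      · rw [max_eq_right h]; omega
      · rw [max_eq_left h]; omega
    rw [Finset.prod_congr rfl (fun j _ => h1 j), Finset.prod_mul_distrib, Finset.prod_mul_distrib,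
      Finset.prod_pow_eq_pow_sum, Finset.prod_pow_eq_pow_sum, s.2, t.2]
    congr 1
    rw [← pow_add, ← hθ2, ← pow_mul]
    congr 1
    omega
  have hrow : ∀ s : Sh d K, ∑ t : Sh d K, ∏ j : Fin d, (1/2:ℝ)^(max (s.1 j : ℕ) (t.1 j : ℕ))
      ≤ (1/2:ℝ)^K * 6^d := by
    intro s
    rw [Finset.sum_congr rfl (fun t _ => key s t), ← Finset.mul_sum]
    apply mul_le_mul_of_nonneg_left _ (by positivity)
    have hsub : ∑ t : Sh d K, ∏ j : Fin d, θ^(((s.1 j : ℕ) - (t.1 j : ℕ)) + ((t.1 j : ℕ) - (s.1 j : ℕ)))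
        ≤ ∑ t : Fin d → Fin (K+1), ∏ j : Fin d, θ^(((s.1 j : ℕ) - (t j : ℕ)) + ((t j : ℕ) - (s.1 j : ℕ))) := by
      have himg : ∑ t : Sh d K, ∏ j : Fin d, θ^(((s.1 j : ℕ) - (t.1 j : ℕ)) + ((t.1 j : ℕ) - (s.1 j : ℕ)))
          = ∑ t ∈ Finset.univ.filter (fun t : Fin d → Fin (K+1) => ∑ j, ((t j : Fin (K+1)) : ℕ) = K),
            ∏ j : Fin d, θ^(((s.1 j : ℕ) - (t j : ℕ)) + ((t j : ℕ) - (s.1 j : ℕ))) := by
        symm
        apply Finset.sum_subtype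
        intro t
        simp
      rw [himg]
      apply Finset.sum_le_sum_of_subset_of_nonneg (Finset.filter_subset _ _)
      intro i _ _
      positivity
    refine le_trans hsub ?_
    rw [gm_pp (fun (j : Fin d) (y : Fin (K+1)) => θ^(((s.1 j : ℕ) - (y : ℕ)) + ((y : ℕ) - (s.1 j : ℕ))))]
    calc _ ≤ ∏ j : Fin d, (6:ℝ) := by
          apply Finset.prod_le_prod
          · intro j _
            positivity
          · intro j _
            exact gm_fin _ _ θ hθ0.le hθ1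
      _ = 6^d := by simp
  calc _ ≤ ∑ s : Sh d K, (1/2:ℝ)^K * 6^d := Finset.sum_le_sum (fun s _ => hrow s)
    _ = _ := by
      rw [Finset.sum_const, nsmul_eq_mul]
      rfl

theorem gm_avg (d K : ℕ) (hd : 1 ≤ d) :
    (∑ p : Pt d K, ∑ q : Pt d K, Gm p q ^ 2) / cX d K ^ 2 ≤ 6^d / ((2:ℝ)^K * sh d K) := by
  have hS : (1:ℝ) ≤ sh d K := by exact_mod_cast sh_pos d K hd
  have hS0 : (0:ℝ) < sh d K := by linarith
  -- step 1
  have h1 : ∀ p q : Pt d K, Gm p q ^ 2 ≤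
      (∑ s : Sh d K, ∑ t : Sh d K, ∏ j, (gm_ag K (s.1 j : ℕ) (p j) (q j) * gm_ag K (t.1 j : ℕ) (p j) (q j)))
        / (sh d K : ℝ)^2 := by
    intro p q
    obtain ⟨ha, hb⟩ := gm_bound p q
    unfold Gm
    rw [div_pow]
    apply div_le_div_of_nonneg_right _ (by positivity)
    calc (∑ R : Bx d K, wR R p * wR R q)^2 ≤ (∑ s : Sh d K, ∏ j, gm_ag K (s.1 j : ℕ) (p j) (q j))^2 :=
          pow_le_pow_left₀ ha hb 2
      _ = _ := by
          rw [sq, Finset.sum_mul_sum]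
          apply Finset.sum_congr rfl
          intro s _
          apply Finset.sum_congr rfl
          intro t _
          rw [Finset.prod_mul_distrib]
  have h2 : ∑ p : Pt d K, ∑ q : Pt d K, Gm p q ^ 2 ≤
      (∑ s : Sh d K, ∑ t : Sh d K, ∑ p : Pt d K, ∑ q : Pt d K,
        ∏ j, (gm_ag K (s.1 j : ℕ) (p j) (q j) * gm_ag K (t.1 j : ℕ) (p j) (q j))) / (sh d K : ℝ)^2 := by
    calc _ ≤ ∑ p : Pt d K, ∑ q : Pt d K, (∑ s : Sh d K, ∑ t : Sh d K, ∏ j, (gm_ag K (s.1 j : ℕ) (p j) (q j) * gm_ag K (t.1 j : ℕ) (p j) (q j)))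
        / (sh d K : ℝ)^2 := Finset.sum_le_sum (fun p _ => Finset.sum_le_sum (fun q _ => h1 p q))
      _ = (∑ p : Pt d K, ∑ q : Pt d K, ∑ s : Sh d K, ∑ t : Sh d K, ∏ j, (gm_ag K (s.1 j : ℕ) (p j) (q j) * gm_ag K (t.1 j : ℕ) (p j) (q j)))
        / (sh d K : ℝ)^2 := by
          simp_rw [← Finset.sum_div]
      _ = _ := by
          congr 1
          rw [Finset.sum_congr rfl (fun p _ => Finset.sum_comm)]
          rw [Finset.sum_comm]
          apply Finset.sum_congr rfl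
          intro s _
          rw [Finset.sum_congr rfl (fun p _ => Finset.sum_comm)]
          rw [Finset.sum_comm]
  have h3 : ∀ s t : Sh d K, ∑ p : Pt d K, ∑ q : Pt d K,
        ∏ j, (gm_ag K (s.1 j : ℕ) (p j) (q j) * gm_ag K (t.1 j : ℕ) (p j) (q j)) ≤
        (2:ℝ)^((K+1)*d) * (2:ℝ)^((K+1)*d) * ∏ j : Fin d, (1/2:ℝ)^(max (s.1 j : ℕ) (t.1 j : ℕ)) := by
    intro s t
    have e1 : ∀ p : Pt d K, ∑ q : Pt d K,
        ∏ j, (gm_ag K (s.1 j : ℕ) (p j) (q j) * gm_ag K (t.1 j : ℕ) (p j) (q j)) =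
        ∏ j, ∑ y, (gm_ag K (s.1 j : ℕ) (p j) y * gm_ag K (t.1 j : ℕ) (p j) y) := by
      intro p
      rw [gm_pp (fun (j : Fin d) (y : Fin (2^(K+1))) => gm_ag K (s.1 j : ℕ) (p j) y * gm_ag K (t.1 j : ℕ) (p j) y)]
    rw [Finset.sum_congr rfl (fun p _ => e1 p)]
    rw [gm_pp (fun (j : Fin d) (x : Fin (2^(K+1))) => ∑ y, (gm_ag K (s.1 j : ℕ) x y * gm_ag K (t.1 j : ℕ) x y))]
    have e2 : (2:ℝ)^((K+1)*d) * (2:ℝ)^((K+1)*d) * ∏ j : Fin d, (1/2:ℝ)^(max (s.1 j : ℕ) (t.1 j : ℕ)) =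
        ∏ j : Fin d, ((2:ℝ)^(K+1) * (2:ℝ)^(K+1-max (s.1 j : ℕ) (t.1 j : ℕ))) := by
      have : ∀ j : Fin d, (2:ℝ)^(K+1) * (2:ℝ)^(K+1-max (s.1 j : ℕ) (t.1 j : ℕ)) =
          (2:ℝ)^(K+1) * (2:ℝ)^(K+1) * (1/2:ℝ)^(max (s.1 j : ℕ) (t.1 j : ℕ)) := by
        intro j
        have hm : max (s.1 j : ℕ) (t.1 j : ℕ) ≤ K+1 := by
          have := (s.1 j).2
          have := (t.1 j).2
          omega
        have h5 : (2:ℝ)^(K+1) = (2:ℝ)^(K+1-max (s.1 j : ℕ) (t.1 j : ℕ)) * (2:ℝ)^(max (s.1 j : ℕ) (t.1 j : ℕ)) := by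
          rw [← pow_add]; congr 1; omega
        have h6 : (2:ℝ)^(max (s.1 j : ℕ) (t.1 j : ℕ)) * (1/2:ℝ)^(max (s.1 j : ℕ) (t.1 j : ℕ)) = 1 := by
          rw [← mul_pow]; norm_num
        calc (2:ℝ)^(K+1) * (2:ℝ)^(K+1-max (s.1 j : ℕ) (t.1 j : ℕ))
            = (2:ℝ)^(K+1) * ((2:ℝ)^(K+1-max (s.1 j : ℕ) (t.1 j : ℕ)) * ((2:ℝ)^(max (s.1 j : ℕ) (t.1 j : ℕ)) * (1/2:ℝ)^(max (s.1 j : ℕ) (t.1 j : ℕ)))) := by
              rw [h6, mul_one]
          _ = (2:ℝ)^(K+1) * (((2:ℝ)^(K+1-max (s.1 j : ℕ) (t.1 j : ℕ)) * (2:ℝ)^(max (s.1 j : ℕ) (t.1 j : ℕ))) * (1/2:ℝ)^(max (s.1 j : ℕ) (t.1 j : ℕ))) := by ring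
          _ = _ := by rw [← h5]; ring
      rw [Finset.prod_congr rfl (fun j _ => this j), Finset.prod_mul_distrib, Finset.prod_mul_distrib]
      simp [pow_mul]
    rw [e2]
    apply Finset.prod_le_prod
    · intro j _
      apply Finset.sum_nonneg
      intro x _
      apply Finset.sum_nonneg
      intro y _
      exact mul_nonneg (gm_ag_nonneg _ _ _ _) (gm_ag_nonneg _ _ _ _)
    · intro j _
      exact gm_cnt K _ _ (by have := (s.1 j).2; omega) (by have := (t.1 j).2; omega)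
  have h4 : ∑ p : Pt d K, ∑ q : Pt d K, Gm p q ^ 2 ≤
      ((2:ℝ)^((K+1)*d) * (2:ℝ)^((K+1)*d) * ((sh d K : ℝ) * ((1/2:ℝ)^K * 6^d))) / (sh d K : ℝ)^2 := by
    refine le_trans h2 ?_
    apply div_le_div_of_nonneg_right _ (by positivity)
    calc _ ≤ ∑ s : Sh d K, ∑ t : Sh d K, (2:ℝ)^((K+1)*d) * (2:ℝ)^((K+1)*d) * ∏ j : Fin d, (1/2:ℝ)^(max (s.1 j : ℕ) (t.1 j : ℕ)) :=
          Finset.sum_le_sum (fun s _ => Finset.sum_le_sum (fun t _ => h3 s t))
      _ = (2:ℝ)^((K+1)*d) * (2:ℝ)^((K+1)*d) * ∑ s : Sh d K, ∑ t : Sh d K, ∏ j : Fin d, (1/2:ℝ)^(max (s.1 j : ℕ) (t.1 j : ℕ)) := by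
          simp_rw [Finset.mul_sum]
      _ ≤ _ := mul_le_mul_of_nonneg_left (gm_shapes d K) (by positivity)
  rw [card_X]
  have hc : (0:ℝ) < (2:ℝ)^((K+1)*d) := by positivity
  rw [div_le_iff₀ (by positivity)]
  refine le_trans h4 (le_of_eq ?_)
  have h7 : (1/2:ℝ)^K = 1 / (2:ℝ)^K := by rw [one_div_pow]
  rw [h7]
  field_simp


end Sol_gm_avg

alias gm_avg := Sol_gm_avg.gm_avg

end Tus
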