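import Pool.Agent.Tus.Defs
import Pool.Agent.Tus.L_w1_sq
import Pool.Agent.Tus.L_card_X
import Pool.Agent.Tus.L_sh_pos
open MeasureTheory Real ProbabilityTheory
open scoped ENNReal BigOperators

namespace Tus
namespace Sol_good_count






theorem gc_blk_lt (K l : ℕ) (hl : l ≤ K + 1) (x : Fin (2^(K+1))) : blk K l x < 2 ^ l := by
  unfold blk
  rw [Nat.div_lt_iff_lt_mul (by positivity), ← pow_add]
  have : l + (K + 1 - l) = K + 1 := by omega
  rw [this]
  exact x.2

theorem gc_Gm_eq {d K : ℕ} (p : Pt d K) :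
    Gm p p = (∑ s : Sh d K, ∏ j, w1 K (s.1 j) (p j) ^ 2) / sh d K := by
  unfold Gm
  congr 1
  rw [Fintype.sum_sigma]
  refine Finset.sum_congr rfl fun s _ => ?_
  have h1 : ∀ k : (∀ j, Fin (2^((s.1 j : Fin (K+1)) : ℕ))),
      wR (⟨s, k⟩ : Bx d K) p * wR (⟨s, k⟩ : Bx d K) p
        = ∏ j, (if blk K (s.1 j) (p j) = (k j : ℕ) then w1 K (s.1 j) (p j) ^ 2 else 0) := by
    intro k
    unfold wR
    rw [← Finset.prod_mul_distrib]
    refine Finset.prod_congr rfl fun j _ => ?_
    show (if blk K (s.1 j) (p j) = (k j : ℕ) then w1 K (s.1 j) (p j) else 0) *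
      (if blk K (s.1 j) (p j) = (k j : ℕ) then w1 K (s.1 j) (p j) else 0) = _
    split_ifs <;> ring
  rw [Finset.sum_congr rfl fun k _ => h1 k]
  have h2 := Finset.prod_univ_sum (fun j : Fin d => (Finset.univ : Finset (Fin (2^((s.1 j : Fin (K+1)) : ℕ)))))
    (fun j i => (if blk K (s.1 j) (p j) = (i : ℕ) then w1 K (s.1 j) (p j) ^ 2 else 0 : ℝ))
  rw [Fintype.piFinset_univ] at h2
  rw [← h2]
  refine Finset.prod_congr rfl fun j _ => ?_
  have hlt : blk K (s.1 j) (p j) < 2 ^ ((s.1 j : Fin (K+1)) : ℕ) :=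
    gc_blk_lt K _ (by have := (s.1 j).2; omega) _
  rw [Finset.sum_eq_single (⟨blk K (s.1 j) (p j), hlt⟩ : Fin (2^((s.1 j : Fin (K+1)) : ℕ)))]
  · simp
  · intro b _ hb
    rw [if_neg]
    intro h
    apply hb
    ext
    exact h.symm
  · intro h
    exact absurd (Finset.mem_univ _) h

theorem good_count (d K : ℕ) (hd : 1 ≤ d) : (1/12:ℝ)^d / 2 * cX d K ≤
    ((Finset.univ.filter (fun p : Pt d K => (1/12:ℝ)^d / 2 ≤ Gm p p)).card : ℝ) := by
  classical
  have hsh : (0:ℝ) < sh d K := by exact_mod_cast (sh_pos d K hd)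
  have hle : ∀ p : Pt d K, Gm p p ≤ 1 := by
    intro p
    rw [gc_Gm_eq, div_le_one hsh]
    calc (∑ s : Sh d K, ∏ j, w1 K (s.1 j) (p j) ^ 2) ≤ ∑ s : Sh d K, (1:ℝ) := by
          apply Finset.sum_le_sum
          intro s _
          apply Finset.prod_le_one
          · intro j _; positivity
          · intro j _
            have h1 := ((w1_sq K (s.1 j)).2 (p j)).1
            have h2 := ((w1_sq K (s.1 j)).2 (p j)).2
            exact pow_le_one₀ h1 h2
      _ = sh d K := by simp [sh]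
  have hsum : (1/12:ℝ)^d * cX d K ≤ ∑ p : Pt d K, Gm p p := by
    have h1 : ∑ p : Pt d K, Gm p p = (∑ s : Sh d K, ∏ j, ∑ x : Fin (2^(K+1)), w1 K (s.1 j) x ^ 2) / sh d K := by
      rw [Finset.sum_congr rfl fun p _ => gc_Gm_eq p, ← Finset.sum_div, Finset.sum_comm]
      congr 1
      refine Finset.sum_congr rfl fun s _ => ?_
      have h2 := Finset.prod_univ_sum (fun j : Fin d => (Finset.univ : Finset (Fin (2^(K+1)))))
        (fun j x => w1 K (s.1 j) x ^ 2)
      rw [Fintype.piFinset_univ] at h2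
      rw [← h2]
    rw [h1, le_div_iff₀ hsh]
    calc (1/12:ℝ)^d * cX d K * sh d K = ∑ s : Sh d K, (1/12:ℝ)^d * cX d K := by
          rw [Finset.sum_const, nsmul_eq_mul, mul_comm]
          rfl
      _ ≤ _ := by
          apply Finset.sum_le_sum
          intro s _
          have h3 : (1/12:ℝ)^d * cX d K = ∏ j : Fin d, ((2:ℝ)^(K+1) / 12) := by
            rw [card_X, Finset.prod_const, Finset.card_univ, Fintype.card_fin, div_pow, div_pow,
              one_pow, pow_mul]
            ring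
          rw [h3]
          apply Finset.prod_le_prod
          · intro j _; positivity
          · intro j _
            exact (w1_sq K (s.1 j)).1
  have hup : ∑ p : Pt d K, Gm p p ≤
      ((Finset.univ.filter (fun p : Pt d K => (1/12:ℝ)^d / 2 ≤ Gm p p)).card : ℝ)
        + (1/12:ℝ)^d / 2 * cX d K := by
    have h1 : ∀ p : Pt d K, Gm p p ≤ (if (1/12:ℝ)^d / 2 ≤ Gm p p then 1 else 0) + (1/12:ℝ)^d / 2 := by
      intro p
      have h0 : (0:ℝ) ≤ (1/12:ℝ)^d / 2 := by positivity
      split_ifs with h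
      · have := hle p; linarith
      · push Not at h; linarith
    calc ∑ p : Pt d K, Gm p p ≤ ∑ p : Pt d K, ((if (1/12:ℝ)^d / 2 ≤ Gm p p then 1 else 0) + (1/12:ℝ)^d / 2) :=
          Finset.sum_le_sum fun p _ => h1 p
      _ = _ := by
          rw [Finset.sum_add_distrib, Finset.sum_boole, Finset.sum_const, nsmul_eq_mul]
          congr 1
          rw [mul_comm]
          rfl
  linarith


end Sol_good_count

alias good_count := Sol_good_count.good_count

end Tus
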