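import Pool.Agent.Tus.Defs
import Pool.Agent.Tus.L_T1_spec
open MeasureTheory Real ProbabilityTheory
open scoped ENNReal BigOperators

namespace Tus
namespace Sol_hi_pair1




theorem hp_coarse (K l l' : ℕ) (h : l ≤ l') (hl' : l' ≤ K + 1) (a b : Fin (2^(K+1)))
    (hab : blk K l' a = blk K l' b) : blk K l a = blk K l b := by
  unfold blk at *
  have e : (2:ℕ) ^ (K + 1 - l) = 2 ^ (K + 1 - l') * 2 ^ (l' - l) := by
    rw [← pow_add]; congr 1; omega
  rw [e, ← Nat.div_div_eq_div_mul, ← Nat.div_div_eq_div_mul, hab]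

theorem hp_count (K l : ℕ) (y : Fin (2^(K+1))) :
    (∑ p : Fin (2^(K+1)), (if blk K l y = blk K l p then (1:ℝ) else 0)) ≤ (2:ℝ) ^ (K + 1 - l) := by
  rw [Finset.sum_boole]
  have : ((Finset.univ.filter (fun p : Fin (2^(K+1)) => blk K l y = blk K l p)).card) ≤
      (Finset.range (2 ^ (K + 1 - l))).card := by
    apply Finset.card_le_card_of_injOn (fun p : Fin (2^(K+1)) => (p : ℕ) % 2 ^ (K + 1 - l))
    · intro p _
      simp only [Finset.coe_range, Set.mem_Iio]
      exact Nat.mod_lt _ (by positivity)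
    · intro p hp q hq hpq
      simp only [Finset.coe_filter, Finset.mem_univ, true_and, Set.mem_setOf_eq] at hp hq
      simp only at hpq
      have h1 : (p : ℕ) / 2 ^ (K + 1 - l) = (q : ℕ) / 2 ^ (K + 1 - l) := by
        have := hp.symm.trans hq
        exact this
      apply Fin.ext
      rw [← Nat.div_add_mod (p : ℕ) (2 ^ (K + 1 - l)), ← Nat.div_add_mod (q : ℕ) (2 ^ (K + 1 - l)),
        h1, hpq]
  rw [Finset.card_range] at this
  exact_mod_cast this

theorem hp_sum (K l l' : ℕ) (hl : l ≤ K + 1) (hl' : l' ≤ K + 1) (x y : Fin (2^(K+1))) :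
    (∑ p : Fin (2^(K+1)), (if blk K l x = blk K l p then (1:ℝ) else 0) *
      (if blk K l' y = blk K l' p then (1:ℝ) else 0)) / 2^(K+1) ≤
      (if min l l' ≤ T1 K x y then (1/2:ℝ) ^ (max l l') else 0) := by
  have hpow : ∀ M : ℕ, M ≤ K + 1 → (2:ℝ) ^ (K + 1 - M) / 2 ^ (K + 1) = (1/2:ℝ) ^ M := by
    intro M hM
    rw [div_eq_iff (by positivity), one_div, inv_pow, ← div_eq_inv_mul, eq_div_iff (by positivity),
      ← pow_add]
    congr 1; omega
  rcases le_total l l' with h | h
  · rw [min_eq_left h, max_eq_right h]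
    split_ifs with hT
    · rw [← hpow l' hl']
      gcongr
      refine le_trans (Finset.sum_le_sum fun p _ => ?_) (hp_count K l' y)
      split_ifs <;> norm_num
    · apply le_of_eq
      rw [div_eq_zero_iff]
      left
      refine Finset.sum_eq_zero fun p _ => ?_
      by_cases h1 : blk K l x = blk K l p
      · by_cases h2 : blk K l' y = blk K l' p
        · exfalso
          apply hT
          rw [← (T1_spec K l hl x y).1, h1, hp_coarse K l l' h hl' y p h2]
        · rw [if_neg h2, mul_zero]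
      · rw [if_neg h1, zero_mul]
  · rw [min_eq_right h, max_eq_left h]
    split_ifs with hT
    · rw [← hpow l hl]
      gcongr
      refine le_trans (Finset.sum_le_sum fun p _ => ?_) (hp_count K l x)
      split_ifs <;> norm_num
    · apply le_of_eq
      rw [div_eq_zero_iff]
      left
      refine Finset.sum_eq_zero fun p _ => ?_
      by_cases h1 : blk K l x = blk K l p
      · by_cases h2 : blk K l' y = blk K l' p
        · exfalso
          apply hT
          rw [← (T1_spec K l' hl' x y).1, h2, hp_coarse K l' l h hl x p h1]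
        · rw [if_neg h2, mul_zero]
      · rw [if_neg h1, zero_mul]

theorem hp_tm {K : ℕ} (o : Option (Fin (K+1))) (p x : Fin (2^(K+1))) :
    |tm o p x| ≤ (if blk K (lev o) x = blk K (lev o) p then (1:ℝ) else 0) := by
  cases o with
  | none =>
    have h0 : blk K (lev (none : Option (Fin (K+1)))) x = blk K (lev (none : Option (Fin (K+1)))) p := by
      simp only [lev, blk, Nat.sub_zero]
      rw [Nat.div_eq_of_lt x.2, Nat.div_eq_of_lt p.2]
    rw [if_pos h0]
    simp only [tm]
    have hp : ((p : ℕ) : ℝ) < 2 ^ (K + 1) := by exact_mod_cast p.2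
    have hp0 : (0:ℝ) ≤ ((p : ℕ) : ℝ) := Nat.cast_nonneg _
    rw [abs_of_nonneg (div_nonneg (by linarith) (by positivity)), div_le_one (by positivity)]
    linarith
  | some l =>
    have e : tm (some l) p x = if blk K l x = blk K l p then w1 K l p * sg K l x else 0 := rfl
    by_cases h : blk K l x = blk K l p
    · have h' : blk K (lev (some l)) x = blk K (lev (some l)) p := h
      rw [e, if_pos h, if_pos h', abs_mul]
      have h1 : |sg K l x| = 1 := by
        unfold sg
        split_ifs <;> simp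
      rw [h1, mul_one]
      unfold w1
      rw [abs_of_nonneg (by positivity), div_le_one (by positivity)]
      have : min ((p:ℕ) % 2^(K+1-(l:ℕ))) (2^(K+1-(l:ℕ)) - (p:ℕ) % 2^(K+1-(l:ℕ))) ≤ 2^(K+1-(l:ℕ)) :=
        (min_le_right _ _).trans (Nat.sub_le _ _)
      exact_mod_cast this
    · have h' : ¬ blk K (lev (some l)) x = blk K (lev (some l)) p := h
      rw [e, if_neg h, if_neg h', abs_zero]

theorem hp_optsum (K : ℕ) (f : ℕ → ℝ) (hf : ∀ n, 0 ≤ f n) :
    ∑ o : Option (Fin (K+1)), f (lev o) ≤ 2 * ∑ l ∈ Finset.range (K+1), f l := by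
  rw [Fintype.sum_option]
  have h1 : ∑ l : Fin (K+1), f (lev (some l)) = ∑ l ∈ Finset.range (K+1), f l := by
    simp only [lev]
    exact Fin.sum_univ_eq_sum_range f (K+1)
  have h2 : f (lev (none : Option (Fin (K+1)))) ≤ ∑ l ∈ Finset.range (K+1), f l := by
    simp only [lev]
    exact Finset.single_le_sum (fun i _ => hf i) (Finset.mem_range.mpr (Nat.succ_pos K))
  rw [h1]; linarith

theorem hi_pair1 (K : ℕ) (x y : Fin (2^(K+1))) :
    ∑ o : Option (Fin (K+1)), ∑ o' : Option (Fin (K+1)),
      (2:ℝ)^((3/4:ℝ)*((lev o : ℝ) + lev o')) * ((∑ p, |tm o p x| * |tm o' p y|) / 2^(K+1))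
      ≤ 200 * (2:ℝ)^((T1 K x y : ℝ)/2) := by
  set T := T1 K x y with hT
  set a : ℝ := (2:ℝ) ^ (1/2 : ℝ) with ha
  set b : ℝ := (2:ℝ) ^ (-(1/4) : ℝ) with hb
  have hlev : ∀ o : Option (Fin (K+1)), lev o ≤ K := by
    intro o
    cases o with
    | none => simp [lev]
    | some l => simp only [lev]; omega
  have ha0 : 0 < a := by positivity
  have hb0 : 0 < b := by positivity
  have ha2 : a ^ 2 = 2 := by
    rw [ha, ← Real.rpow_natCast, ← Real.rpow_mul (by norm_num)]; norm_num
  have hb4 : b ^ 4 = 1 / 2 := by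
    rw [hb, ← Real.rpow_natCast, ← Real.rpow_mul (by norm_num)]
    norm_num
  have ha1 : 1.414 < a := by
    by_contra h
    push Not at h
    nlinarith
  have hb1 : b < 0.841 := by
    by_contra h
    push Not at h
    have h2 : (0.841:ℝ) ^ 4 ≤ b ^ 4 := pow_le_pow_left₀ (by norm_num) h 4
    rw [hb4] at h2
    norm_num at h2
  have hpa : ∀ n : ℕ, a ^ n = (2:ℝ) ^ ((n : ℝ) / 2) := by
    intro n
    rw [ha, ← Real.rpow_natCast, ← Real.rpow_mul (by norm_num)]
    congr 1; ring
  have hpb : ∀ n : ℕ, b ^ n = (2:ℝ) ^ (-((n : ℝ) / 4)) := by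
    intro n
    rw [hb, ← Real.rpow_natCast, ← Real.rpow_mul (by norm_num)]
    congr 1; ring
  have hhalf : ∀ n : ℕ, (1/2:ℝ) ^ n = (2:ℝ) ^ (-(n : ℝ)) := by
    intro n
    rw [Real.rpow_neg (by norm_num), Real.rpow_natCast, one_div, inv_pow]
  -- the majorant
  set h1 : ℕ → ℕ → ℝ := fun l l' => if l ≤ l' ∧ l ≤ T then a ^ l * b ^ (l' - l) else 0 with hh1
  have h1nn : ∀ l l', 0 ≤ h1 l l' := by
    intro l l'
    simp only [hh1]
    split_ifs <;> positivity
  have key : ∀ l l' : ℕ, l ≤ l' → l ≤ T →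
      (2:ℝ) ^ ((3/4:ℝ) * ((l : ℝ) + l')) * (1/2:ℝ) ^ l' = a ^ l * b ^ (l' - l) := by
    intro l l' h _
    rw [hpa, hpb, hhalf, ← Real.rpow_add (by norm_num), ← Real.rpow_add (by norm_num)]
    congr 1
    rw [Nat.cast_sub h]; ring
  have hterm : ∀ o o' : Option (Fin (K+1)),
      (2:ℝ)^((3/4:ℝ)*((lev o : ℝ) + lev o')) * ((∑ p, |tm o p x| * |tm o' p y|) / 2^(K+1)) ≤
        h1 (lev o) (lev o') + h1 (lev o') (lev o) := by
    intro o o'
    have hA : (∑ p, |tm o p x| * |tm o' p y|) / 2^(K+1) ≤
        (if min (lev o) (lev o') ≤ T then (1/2:ℝ) ^ (max (lev o) (lev o')) else 0) := by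
      refine le_trans ?_ (hp_sum K (lev o) (lev o') ((hlev o).trans (by omega))
        ((hlev o').trans (by omega)) x y)
      gcongr with p _
      · exact hp_tm o p x
      · exact hp_tm o' p y
    refine (mul_le_mul_of_nonneg_left hA (by positivity)).trans ?_
    rcases le_total (lev o) (lev o') with h | h
    · rw [min_eq_left h, max_eq_right h]
      split_ifs with h2
      · rw [key _ _ h h2]
        have e : h1 (lev o) (lev o') = a ^ (lev o) * b ^ (lev o' - lev o) := by
          simp only [hh1]; rw [if_pos ⟨h, h2⟩]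
        rw [e]
        linarith [h1nn (lev o') (lev o)]
      · rw [mul_zero]
        linarith [h1nn (lev o') (lev o), h1nn (lev o) (lev o')]
    · rw [min_eq_right h, max_eq_left h]
      split_ifs with h2
      · rw [add_comm ((lev o : ℝ)), key _ _ h h2]
        have e : h1 (lev o') (lev o) = a ^ (lev o') * b ^ (lev o - lev o') := by
          simp only [hh1]; rw [if_pos ⟨h, h2⟩]
        rw [e]
        linarith [h1nn (lev o) (lev o')]
      · rw [mul_zero]
        linarith [h1nn (lev o') (lev o), h1nn (lev o) (lev o')]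
  have hin : ∀ l : ℕ, ∑ l' ∈ Finset.range (K+1), h1 l l' ≤ (if l ≤ T then a ^ l else 0) * (1 / (1 - b)) := by
    intro l
    by_cases hlT : l ≤ T
    · rw [if_pos hlT]
      have e : ∑ l' ∈ Finset.range (K+1), h1 l l' =
          ∑ l' ∈ Finset.range (K+1), (if l ≤ l' then a ^ l * b ^ (l' - l) else 0) := by
        refine Finset.sum_congr rfl fun l' _ => ?_
        simp only [hh1, hlT, and_true]
      rw [e, ← Finset.sum_filter]
      have e2 : (Finset.range (K+1)).filter (fun l' => l ≤ l') = Finset.Ico l (K+1) := by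
        ext m; simp only [Finset.mem_filter, Finset.mem_range, Finset.mem_Ico]; tauto
      rw [e2, ← Finset.mul_sum, Finset.sum_Ico_eq_sum_range]
      gcongr
      have e3 : ∑ k ∈ Finset.range (K + 1 - l), b ^ (l + k - l) = ∑ k ∈ Finset.range (K + 1 - l), b ^ k := by
        refine Finset.sum_congr rfl fun k _ => ?_
        rw [Nat.add_sub_cancel_left]
      rw [e3, le_div_iff₀ (by linarith), geom_sum_mul_neg]
      have : 0 < b ^ (K + 1 - l) := by positivity
      linarith
    · rw [if_neg hlT, zero_mul]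
      apply le_of_eq
      refine Finset.sum_eq_zero fun l' _ => ?_
      simp only [hh1]
      rw [if_neg (fun hh => hlT hh.2)]
  have hout : ∑ l ∈ Finset.range (K+1), (if l ≤ T then a ^ l else 0) ≤ a ^ T * (a / (a - 1)) := by
    rw [← Finset.sum_filter]
    have hs : (Finset.range (K+1)).filter (fun l => l ≤ T) ⊆ Finset.range (T+1) := by
      intro m hm
      simp only [Finset.mem_filter, Finset.mem_range] at hm ⊢
      omega
    refine (Finset.sum_le_sum_of_subset_of_nonneg hs fun _ _ _ => by positivity).trans ?_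
    rw [← mul_div_assoc, le_div_iff₀ (by linarith), geom_sum_mul, pow_succ]
    linarith
  have hdd : ∑ l ∈ Finset.range (K+1), ∑ l' ∈ Finset.range (K+1), h1 l l' ≤
      a ^ T * (a / (a - 1)) * (1 / (1 - b)) := by
    calc _ ≤ ∑ l ∈ Finset.range (K+1), (if l ≤ T then a ^ l else 0) * (1 / (1 - b)) :=
          Finset.sum_le_sum fun l _ => hin l
      _ = (∑ l ∈ Finset.range (K+1), (if l ≤ T then a ^ l else 0)) * (1 / (1 - b)) := by
          rw [Finset.sum_mul]
      _ ≤ _ := by
          apply mul_le_mul_of_nonneg_right hout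
          apply div_nonneg zero_le_one; linarith
  have hd2 : ∑ o : Option (Fin (K+1)), ∑ o' : Option (Fin (K+1)), h1 (lev o) (lev o') ≤
      4 * (a ^ T * (a / (a - 1)) * (1 / (1 - b))) := by
    calc _ ≤ ∑ o : Option (Fin (K+1)), 2 * ∑ l' ∈ Finset.range (K+1), h1 (lev o) l' :=
          Finset.sum_le_sum fun o _ => hp_optsum K (fun l' => h1 (lev o) l') (fun n => h1nn _ _)
      _ = 2 * ∑ o : Option (Fin (K+1)), (fun l => ∑ l' ∈ Finset.range (K+1), h1 l l') (lev o) := by
          rw [Finset.mul_sum]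
      _ ≤ 2 * (2 * ∑ l ∈ Finset.range (K+1), ∑ l' ∈ Finset.range (K+1), h1 l l') := by
          gcongr
          exact hp_optsum K (fun l => ∑ l' ∈ Finset.range (K+1), h1 l l')
            (fun n => Finset.sum_nonneg fun _ _ => h1nn _ _)
      _ ≤ _ := by linarith
  have hd3 : ∑ o : Option (Fin (K+1)), ∑ o' : Option (Fin (K+1)), h1 (lev o') (lev o) ≤
      4 * (a ^ T * (a / (a - 1)) * (1 / (1 - b))) := by
    rw [Finset.sum_comm]; exact hd2
  calc _ ≤ ∑ o : Option (Fin (K+1)), ∑ o' : Option (Fin (K+1)),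
        (h1 (lev o) (lev o') + h1 (lev o') (lev o)) :=
        Finset.sum_le_sum fun o _ => Finset.sum_le_sum fun o' _ => hterm o o'
    _ = ∑ o : Option (Fin (K+1)), ∑ o' : Option (Fin (K+1)), h1 (lev o) (lev o') +
        ∑ o : Option (Fin (K+1)), ∑ o' : Option (Fin (K+1)), h1 (lev o') (lev o) := by
        rw [← Finset.sum_add_distrib]
        refine Finset.sum_congr rfl fun o _ => ?_
        rw [Finset.sum_add_distrib]
    _ ≤ 8 * (a ^ T * (a / (a - 1)) * (1 / (1 - b))) := by linarith
    _ ≤ 200 * (2:ℝ)^((T : ℝ)/2) := by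
        rw [← hpa]
        have c1 : a / (a - 1) ≤ 3.42 := by
          rw [div_le_iff₀ (by linarith)]
          nlinarith
        have c2 : 1 / (1 - b) ≤ 6.3 := by
          rw [div_le_iff₀ (by linarith)]
          nlinarith
        have c3 : 0 < a ^ T := by positivity
        have c4 : 0 ≤ a / (a - 1) := div_nonneg ha0.le (by linarith)
        have c5 : 0 ≤ 1 / (1 - b) := div_nonneg zero_le_one (by linarith)
        have c6 : a / (a - 1) * (1 / (1 - b)) ≤ 3.42 * 6.3 := mul_le_mul c1 c2 c5 (by norm_num)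
        have c7 : 8 * (a ^ T * (a / (a - 1)) * (1 / (1 - b))) =
            8 * (a / (a - 1) * (1 / (1 - b))) * a ^ T := by ring
        rw [c7]
        apply mul_le_mul_of_nonneg_right _ c3.le
        linarith


end Sol_hi_pair1

alias hi_pair1 := Sol_hi_pair1.hi_pair1

end Tus
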