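import Pool.Agent.Tus.Defs
import Pool.Agent.Tus.L_hi_pair1
import Pool.Agent.Tus.L_card_X
open MeasureTheory Real ProbabilityTheory
open scoped ENNReal BigOperators

namespace Tus
namespace Sol_hi_pair





noncomputable def hpA {K : ℕ} (p x : Fin (2^(K+1))) : ℝ :=
  ∑ o : Option (Fin (K+1)), (2:ℝ)^((3/4:ℝ) * (lev o : ℝ)) * |tm o p x|

theorem hpA_nonneg {K : ℕ} (p x : Fin (2^(K+1))) : 0 ≤ hpA p x := by
  unfold hpA
  positivity

theorem hp_bound {d K : ℕ} (K0 : ℕ) (p x : Pt d K) :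
    |Hi K0 p x| ≤ (2:ℝ)^(-(3/4:ℝ) * (K0:ℝ)) * ∏ j, hpA (p j) (x j) := by
  have e1 : ∏ j, hpA (p j) (x j) = ∑ o : Fin d → Option (Fin (K+1)),
      (2:ℝ)^((3/4:ℝ) * ((∑ j, lev (o j) : ℕ) : ℝ)) * ∏ j, |tm (o j) (p j) (x j)| := by
    unfold hpA
    rw [Finset.prod_univ_sum, Fintype.piFinset_univ]
    refine Finset.sum_congr rfl fun o _ => ?_
    rw [Finset.prod_mul_distrib, ← Real.rpow_sum_of_pos (by norm_num), Nat.cast_sum,
      Finset.mul_sum]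
  rw [e1, Finset.mul_sum]
  unfold Hi
  refine le_trans (Finset.abs_sum_le_sum_abs _ _) ?_
  refine le_trans ?_ (Finset.sum_le_sum_of_subset_of_nonneg (Finset.filter_subset
    (fun o : Fin d → Option (Fin (K+1)) => K0 ≤ ∑ j, lev (o j)) Finset.univ)
    (fun o _ _ => by positivity))
  refine Finset.sum_le_sum fun o ho => ?_
  rw [Finset.abs_prod]
  have h1 : K0 ≤ ∑ j, lev (o j) := (Finset.mem_filter.1 ho).2
  have h2 : (1:ℝ) ≤ (2:ℝ)^(-(3/4:ℝ) * (K0:ℝ)) * (2:ℝ)^((3/4:ℝ) * ((∑ j, lev (o j) : ℕ) : ℝ)) := by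
    rw [← Real.rpow_add (by norm_num)]
    apply Real.one_le_rpow (by norm_num)
    have h3 : (K0 : ℝ) ≤ ((∑ j, lev (o j) : ℕ) : ℝ) := by exact_mod_cast h1
    nlinarith
  have h4 : 0 ≤ ∏ j, |tm (o j) (p j) (x j)| := by positivity
  calc ∏ j, |tm (o j) (p j) (x j)| = 1 * ∏ j, |tm (o j) (p j) (x j)| := (one_mul _).symm
    _ ≤ ((2:ℝ)^(-(3/4:ℝ) * (K0:ℝ)) * (2:ℝ)^((3/4:ℝ) * ((∑ j, lev (o j) : ℕ) : ℝ))) *
        ∏ j, |tm (o j) (p j) (x j)| := mul_le_mul_of_nonneg_right h2 h4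
    _ = _ := by ring

theorem hpA_pair {K : ℕ} (x y : Fin (2^(K+1))) :
    (∑ q, hpA q x * hpA q y) / 2^(K+1) ≤ 200 * (2:ℝ)^((T1 K x y : ℝ)/2) := by
  refine le_trans (le_of_eq ?_) (hi_pair1 K x y)
  unfold hpA
  simp_rw [Finset.sum_mul_sum, Finset.sum_div, Finset.mul_sum]
  rw [Finset.sum_comm]
  refine Finset.sum_congr rfl fun o _ => ?_
  rw [Finset.sum_comm]
  refine Finset.sum_congr rfl fun o' _ => ?_
  refine Finset.sum_congr rfl fun q _ => ?_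
  rw [mul_add, Real.rpow_add (by norm_num)]
  ring

theorem hi_pair {d K : ℕ} (K0 : ℕ) (x y : Pt d K) :
    (∑ p, |Hi K0 p x| * |Hi K0 p y|) / cX d K ≤ 200^d * (2:ℝ)^((TT x y : ℝ)/2 - (3/2) * K0) := by
  set c : ℝ := (2:ℝ)^(-(3/4:ℝ) * (K0:ℝ)) with hc
  have hc0 : 0 ≤ c := by positivity
  have hX : cX d K = ∏ _j : Fin d, (2:ℝ)^(K+1) := by
    rw [card_X, Finset.prod_const, Finset.card_univ, Fintype.card_fin, ← pow_mul]
  have hX0 : 0 < cX d K := by rw [card_X]; positivity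
  have h1 : ∑ p, |Hi K0 p x| * |Hi K0 p y| ≤
      (c * c) * ∑ p : Pt d K, ∏ j, (hpA (p j) (x j) * hpA (p j) (y j)) := by
    rw [Finset.mul_sum]
    refine Finset.sum_le_sum fun p _ => ?_
    rw [Finset.prod_mul_distrib]
    calc |Hi K0 p x| * |Hi K0 p y| ≤ (c * ∏ j, hpA (p j) (x j)) * (c * ∏ j, hpA (p j) (y j)) :=
          mul_le_mul (hp_bound K0 p x) (hp_bound K0 p y) (abs_nonneg _)
            (mul_nonneg hc0 (Finset.prod_nonneg fun j _ => hpA_nonneg _ _))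
      _ = _ := by ring
  have h2 : ∑ p : Pt d K, ∏ j, (hpA (p j) (x j) * hpA (p j) (y j)) =
      ∏ j, ∑ q, hpA q (x j) * hpA q (y j) := by
    rw [Finset.prod_univ_sum, Fintype.piFinset_univ]
  have h3 : (∑ p, |Hi K0 p x| * |Hi K0 p y|) / cX d K ≤
      (c * c) * ∏ j, ((∑ q, hpA q (x j) * hpA q (y j)) / 2^(K+1)) := by
    rw [Finset.prod_div_distrib, ← hX, ← mul_div_assoc, ← h2]
    exact div_le_div_of_nonneg_right h1 hX0.le
  have h4 : ∏ j, ((∑ q, hpA q (x j) * hpA q (y j)) / 2^(K+1)) ≤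
      ∏ j, (200 * (2:ℝ)^((T1 K (x j) (y j) : ℝ)/2)) := by
    refine Finset.prod_le_prod (fun j _ => ?_) (fun j _ => hpA_pair (x j) (y j))
    exact div_nonneg (Finset.sum_nonneg fun q _ => mul_nonneg (hpA_nonneg _ _) (hpA_nonneg _ _))
      (by positivity)
  refine le_trans h3 (le_trans (mul_le_mul_of_nonneg_left h4 (mul_nonneg hc0 hc0)) (le_of_eq ?_))
  rw [Finset.prod_mul_distrib, Finset.prod_const, Finset.card_univ, Fintype.card_fin,
    ← Real.rpow_sum_of_pos (by norm_num)]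
  have h5 : c * c = (2:ℝ)^(-(3/2:ℝ) * (K0:ℝ)) := by
    rw [hc, ← Real.rpow_add (by norm_num)]
    congr 1
    ring
  rw [h5]
  have h6 : ∑ j, (T1 K (x j) (y j) : ℝ)/2 = (TT x y : ℝ)/2 := by
    unfold TT
    rw [Nat.cast_sum, Finset.sum_div]
  rw [h6]
  have h7 : (TT x y : ℝ)/2 - (3/2) * K0 = (-(3/2:ℝ) * (K0:ℝ)) + (TT x y : ℝ)/2 := by ring
  rw [h7, Real.rpow_add (by norm_num)]
  ring


end Sol_hi_pair

alias hi_pair := Sol_hi_pair.hi_pair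

end Tus
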