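import Pool.Agent.Tus.Defs
open MeasureTheory Real ProbabilityTheory
open scoped ENNReal BigOperators

namespace Tus
namespace Sol_sh_bounds



theorem sh_bounds (d K : ℕ) (hd : 1 ≤ d) :
    ((K:ℝ)+1)^(d-1) / ((d:ℝ)^(d-1)) ≤ 2^d * (sh d K : ℝ) ∧ (sh d K : ℝ) ≤ ((K:ℝ)+1)^(d-1) ∧ 1 ≤ sh d K := by
  obtain ⟨e, rfl⟩ : ∃ e, d = e + 1 := ⟨d - 1, by omega⟩
  simp only [Nat.add_sub_cancel]
  have hup : sh (e+1) K ≤ (K+1)^e := by
    unfold sh
    have h := Fintype.card_le_of_injective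
      (fun (s : Sh (e+1) K) => (fun j : Fin e => s.1 (Fin.castSucc j))) (by
        intro s t hst
        have h1 : ∀ j : Fin e, s.1 j.castSucc = t.1 j.castSucc := fun j => congrFun hst j
        have hs := s.2
        have ht := t.2
        rw [Fin.sum_univ_castSucc] at hs ht
        have h2 : ∑ i : Fin e, ((s.1 i.castSucc : Fin (K+1)) : ℕ) =
            ∑ i : Fin e, ((t.1 i.castSucc : Fin (K+1)) : ℕ) :=
          Finset.sum_congr rfl fun i _ => by rw [h1 i]
        apply Subtype.ext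
        funext j
        refine Fin.lastCases ?_ (fun j => h1 j) j
        apply Fin.ext
        omega)
    simpa using h
  have hlow : (K/(e+1)+1)^e ≤ sh (e+1) K := by
    unfold sh
    have hsum : ∀ t : Fin e → Fin (K/(e+1)+1), ∑ j, ((t j : Fin (K/(e+1)+1)) : ℕ) ≤ K := by
      intro t
      calc ∑ j, ((t j : Fin (K/(e+1)+1)) : ℕ) ≤ ∑ j : Fin e, K/(e+1) :=
            Finset.sum_le_sum fun j _ => by have := (t j).2; omega
        _ = e * (K/(e+1)) := by simp
        _ ≤ (e+1)*(K/(e+1)) := Nat.mul_le_mul_right _ (by omega)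
        _ ≤ K := Nat.mul_div_le K (e+1)
    have hle : ∀ (t : Fin e → Fin (K/(e+1)+1)) (j : Fin e), (t j : ℕ) < K+1 := fun t j =>
      lt_of_lt_of_le (t j).2 (by have := Nat.div_le_self K (e+1); omega)
    let F : (Fin e → Fin (K/(e+1)+1)) → Sh (e+1) K := fun t =>
      ⟨Fin.snoc (α := fun _ => Fin (K+1)) (fun j => ⟨(t j:ℕ), hle t j⟩)
        ⟨K - ∑ j, (t j:ℕ), by omega⟩, by
          rw [Fin.sum_univ_castSucc]
          simp only [Fin.snoc_castSucc, Fin.snoc_last]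
          have := hsum t
          omega⟩
    have h := Fintype.card_le_of_injective F (by
      intro s t hst
      funext j
      have h1 := congrFun (congrArg Subtype.val hst) (Fin.castSucc j)
      simp only [F, Fin.snoc_castSucc] at h1
      apply Fin.ext
      exact Fin.mk.inj_iff.mp h1)
    simpa using h
  have hK : (K + 1) ≤ (e+1) * (K/(e+1)+1) := by
    have h1 := Nat.div_add_mod K (e+1)
    have h2 := Nat.mod_lt K (show 0 < e + 1 by omega)
    rw [Nat.mul_add]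
    omega
  have hpos : 1 ≤ sh (e+1) K := le_trans (Nat.one_le_pow _ _ (Nat.succ_pos _)) hlow
  refine ⟨?_, by exact_mod_cast hup, hpos⟩
  have hlow' : (((K/(e+1)+1 : ℕ)) : ℝ)^e ≤ (sh (e+1) K : ℝ) := by exact_mod_cast hlow
  have hK' : ((K:ℝ)+1) / ((e+1 : ℕ) : ℝ) ≤ ((K/(e+1)+1 : ℕ) : ℝ) := by
    rw [div_le_iff₀ (by positivity)]
    have : ((K+1 : ℕ) : ℝ) ≤ (((e+1) * (K/(e+1)+1) : ℕ) : ℝ) := by exact_mod_cast hK
    push_cast at this ⊢
    linarith
  rw [← div_pow]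
  calc (((K:ℝ)+1) / ((e+1 : ℕ) : ℝ))^e ≤ (((K/(e+1)+1 : ℕ)) : ℝ)^e := by gcongr
    _ ≤ (sh (e+1) K : ℝ) := hlow'
    _ = 1 * (sh (e+1) K : ℝ) := by ring
    _ ≤ 2^(e+1) * (sh (e+1) K : ℝ) := by
      gcongr
      exact one_le_pow₀ (by norm_num)

end Sol_sh_bounds

alias sh_bounds := Sol_sh_bounds.sh_bounds

end Tus
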