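import Pool.Agent.Tus.Defs
import Pool.Agent.Tus.L_sh_bounds
import Pool.Agent.Tus.L_D_bound
open MeasureTheory Real ProbabilityTheory
open scoped ENNReal BigOperators

namespace Tus
namespace Sol_kern2





theorem k2_exp (x : ℝ) : |Real.exp x - 1 - x| ≤ x ^ 2 * Real.exp |x| := by
  have h0 : 0 ≤ Real.exp x - 1 - x := by
    have := Real.add_one_le_exp x
    linarith
  rw [abs_of_nonneg h0]
  rcases le_or_gt 0 x with hx | hx
  · rw [abs_of_nonneg hx]
    have h1 : 1 - x ≤ Real.exp (-x) := by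
      have := Real.add_one_le_exp (-x)
      linarith
    have h2 : Real.exp x - 1 ≤ x * Real.exp x := by
      have h3 : (1 - x) * Real.exp x ≤ Real.exp (-x) * Real.exp x :=
        mul_le_mul_of_nonneg_right h1 (Real.exp_pos x).le
      rw [← Real.exp_add, neg_add_cancel, Real.exp_zero] at h3
      linarith
    have h4 : x * (Real.exp x - 1) ≤ x * (x * Real.exp x) := mul_le_mul_of_nonneg_left h2 hx
    have h5 : Real.exp x - 1 - x ≤ x * (Real.exp x - 1) := by
      have h6 : Real.exp x - 1 - x - x * (Real.exp x - 1) = (1 - x) * Real.exp x - 1 := by ring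
      have h3 : (1 - x) * Real.exp x ≤ Real.exp (-x) * Real.exp x :=
        mul_le_mul_of_nonneg_right h1 (Real.exp_pos x).le
      rw [← Real.exp_add, neg_add_cancel, Real.exp_zero] at h3
      linarith
    nlinarith
  · have h1 : 1 - x ≤ Real.exp (-x) := by
      have := Real.add_one_le_exp (-x)
      linarith
    have h2 : Real.exp x * (1 - x) ≤ 1 := by
      have h3 : Real.exp x * (1 - x) ≤ Real.exp x * Real.exp (-x) :=
        mul_le_mul_of_nonneg_left h1 (Real.exp_pos x).le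
      rwa [← Real.exp_add, add_neg_cancel, Real.exp_zero] at h3
    have h4 : Real.exp x ≤ 1 + x + x ^ 2 := by
      have h5 : (0 : ℝ) < 1 - x := by linarith
      have h6 : Real.exp x * (1 - x) ≤ (1 + x + x ^ 2) * (1 - x) := by
        have h7 : (1 + x + x ^ 2) * (1 - x) = 1 - x ^ 3 := by ring
        have h8 : x ^ 3 ≤ 0 := by
          have : x ^ 3 = x * x ^ 2 := by ring
          rw [this]
          exact mul_nonpos_of_nonpos_of_nonneg hx.le (sq_nonneg x)
        rw [h7]; linarith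
      exact le_of_mul_le_mul_right h6 h5
    have h9 : 1 ≤ Real.exp |x| := Real.one_le_exp (abs_nonneg x)
    have h10 : x ^ 2 * 1 ≤ x ^ 2 * Real.exp |x| := mul_le_mul_of_nonneg_left h9 (sq_nonneg x)
    linarith

theorem k2_growth (m : ℕ) (t : ℝ) (ht : 0 ≤ t) :
    (t + 1) ^ m * Real.exp ((t + 1) / 16) ≤
      (16 ^ m * (m.factorial : ℝ) * Real.exp (1 / 8)) * (2:ℝ) ^ (t / 4) := by
  have hx : 0 ≤ (t + 1) / 16 := by positivity
  have h1 := Real.pow_div_factorial_le_exp ((t + 1) / 16) hx m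
  have hf : (0 : ℝ) < (m.factorial : ℝ) := by exact_mod_cast Nat.factorial_pos m
  have h2 : (t + 1) ^ m ≤ 16 ^ m * (m.factorial : ℝ) * Real.exp ((t + 1) / 16) := by
    rw [div_le_iff₀ hf] at h1
    have h3 : (t + 1) ^ m = 16 ^ m * ((t + 1) / 16) ^ m := by
      rw [← mul_pow]
      congr 1
      ring
    rw [h3, mul_assoc]
    refine mul_le_mul_of_nonneg_left ?_ (by positivity)
    linarith
  have h4 : Real.exp (t / 8) ≤ (2:ℝ) ^ (t / 4) := by
    rw [Real.rpow_def_of_pos (by norm_num : (0:ℝ) < 2)]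
    refine Real.exp_le_exp.2 ?_
    have := Real.log_two_gt_d9
    nlinarith
  calc (t + 1) ^ m * Real.exp ((t + 1) / 16)
      ≤ (16 ^ m * (m.factorial : ℝ) * Real.exp ((t + 1) / 16)) * Real.exp ((t + 1) / 16) :=
        mul_le_mul_of_nonneg_right h2 (Real.exp_pos _).le
    _ = (16 ^ m * (m.factorial : ℝ) * Real.exp (1 / 8)) * Real.exp (t / 8) := by
        rw [mul_assoc, mul_assoc _ (Real.exp (1/8)), ← Real.exp_add, ← Real.exp_add]
        congr 2
        ring
    _ ≤ _ := mul_le_mul_of_nonneg_left h4 (by positivity)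

theorem kern2 (d : ℕ) (hd : 2 ≤ d) : ∃ a0 C : ℝ, 0 < a0 ∧ 0 < C ∧ ∀ a : ℝ, 0 < a → a ≤ a0 →
    ∀ K : ℕ, 1 ≤ K → ∀ x y : Pt d K,
    |Real.exp (a * K / sh d K * Dk x y) - 1 - a * K / sh d K * Dk x y| ≤
      if TT x y < K then 0 else C * a^2 * ((K:ℝ) / sh d K)^2 * (2:ℝ)^(((TT x y : ℝ) - K)/4) := by
  obtain ⟨n, rfl⟩ : ∃ n, d = n + 2 := ⟨d - 2, by omega⟩
  set M : ℝ := 2 ^ (n + 2) * ((n + 2 : ℕ) : ℝ) ^ (n + 1) with hM
  have hM1 : 1 ≤ M := by
    have h1 : (1:ℝ) ≤ 2 ^ (n + 2) := one_le_pow₀ (by norm_num)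
    have h2 : (1:ℝ) ≤ ((n + 2 : ℕ) : ℝ) ^ (n + 1) := by
      refine one_le_pow₀ ?_
      push_cast
      linarith [Nat.cast_nonneg (α := ℝ) n]
    calc (1:ℝ) = 1 * 1 := by ring
      _ ≤ M := mul_le_mul h1 h2 zero_le_one (by positivity)
  have hM0 : 0 < M := lt_of_lt_of_le one_pos hM1
  refine ⟨1 / (16 * M), 16 ^ (2 * (n + 1)) * ((2 * (n + 1)).factorial : ℝ) * Real.exp (1 / 8),
    by positivity, ?_, ?_⟩
  · have : (0 : ℝ) < ((2 * (n + 1)).factorial : ℝ) := by exact_mod_cast Nat.factorial_pos _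
    positivity
  intro a ha ha0 K hK x y
  obtain ⟨hD0, hD1, hD2⟩ := D_bound (by omega) x y
  obtain ⟨hS1, _, hS3⟩ := sh_bounds (n + 2) K (by omega)
  have hSpos : (0 : ℝ) < (sh (n + 2) K : ℝ) := by
    have : (1 : ℝ) ≤ (sh (n + 2) K : ℝ) := by exact_mod_cast hS3
    linarith
  have hKpos : (0 : ℝ) < (K : ℝ) := by exact_mod_cast hK
  split_ifs with hT
  · rw [hD0 hT]
    simp
  · rw [not_lt] at hT
    have hDt := hD2 hT
    have hn : n + 2 - 1 = n + 1 := by omega
    rw [hn] at hDt hS1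
    set t : ℝ := (TT x y : ℝ) - K with ht
    have ht0 : 0 ≤ t := by
      have : (K : ℝ) ≤ (TT x y : ℝ) := by exact_mod_cast hT
      linarith
    have ht1 : 0 < t + 1 := by linarith
    -- S ≥ K^(n+1) / M
    have hS : (K : ℝ) ^ (n + 1) ≤ M * (sh (n + 2) K : ℝ) := by
      have hc : (0 : ℝ) < ((n + 2 : ℕ) : ℝ) ^ (n + 1) := by positivity
      rw [div_le_iff₀ hc] at hS1
      have h1 : (K : ℝ) ^ (n + 1) ≤ ((K : ℝ) + 1) ^ (n + 1) :=
        pow_le_pow_left₀ hKpos.le (by linarith) _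
      calc (K : ℝ) ^ (n + 1) ≤ ((K : ℝ) + 1) ^ (n + 1) := h1
        _ ≤ _ := hS1
        _ = M * (sh (n + 2) K : ℝ) := by rw [hM]; ring
    -- K |D| / S ≤ M (t+1)
    have hkey : (K : ℝ) / sh (n + 2) K * |Dk x y| ≤ M * (t + 1) := by
      rcases le_or_gt (K : ℝ) (t + 1) with h | h
      · calc (K : ℝ) / sh (n + 2) K * |Dk x y| ≤ (K : ℝ) / sh (n + 2) K * sh (n + 2) K :=
            mul_le_mul_of_nonneg_left hD1 (by positivity)
          _ = K := by field_simp
          _ ≤ 1 * (t + 1) := by linarith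
          _ ≤ M * (t + 1) := mul_le_mul_of_nonneg_right hM1 ht1.le
      · have h1 : (K : ℝ) * (t + 1) ^ (n + 1) ≤ K ^ (n + 1) * (t + 1) := by
          have h2 : (t + 1) ^ n ≤ (K : ℝ) ^ n := pow_le_pow_left₀ ht1.le h.le n
          calc (K : ℝ) * (t + 1) ^ (n + 1) = (K * (t + 1)) * (t + 1) ^ n := by ring
            _ ≤ (K * (t + 1)) * (K : ℝ) ^ n := mul_le_mul_of_nonneg_left h2 (by positivity)
            _ = K ^ (n + 1) * (t + 1) := by ring
        rw [div_mul_eq_mul_div, div_le_iff₀ hSpos]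
        calc (K : ℝ) * |Dk x y| ≤ K * (t + 1) ^ (n + 1) :=
              mul_le_mul_of_nonneg_left hDt hKpos.le
          _ ≤ K ^ (n + 1) * (t + 1) := h1
          _ ≤ (M * (sh (n + 2) K : ℝ)) * (t + 1) := mul_le_mul_of_nonneg_right hS ht1.le
          _ = M * (t + 1) * (sh (n + 2) K : ℝ) := by ring
    have habs : |a * K / sh (n + 2) K * Dk x y| = a * ((K : ℝ) / sh (n + 2) K * |Dk x y|) := by
      rw [abs_mul, abs_of_nonneg (by positivity : 0 ≤ a * K / (sh (n + 2) K : ℝ))]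
      ring
    have hκ : |a * K / sh (n + 2) K * Dk x y| ≤ (t + 1) / 16 := by
      rw [habs]
      calc a * ((K : ℝ) / sh (n + 2) K * |Dk x y|) ≤ (1 / (16 * M)) * (M * (t + 1)) :=
            mul_le_mul ha0 hkey (by positivity) (by positivity)
        _ = (t + 1) / 16 := by field_simp
    have hsq : (a * K / sh (n + 2) K * Dk x y) ^ 2 ≤
        a ^ 2 * ((K : ℝ) / sh (n + 2) K) ^ 2 * (t + 1) ^ (2 * (n + 1)) := by
      have h1 : (Dk x y) ^ 2 ≤ (t + 1) ^ (2 * (n + 1)) := by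
        rw [← sq_abs, mul_comm 2 (n + 1), pow_mul]
        exact pow_le_pow_left₀ (abs_nonneg _) hDt 2
      calc (a * K / sh (n + 2) K * Dk x y) ^ 2 =
            a ^ 2 * ((K : ℝ) / sh (n + 2) K) ^ 2 * (Dk x y) ^ 2 := by ring
        _ ≤ _ := mul_le_mul_of_nonneg_left h1 (by positivity)
    calc |Real.exp (a * K / sh (n + 2) K * Dk x y) - 1 - a * K / sh (n + 2) K * Dk x y|
        ≤ (a * K / sh (n + 2) K * Dk x y) ^ 2 * Real.exp |a * K / sh (n + 2) K * Dk x y| :=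
          k2_exp _
      _ ≤ (a ^ 2 * ((K : ℝ) / sh (n + 2) K) ^ 2 * (t + 1) ^ (2 * (n + 1))) *
          Real.exp ((t + 1) / 16) :=
          mul_le_mul hsq (Real.exp_le_exp.2 hκ) (Real.exp_pos _).le (by positivity)
      _ = (a ^ 2 * ((K : ℝ) / sh (n + 2) K) ^ 2) *
          ((t + 1) ^ (2 * (n + 1)) * Real.exp ((t + 1) / 16)) := by ring
      _ ≤ (a ^ 2 * ((K : ℝ) / sh (n + 2) K) ^ 2) *
          ((16 ^ (2 * (n + 1)) * ((2 * (n + 1)).factorial : ℝ) * Real.exp (1 / 8)) *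
            (2:ℝ) ^ (t / 4)) :=
          mul_le_mul_of_nonneg_left (k2_growth _ t ht0) (by positivity)
      _ = _ := by ring


end Sol_kern2

alias kern2 := Sol_kern2.kern2

end Tus
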