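import Pool.Agent.Tus.Defs
import Pool.Agent.Tus.L_T1_spec
import Pool.Agent.Tus.L_card_X
open MeasureTheory Real ProbabilityTheory
open scoped ENNReal BigOperators

namespace Tus
namespace Sol_pair_count





noncomputable def pcg (K n : ℕ) : ℝ := if n < K then 0 else (2:ℝ)^((3/4:ℝ)*((n : ℝ) - K))

theorem pcg_nonneg (K n : ℕ) : 0 ≤ pcg K n := by
  unfold pcg
  split_ifs
  · exact le_refl 0
  · positivity

theorem pc_blk_card (K m : ℕ) (a : Fin (2^(K+1))) :
    (Finset.univ.filter (fun b : Fin (2^(K+1)) => blk K m a = blk K m b)).card ≤ 2^(K+1-m) := by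
  have h1 : (Finset.univ.filter (fun b : Fin (2^(K+1)) => blk K m a = blk K m b)).card ≤
      (Finset.Ico (2^(K+1-m) * blk K m a) (2^(K+1-m) * blk K m a + 2^(K+1-m))).card := by
    apply Finset.card_le_card_of_injOn (fun b : Fin (2^(K+1)) => (b : ℕ))
    · intro b hb
      simp only [Finset.coe_filter, Finset.mem_univ, true_and, Set.mem_ofPred_eq] at hb
      simp only [Finset.coe_Ico, Set.mem_Ico]
      rw [hb]
      unfold blk
      have h2 : 0 < 2^(K+1-m) := by positivity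
      have h3 := Nat.div_add_mod (b : ℕ) (2^(K+1-m))
      have h4 := Nat.mod_lt (b : ℕ) h2
      constructor <;> omega
    · intro b _ b' _ h
      exact Fin.ext h
  rw [Nat.card_Ico, Nat.add_sub_cancel_left] at h1
  exact h1

theorem pc_sum_T1 (K : ℕ) (a : Fin (2^(K+1))) (F : ℕ → ℝ) (hF : ∀ m, 0 ≤ F m) :
    ∑ b, F (T1 K a b) ≤ ∑ m ∈ Finset.range (K+2), (2:ℝ)^(K+1-m) * F m := by
  have h0 : ∀ b ∈ (Finset.univ : Finset (Fin (2^(K+1)))), T1 K a b ∈ Finset.range (K+2) := by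
    intro b _
    rw [Finset.mem_range]
    have := (T1_spec K 0 (by omega) a b).2
    omega
  rw [← Finset.sum_fiberwise_of_maps_to h0]
  apply Finset.sum_le_sum
  intro m hm
  rw [Finset.mem_range] at hm
  have h1 : ∑ b ∈ Finset.univ.filter (fun b => T1 K a b = m), F (T1 K a b) =
      ((Finset.univ.filter (fun b => T1 K a b = m)).card : ℝ) * F m := by
    rw [Finset.sum_congr rfl (g := fun _ => F m)
      (fun b hb => by rw [(Finset.mem_filter.1 hb).2]), Finset.sum_const, nsmul_eq_mul]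
  rw [h1]
  apply mul_le_mul_of_nonneg_right _ (hF m)
  have h2 : (Finset.univ.filter (fun b => T1 K a b = m)).card ≤ 2^(K+1-m) := by
    refine le_trans (Finset.card_le_card ?_) (pc_blk_card K m a)
    intro b hb
    rw [Finset.mem_filter] at hb ⊢
    refine ⟨hb.1, ((T1_spec K m (by omega) a b).1).2 ?_⟩
    exact hb.2.ge
  exact_mod_cast h2

theorem pc_geo (K k c : ℕ) :
    ∑ m ∈ Finset.range k, (1/2:ℝ)^(m+c) * pcg K (m+c) ≤ 7 * (1/2)^K := by
  set r : ℝ := (1/2) * (2:ℝ)^(3/4:ℝ) with hr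
  have hr0 : 0 ≤ r := by positivity
  have hr4 : r ^ 4 = 1/2 := by
    rw [hr, mul_pow, ← Real.rpow_mul_natCast (by norm_num)]
    norm_num
  have hr1 : r ≤ 6/7 := by
    rw [← pow_le_pow_iff_left₀ hr0 (by norm_num) (by norm_num : (4:ℕ) ≠ 0), hr4]
    norm_num
  have hG : ∀ j : ℕ, (1/2:ℝ)^(K+j) * pcg K (K+j) = (1/2)^K * r^j := by
    intro j
    unfold pcg
    rw [if_neg (by omega)]
    have h1 : (3/4:ℝ) * (((K+j : ℕ) : ℝ) - K) = (3/4) * (j : ℝ) := by
      push_cast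
      ring
    rw [h1, Real.rpow_mul_natCast (by norm_num), hr, mul_pow, pow_add]
    ring
  have hgeo : ∀ n : ℕ, ∑ j ∈ Finset.range n, r^j ≤ 7 := by
    intro n
    have h1 : (1 - r) * ∑ j ∈ Finset.range n, r^j ≤ 1 := by
      rw [mul_neg_geom_sum]
      have : 0 ≤ r^n := by positivity
      linarith
    have h2 : 0 ≤ ∑ j ∈ Finset.range n, r^j := Finset.sum_nonneg fun j _ => by positivity
    nlinarith
  have hn : ∀ n, 0 ≤ (1/2:ℝ)^n * pcg K n := fun n => mul_nonneg (by positivity) (pcg_nonneg K n)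
  calc ∑ m ∈ Finset.range k, (1/2:ℝ)^(m+c) * pcg K (m+c)
      ≤ ∑ n ∈ Finset.range (c + k), (1/2:ℝ)^n * pcg K n := by
        rw [Finset.sum_range_add]
        have h1 : 0 ≤ ∑ n ∈ Finset.range c, (1/2:ℝ)^n * pcg K n :=
          Finset.sum_nonneg fun n _ => hn n
        have h2 : ∑ m ∈ Finset.range k, (1/2:ℝ)^(m+c) * pcg K (m+c) =
            ∑ m ∈ Finset.range k, (1/2:ℝ)^(c+m) * pcg K (c+m) := by
          apply Finset.sum_congr rfl
          intro m _
          rw [add_comm]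
        rw [h2]
        linarith
    _ ≤ ∑ n ∈ Finset.range (K + (c + k)), (1/2:ℝ)^n * pcg K n := by
        apply Finset.sum_le_sum_of_subset_of_nonneg
        · intro n hn
          rw [Finset.mem_range] at hn ⊢
          omega
        · intro n _ _
          exact hn n
    _ = ∑ j ∈ Finset.range (c + k), (1/2)^K * r^j := by
        rw [Finset.sum_range_add]
        have h1 : ∑ n ∈ Finset.range K, (1/2:ℝ)^n * pcg K n = 0 := by
          apply Finset.sum_eq_zero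
          intro n hn
          rw [Finset.mem_range] at hn
          unfold pcg
          rw [if_pos hn, mul_zero]
        rw [h1, zero_add]
        exact Finset.sum_congr rfl fun j _ => hG j
    _ = (1/2)^K * ∑ j ∈ Finset.range (c + k), r^j := by rw [Finset.mul_sum]
    _ ≤ (1/2)^K * 7 := mul_le_mul_of_nonneg_left (hgeo _) (by positivity)
    _ = 7 * (1/2)^K := mul_comm _ _

theorem pc_one (K c : ℕ) (a : Fin (2^(K+1))) :
    ∑ b, pcg K (T1 K a b + c) ≤ (2:ℝ)^(K+1) * (7 * (1/2)^K) * 2^c := by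
  refine (pc_sum_T1 K a (fun m => pcg K (m + c)) (fun m => pcg_nonneg _ _)).trans ?_
  have h1 : ∀ m ∈ Finset.range (K+2), (2:ℝ)^(K+1-m) * pcg K (m + c) =
      (2:ℝ)^(K+1) * 2^c * ((1/2:ℝ)^(m+c) * pcg K (m+c)) := by
    intro m hm
    rw [Finset.mem_range] at hm
    have h2 : (2:ℝ)^(K+1) = 2^(K+1-m) * 2^m := by
      rw [← pow_add]
      congr 1
      omega
    have h3 : (2:ℝ)^m * 2^c * (1/2:ℝ)^(m+c) = 1 := by
      rw [← pow_add, ← mul_pow]
      norm_num
    rw [h2]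
    calc (2:ℝ)^(K+1-m) * pcg K (m + c) = (2:ℝ)^(K+1-m) * (1 * pcg K (m + c)) := by ring
      _ = (2:ℝ)^(K+1-m) * (((2:ℝ)^m * 2^c * (1/2:ℝ)^(m+c)) * pcg K (m + c)) := by rw [h3]
      _ = _ := by ring
  rw [Finset.sum_congr rfl h1, ← Finset.mul_sum]
  have h4 := mul_le_mul_of_nonneg_left (pc_geo K (K+2) c)
    (show (0:ℝ) ≤ (2:ℝ)^(K+1) * 2^c by positivity)
  calc _ ≤ (2:ℝ)^(K+1) * 2^c * (7 * (1/2)^K) := h4
    _ = _ := by ring

theorem pc_two (K : ℕ) (a : Fin (2^(K+1))) :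
    ∑ b, (2:ℝ)^(T1 K a b) ≤ ((K:ℝ)+2) * 2^(K+1) := by
  refine (pc_sum_T1 K a (fun m => (2:ℝ)^m) (fun m => by positivity)).trans (le_of_eq ?_)
  have h1 : ∀ m ∈ Finset.range (K+2), (2:ℝ)^(K+1-m) * 2^m = 2^(K+1) := by
    intro m hm
    rw [Finset.mem_range] at hm
    rw [← pow_add]
    congr 1
    omega
  rw [Finset.sum_congr rfl h1, Finset.sum_const, Finset.card_range, nsmul_eq_mul]
  push_cast
  ring

theorem pc_prod (K e : ℕ) :
    ∑ x : Fin e → Fin (2^(K+1)), ∑ y : Fin e → Fin (2^(K+1)), (2:ℝ)^(∑ j, T1 K (x j) (y j)) ≤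
      (((K:ℝ)+2) * 2^(K+1) * 2^(K+1))^e := by
  have h1 : ∀ x : Fin e → Fin (2^(K+1)),
      ∑ y : Fin e → Fin (2^(K+1)), (2:ℝ)^(∑ j, T1 K (x j) (y j)) =
        ∏ j, ∑ b, (2:ℝ)^(T1 K (x j) b) := by
    intro x
    rw [Finset.prod_univ_sum, Fintype.piFinset_univ]
    apply Finset.sum_congr rfl
    intro y _
    rw [Finset.prod_pow_eq_pow_sum]
  have h2 : ∑ x : Fin e → Fin (2^(K+1)), ∏ j, ∑ b, (2:ℝ)^(T1 K (x j) b) =
      ∏ _j : Fin e, ∑ a : Fin (2^(K+1)), ∑ b, (2:ℝ)^(T1 K a b) := by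
    rw [Finset.prod_univ_sum, Fintype.piFinset_univ]
  simp only [h1]
  rw [h2, Finset.prod_const, Finset.card_univ, Fintype.card_fin]
  apply pow_le_pow_left₀
  · exact Finset.sum_nonneg fun a _ => Finset.sum_nonneg fun b _ => by positivity
  · calc ∑ a : Fin (2^(K+1)), ∑ b, (2:ℝ)^(T1 K a b)
        ≤ ∑ a : Fin (2^(K+1)), ((K:ℝ)+2) * 2^(K+1) := Finset.sum_le_sum fun a _ => pc_two K a
      _ = _ := by
          rw [Finset.sum_const, Finset.card_univ, Fintype.card_fin, nsmul_eq_mul]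
          push_cast
          ring

theorem pair_count (d K : ℕ) (hd : 1 ≤ d) :
    (∑ x : Pt d K, ∑ y : Pt d K, if TT x y < K then 0 else (2:ℝ)^((3/4:ℝ)*((TT x y : ℝ) - K))) / cX d K ^ 2
      ≤ 7 * ((K:ℝ)+2)^(d-1) * (1/2)^K := by
  obtain ⟨e, rfl⟩ : ∃ e, d = e + 1 := ⟨d - 1, by omega⟩
  show (∑ x : Pt (e+1) K, ∑ y : Pt (e+1) K, pcg K (TT x y)) / cX (e+1) K ^ 2 ≤ _
  have hsplit : ∀ F : Pt (e+1) K → ℝ, ∑ x, F x = ∑ a : Fin (2^(K+1)),
      ∑ x' : Fin e → Fin (2^(K+1)), F (Fin.cons a x') := by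
    intro F
    rw [← (Fin.consEquiv (fun _ : Fin (e+1) => Fin (2^(K+1)))).sum_comp, Fintype.sum_prod_type]
    rfl
  have hnum : ∑ x : Pt (e+1) K, ∑ y : Pt (e+1) K, pcg K (TT x y) =
      ∑ x' : Fin e → Fin (2^(K+1)), ∑ y' : Fin e → Fin (2^(K+1)), ∑ a : Fin (2^(K+1)),
        ∑ b : Fin (2^(K+1)), pcg K (T1 K a b + ∑ j, T1 K (x' j) (y' j)) := by
    have hTT : ∀ (a b : Fin (2^(K+1))) (x' y' : Fin e → Fin (2^(K+1))),
        TT (d := e+1) (K := K) (Fin.cons a x' : Pt (e+1) K) (Fin.cons b y' : Pt (e+1) K) =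
          T1 K a b + ∑ j, T1 K (x' j) (y' j) := by
      intro a b x' y'
      unfold TT
      rw [Fin.sum_univ_succ]
      simp only [Fin.cons_zero, Fin.cons_succ]
    simp only [hsplit, hTT]
    rw [Finset.sum_comm]
    apply Finset.sum_congr rfl
    intro x' _
    symm
    rw [Finset.sum_comm]
    apply Finset.sum_congr rfl
    intro a _
    exact Finset.sum_comm
  have hM : (0:ℝ) < (2:ℝ)^(K+1) := by positivity
  have hle : ∑ x : Pt (e+1) K, ∑ y : Pt (e+1) K, pcg K (TT x y) ≤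
      ((2:ℝ)^(K+1) * ((2:ℝ)^(K+1) * (7 * (1/2)^K))) * (((K:ℝ)+2) * 2^(K+1) * 2^(K+1))^e := by
    rw [hnum]
    calc ∑ x' : Fin e → Fin (2^(K+1)), ∑ y' : Fin e → Fin (2^(K+1)), ∑ a : Fin (2^(K+1)),
          ∑ b : Fin (2^(K+1)), pcg K (T1 K a b + ∑ j, T1 K (x' j) (y' j))
        ≤ ∑ x' : Fin e → Fin (2^(K+1)), ∑ y' : Fin e → Fin (2^(K+1)),
          ((2:ℝ)^(K+1) * ((2:ℝ)^(K+1) * (7 * (1/2)^K))) * (2:ℝ)^(∑ j, T1 K (x' j) (y' j)) := by
          apply Finset.sum_le_sum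
          intro x' _
          apply Finset.sum_le_sum
          intro y' _
          calc ∑ a : Fin (2^(K+1)), ∑ b : Fin (2^(K+1)),
                pcg K (T1 K a b + ∑ j, T1 K (x' j) (y' j))
              ≤ ∑ a : Fin (2^(K+1)), (2:ℝ)^(K+1) * (7 * (1/2)^K) *
                2^(∑ j, T1 K (x' j) (y' j)) :=
                Finset.sum_le_sum fun a _ => pc_one K _ a
            _ = _ := by
                rw [Finset.sum_const, Finset.card_univ, Fintype.card_fin, nsmul_eq_mul]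
                push_cast
                ring
      _ = ((2:ℝ)^(K+1) * ((2:ℝ)^(K+1) * (7 * (1/2)^K))) *
          ∑ x' : Fin e → Fin (2^(K+1)), ∑ y' : Fin e → Fin (2^(K+1)),
            (2:ℝ)^(∑ j, T1 K (x' j) (y' j)) := by
          simp only [Finset.mul_sum]
      _ ≤ _ := mul_le_mul_of_nonneg_left (pc_prod K e) (by positivity)
  have hcX : cX (e+1) K = ((2:ℝ)^(K+1))^(e+1) := by
    rw [card_X, pow_mul]
  rw [hcX, div_le_iff₀ (by positivity)]
  refine hle.trans (le_of_eq ?_)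
  rw [Nat.add_sub_cancel]
  generalize (2:ℝ)^(K+1) = M
  have hme : (((K:ℝ)+2) * M * M)^e = ((K:ℝ)+2)^e * (M^e * M^e) := by
    rw [mul_pow, mul_pow]
    ring
  rw [hme]
  generalize ((K:ℝ)+2)^e = Q
  ring


end Sol_pair_count

alias pair_count := Sol_pair_count.pair_count

end Tus
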