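import Pool.Agent.Tus.Defs
import Pool.Agent.Tus.L_kern2
import Pool.Agent.Tus.L_pair_count
import Pool.Agent.Tus.L_hi_pair
import Pool.Agent.Tus.L_sh_bounds
import Pool.Agent.Tus.L_card_X
open MeasureTheory Real ProbabilityTheory
open scoped ENNReal BigOperators

namespace Tus
namespace Sol_noise2








lemma aux_exp (T K j0 : ℕ) (h : j0 ≤ K) :
    (2:ℝ)^(((T : ℝ) - K)/4) * (2:ℝ)^((T : ℝ)/2 - (3/2) * ((K - j0 : ℕ) : ℝ)) =
      (2:ℝ)^((3/2 : ℝ) * j0) * (1/2:ℝ)^K * (2:ℝ)^((3/4:ℝ)*((T : ℝ) - K)) := by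
  have h2 : (0:ℝ) < 2 := by norm_num
  have e : (1/2:ℝ)^K = (2:ℝ)^(-(K:ℝ)) := by
    rw [Real.rpow_neg h2.le, Real.rpow_natCast, one_div, inv_pow]
  rw [e, ← Real.rpow_add h2, ← Real.rpow_add h2, ← Real.rpow_add h2, Nat.cast_sub h]
  congr 1
  ring

lemma aux_fin (d K : ℕ) (hd : 2 ≤ d) (hK : 1 ≤ K) (S D : ℝ) (hD : 0 < D)
    (hS : ((K:ℝ)+1)^(d-1) / D ≤ S) :
    ((K:ℝ)/S)^2 * ((K:ℝ)+2)^(d-1) ≤ 2^(d-1) * D^2 * K := by
  have hK1 : (1:ℝ) ≤ K := by exact_mod_cast hK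
  set P : ℝ := ((K:ℝ)+1)^(d-1) with hP
  have hPpos : 0 < P := by positivity
  have hSpos : 0 < S := lt_of_lt_of_le (by positivity) hS
  have hPK : (K:ℝ) ≤ P := by
    have h1 : ((K:ℝ)+1)^1 ≤ ((K:ℝ)+1)^(d-1) := pow_le_pow_right₀ (by linarith) (by omega)
    rw [pow_one] at h1
    linarith
  have h2 : ((K:ℝ)+2)^(d-1) ≤ 2^(d-1) * P := by
    rw [hP, ← mul_pow]
    apply pow_le_pow_left₀ (by linarith)
    linarith
  have h3 : (K:ℝ)/S ≤ K * D / P := by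
    rw [div_le_div_iff₀ hSpos hPpos]
    have h4 : P ≤ S * D := by
      rw [div_le_iff₀ hD] at hS
      exact hS
    nlinarith
  have h5 : ((K:ℝ)/S)^2 ≤ (K * D / P)^2 := pow_le_pow_left₀ (by positivity) h3 2
  calc ((K:ℝ)/S)^2 * ((K:ℝ)+2)^(d-1) ≤ (K * D / P)^2 * (2^(d-1) * P) :=
        mul_le_mul h5 h2 (by positivity) (by positivity)
    _ = 2^(d-1) * D^2 * (K * (K / P)) := by field_simp
    _ ≤ 2^(d-1) * D^2 * (K * 1) := by
        have h6 : (K:ℝ) / P ≤ 1 := by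
          rw [div_le_one hPpos]
          exact hPK
        gcongr
    _ = 2^(d-1) * D^2 * K := by rw [mul_one]

theorem noise2 (d : ℕ) (hd : 2 ≤ d) : ∃ a0 : ℝ, 0 < a0 ∧ ∀ j0 : ℕ, ∃ C : ℝ, 0 < C ∧
    ∀ a : ℝ, 0 < a → a ≤ a0 → ∀ K : ℕ, 1 ≤ K → j0 ≤ K →
    (∑ p : Pt d K, (∑ x : Pt d K, ∑ y : Pt d K, |Hi (K - j0) p x| * |Hi (K - j0) p y|
      * |Real.exp (a * K / sh d K * Dk x y) - 1 - a * K / sh d K * Dk x y|) / cX d K ^ 2) / cX d K
      ≤ C * a^2 * K * (1/4)^K := by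
  obtain ⟨a0, Ck, ha0, hCk, hker⟩ := kern2 d hd
  refine ⟨a0, ha0, ?_⟩
  intro j0
  set D : ℝ := (d:ℝ)^(d-1) * 2^d with hD
  have hdR : (0:ℝ) < d := by
    have : 0 < d := by omega
    exact_mod_cast this
  have hDpos : 0 < D := by positivity
  refine ⟨7 * Ck * 200^d * (2:ℝ)^((3/2 : ℝ) * j0) * 2^(d-1) * D^2, by positivity, ?_⟩
  intro a ha haa K hK hj
  have hN : 0 < cX d K := by
    rw [card_X]
    positivity
  set N := cX d K with hNdef
  set S : ℝ := (sh d K : ℝ) with hSdef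
  have hsb := sh_bounds d K (by omega)
  have hSlow : ((K:ℝ)+1)^(d-1) / D ≤ S := by
    rw [hD, ← div_div, div_le_iff₀ (by positivity)]
    have h1 := hsb.1
    linarith
  have hSpos : 0 < S := by
    have : 1 ≤ sh d K := hsb.2.2
    have h1 : (1:ℝ) ≤ S := by
      rw [hSdef]
      exact_mod_cast this
    linarith
  let E : Pt d K → Pt d K → ℝ := fun x y =>
    |Real.exp (a * K / S * Dk x y) - 1 - a * K / S * Dk x y|
  let G : Pt d K → Pt d K → ℝ := fun x y =>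
    if TT x y < K then 0 else (2:ℝ)^((3/4:ℝ)*((TT x y : ℝ) - K))
  let A : ℝ := Ck * a^2 * ((K:ℝ)/S)^2 * (200^d * ((2:ℝ)^((3/2 : ℝ) * j0) * (1/2:ℝ)^K))
  have hA : 0 ≤ A := by positivity
  have hpt : ∀ x y, E x y * ((∑ p, |Hi (K - j0) p x| * |Hi (K - j0) p y|) / N) ≤ A * G x y := by
    intro x y
    have h1 := hi_pair (d := d) (K := K) (K - j0) x y
    have h2 := hker a ha haa K hK x y
    have h3 : 0 ≤ (∑ p, |Hi (K - j0) p x| * |Hi (K - j0) p y|) / N :=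
      div_nonneg (Finset.sum_nonneg fun p _ => mul_nonneg (abs_nonneg _) (abs_nonneg _)) hN.le
    by_cases hT : TT x y < K
    · rw [if_pos hT] at h2
      have h4 : E x y = 0 := le_antisymm h2 (abs_nonneg _)
      rw [h4, zero_mul]
      simp only [G, if_pos hT, mul_zero, le_refl]
    · rw [if_neg hT] at h2
      have h5 : G x y = (2:ℝ)^((3/4:ℝ)*((TT x y : ℝ) - K)) := if_neg hT
      rw [h5]
      calc E x y * ((∑ p, |Hi (K - j0) p x| * |Hi (K - j0) p y|) / N)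
          ≤ (Ck * a^2 * ((K:ℝ) / S)^2 * (2:ℝ)^(((TT x y : ℝ) - K)/4)) *
            (200^d * (2:ℝ)^((TT x y : ℝ)/2 - (3/2) * ((K - j0 : ℕ) : ℝ))) :=
            mul_le_mul h2 h1 h3 (by positivity)
        _ = Ck * a^2 * ((K:ℝ) / S)^2 * 200^d * ((2:ℝ)^(((TT x y : ℝ) - K)/4) *
            (2:ℝ)^((TT x y : ℝ)/2 - (3/2) * ((K - j0 : ℕ) : ℝ))) := by ring
        _ = A * (2:ℝ)^((3/4:ℝ)*((TT x y : ℝ) - K)) := by
            rw [aux_exp (TT x y) K j0 hj]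
            simp only [A]
            ring
  have hswap : (∑ p : Pt d K, (∑ x : Pt d K, ∑ y : Pt d K, |Hi (K - j0) p x| * |Hi (K - j0) p y|
      * E x y) / N ^ 2) / N = (∑ x : Pt d K, ∑ y : Pt d K,
        E x y * ((∑ p, |Hi (K - j0) p x| * |Hi (K - j0) p y|) / N)) / N ^ 2 := by
    rw [← Finset.sum_div, div_div, mul_comm (N^2) N, ← div_div]
    congr 1
    rw [Finset.sum_comm, Finset.sum_div]
    refine Finset.sum_congr rfl fun x _ => ?_
    rw [Finset.sum_comm, Finset.sum_div]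
    refine Finset.sum_congr rfl fun y _ => ?_
    rw [← Finset.sum_mul]
    ring
  change (∑ p : Pt d K, (∑ x : Pt d K, ∑ y : Pt d K, |Hi (K - j0) p x| * |Hi (K - j0) p y|
      * E x y) / N ^ 2) / N ≤ _
  rw [hswap]
  have hpc := pair_count d K (by omega)
  have hfin := aux_fin d K hd hK S D hDpos hSlow
  calc (∑ x : Pt d K, ∑ y : Pt d K,
        E x y * ((∑ p, |Hi (K - j0) p x| * |Hi (K - j0) p y|) / N)) / N ^ 2
      ≤ (∑ x : Pt d K, ∑ y : Pt d K, A * G x y) / N ^ 2 := by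
        apply div_le_div_of_nonneg_right _ (by positivity)
        exact Finset.sum_le_sum fun x _ => Finset.sum_le_sum fun y _ => hpt x y
    _ = A * ((∑ x : Pt d K, ∑ y : Pt d K, G x y) / N ^ 2) := by
        simp only [← Finset.mul_sum]
        rw [mul_div_assoc]
    _ ≤ A * (7 * ((K:ℝ)+2)^(d-1) * (1/2)^K) := mul_le_mul_of_nonneg_left hpc hA
    _ = (7 * Ck * 200^d * (2:ℝ)^((3/2 : ℝ) * j0)) * a^2 * ((1/2:ℝ)^K * (1/2:ℝ)^K) *
          (((K:ℝ)/S)^2 * ((K:ℝ)+2)^(d-1)) := by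
        simp only [A]
        ring
    _ ≤ (7 * Ck * 200^d * (2:ℝ)^((3/2 : ℝ) * j0)) * a^2 * ((1/2:ℝ)^K * (1/2:ℝ)^K) *
          (2^(d-1) * D^2 * K) := mul_le_mul_of_nonneg_left hfin (by positivity)
    _ = 7 * Ck * 200^d * (2:ℝ)^((3/2 : ℝ) * j0) * 2^(d-1) * D^2 * a^2 * K * (1/4)^K := by
        rw [← mul_pow]
        norm_num
        ring


end Sol_noise2

alias noise2 := Sol_noise2.noise2

end Tus
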