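import Pool.Agent.Tus.Defs
import Pool.Agent.Tus.L_gam_prob
open MeasureTheory Real ProbabilityTheory
open scoped ENNReal BigOperators

namespace Tus
namespace Sol_gauss_cov




theorem w_g1_int (t : ℝ) : Integrable (fun x : ℝ => Real.exp (x * t)) (gaussianReal 0 1) := by
  simpa [mul_comm] using integrable_exp_mul_gaussianReal (μ := 0) (v := 1) t

theorem w_g1_val (t : ℝ) : ∫ x : ℝ, Real.exp (x * t) ∂(gaussianReal 0 1) = Real.exp (t^2/2) := by
  have h := congrFun (mgf_fun_id_gaussianReal (μ := 0) (v := 1)) t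
  simp only [mgf] at h
  simp only [mul_comm t] at h
  rw [h]
  simp

theorem w_g2_int (t : ℝ) : Integrable (fun x : ℝ => x * Real.exp (x * t)) (gaussianReal 0 1) := by
  have h := integrable_pow_mul_exp_of_mem_interior_integrableExpSet (X := fun x : ℝ => x)
    (μ := gaussianReal 0 1) (v := t) (by simp) 1
  simpa [mul_comm t] using h

theorem w_g2_val (t : ℝ) :
    ∫ x : ℝ, x * Real.exp (x * t) ∂(gaussianReal 0 1) = t * Real.exp (t^2/2) := by
  have h := hasDerivAt_mgf (X := fun x : ℝ => x) (μ := gaussianReal 0 1) (t := t) (by simp)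
  rw [mgf_fun_id_gaussianReal] at h
  have h2 : HasDerivAt (fun t : ℝ => Real.exp (((0:ℝ)) * t + ((1:NNReal):ℝ) * t^2/2)) (t * Real.exp (t^2/2)) t := by
    have h3 : HasDerivAt (fun t : ℝ => t^2/2) t t := by
      have h30 := (hasDerivAt_pow 2 t).div_const 2
      have e : ((2:ℕ):ℝ) * t^(2-1) / 2 = t := by
        push_cast
        simp
      rw [e] at h30
      exact h30
    have h4 := h3.exp
    convert h4 using 1
    · funext t; simp
    · ring
  have := h.unique h2
  rw [← this]
  simp only [mul_comm t]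

theorem w_g3_int : Integrable (fun x : ℝ => x * x) (gaussianReal 0 1) := by
  have h := integrable_pow_of_mem_interior_integrableExpSet (X := fun x : ℝ => x)
    (μ := gaussianReal 0 1) (by simp) 2
  simpa [sq] using h

theorem w_g3_val : ∫ x : ℝ, x * x ∂(gaussianReal 0 1) = 1 := by
  have h := variance_fun_id_gaussianReal (μ := 0) (v := 1)
  rw [variance_eq_integral measurable_id'.aemeasurable] at h
  simp only [integral_id_gaussianReal, sub_zero, sq] at h
  simpa using h

theorem w_g0_val : ∫ x : ℝ, (1:ℝ) ∂(gaussianReal 0 1) = 1 := by simp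

def HI {ι : Type} [Fintype ι] (F : (ι → ℝ) → ℝ) (v : ℝ) : Prop :=
  Integrable F (gam ι) ∧ ∫ α, F α ∂(gam ι) = v

theorem HI.add' {ι : Type} [Fintype ι] {F G : (ι → ℝ) → ℝ} {v w : ℝ} (h1 : HI F v) (h2 : HI G w) :
    HI (fun α => F α + G α) (v + w) := by
  refine ⟨h1.1.add h2.1, ?_⟩
  rw [integral_add h1.1 h2.1, h1.2, h2.2]

theorem HI.sub' {ι : Type} [Fintype ι] {F G : (ι → ℝ) → ℝ} {v w : ℝ} (h1 : HI F v) (h2 : HI G w) :
    HI (fun α => F α - G α) (v - w) := by
  refine ⟨h1.1.sub h2.1, ?_⟩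
  rw [integral_sub h1.1 h2.1, h1.2, h2.2]

theorem HI.cmul {ι : Type} [Fintype ι] {F : (ι → ℝ) → ℝ} {v : ℝ} (c : ℝ) (h1 : HI F v) :
    HI (fun α => c * F α) (c * v) := by
  refine ⟨h1.1.const_mul c, ?_⟩
  rw [integral_const_mul, h1.2]

theorem HI.sum' {ι : Type} [Fintype ι] {κ : Type} (s : Finset κ) {F : κ → (ι → ℝ) → ℝ} {v : κ → ℝ}
    (h : ∀ k ∈ s, HI (F k) (v k)) : HI (fun α => ∑ k ∈ s, F k α) (∑ k ∈ s, v k) := by
  refine ⟨integrable_finset_sum _ (fun k hk => (h k hk).1), ?_⟩
  rw [integral_finset_sum _ (fun k hk => (h k hk).1)]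
  exact Finset.sum_congr rfl fun k hk => (h k hk).2

theorem HI.const' {ι : Type} [Fintype ι] (c : ℝ) : HI (fun _ : ι → ℝ => c) c := by
  haveI := gam_prob ι
  refine ⟨integrable_const c, ?_⟩
  simp

theorem HI.congr' {ι : Type} [Fintype ι] {F G : (ι → ℝ) → ℝ} {v w : ℝ} (h1 : HI F v)
    (h : ∀ α, G α = F α) (hvw : w = v) : HI G w := by
  have : G = F := funext h
  rw [this, hvw]; exact h1

theorem HI.prod' {ι : Type} [Fintype ι] (h : ι → ℝ → ℝ) (v : ι → ℝ)
    (hi : ∀ i, Integrable (h i) (gaussianReal 0 1)) (hv : ∀ i, ∫ x, h i x ∂(gaussianReal 0 1) = v i) :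
    HI (fun α : ι → ℝ => ∏ i, h i (α i)) (∏ i, v i) := by
  unfold HI gam
  refine ⟨Integrable.fintype_prod hi, ?_⟩
  rw [integral_fintype_prod_eq_prod (f := h)]
  exact Finset.prod_congr rfl fun i _ => hv i

theorem w_L1 {ι : Type} [Fintype ι] (c : ι → ℝ) :
    HI (fun α : ι → ℝ => Real.exp (∑ i, α i * c i)) (Real.exp ((∑ i, c i^2)/2)) := by
  refine (HI.prod' (fun i x => Real.exp (x * c i)) (fun i => Real.exp (c i ^2/2))
    (fun i => w_g1_int _) (fun i => w_g1_val _)).congr' (fun α => ?_) ?_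
  · rw [Real.exp_sum]
  · rw [Finset.sum_div, Real.exp_sum]

theorem w_L2 {ι : Type} [Fintype ι] (c : ι → ℝ) (i : ι) :
    HI (fun α : ι → ℝ => α i * Real.exp (∑ j, α j * c j)) (c i * Real.exp ((∑ j, c j^2)/2)) := by
  classical
  refine (HI.prod' (fun j x => (if j = i then x else 1) * Real.exp (x * c j))
    (fun j => (if j = i then c j else 1) * Real.exp (c j ^2/2))
    (fun j => ?_) (fun j => ?_)).congr' (fun α => ?_) ?_
  · by_cases hj : j = i
    · simp only [if_pos hj]; exact w_g2_int _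
    · simp only [if_neg hj, one_mul]; exact w_g1_int _
  · by_cases hj : j = i
    · simp only [if_pos hj]; exact w_g2_val _
    · simp only [if_neg hj, one_mul]; exact w_g1_val _
  · rw [Finset.prod_mul_distrib, Real.exp_sum]
    simp
  · rw [Finset.prod_mul_distrib, Finset.sum_div, Real.exp_sum]
    simp

theorem w_L3 {ι : Type} [Fintype ι] [DecidableEq ι] (i j : ι) :
    HI (fun α : ι → ℝ => α i * α j) (if i = j then 1 else 0) := by
  refine (HI.prod' (fun k x => (if k = i then x else 1) * (if k = j then x else 1))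
    (fun k => if (k = i ↔ k = j) then 1 else 0)
    (fun k => ?_) (fun k => ?_)).congr' (fun α => ?_) ?_
  · by_cases h1 : k = i <;> by_cases h2 : k = j
    · simp only [if_pos h1, if_pos h2]; exact w_g3_int
    · simp only [if_pos h1, if_neg h2, mul_one]
      simpa using w_g2_int 0
    · simp only [if_neg h1, if_pos h2, one_mul]
      simpa using w_g2_int 0
    · simp only [if_neg h1, if_neg h2, one_mul]
      exact integrable_const _
  · by_cases h1 : k = i <;> by_cases h2 : k = j
    · rw [if_pos (by tauto)]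
      simp only [if_pos h1, if_pos h2]
      exact w_g3_val
    · rw [if_neg (by tauto)]
      simp only [if_pos h1, if_neg h2, mul_one]
      simp
    · rw [if_neg (by tauto)]
      simp only [if_neg h1, if_pos h2, one_mul]
      simp
    · rw [if_pos (by tauto)]
      simp only [if_neg h1, if_neg h2, one_mul]
      simp
  · rw [Finset.prod_mul_distrib]
    simp
  · by_cases hij : i = j
    · subst hij; simp
    · rw [if_neg hij]
      symm
      apply Finset.prod_eq_zero (Finset.mem_univ i)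
      rw [if_neg]
      intro h
      exact hij (h.1 rfl)

theorem w_L2' {ι : Type} [Fintype ι] (c e : ι → ℝ) :
    HI (fun α : ι → ℝ => (∑ i, α i * c i) * Real.exp (∑ j, α j * e j))
      ((∑ i, c i * e i) * Real.exp ((∑ j, e j^2)/2)) := by
  refine (HI.sum' Finset.univ (F := fun i (α : ι → ℝ) => c i * (α i * Real.exp (∑ j, α j * e j)))
    (v := fun i => c i * (e i * Real.exp ((∑ j, e j^2)/2)))
    (fun i _ => (w_L2 e i).cmul (c i))).congr' (fun α => ?_) ?_
  · rw [Finset.sum_mul]
    exact Finset.sum_congr rfl fun i _ => by ring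
  · rw [Finset.sum_mul]
    exact Finset.sum_congr rfl fun i _ => by ring

theorem w_L4 {ι : Type} [Fintype ι] (c : ι → ℝ) :
    HI (fun α : ι → ℝ => (∑ i, α i * c i)) 0 := by
  refine (w_L2' c (fun _ => 0)).congr' (fun α => ?_) ?_
  · simp
  · simp

theorem w_L3' {ι : Type} [Fintype ι] (c e : ι → ℝ) :
    HI (fun α : ι → ℝ => (∑ i, α i * c i) * (∑ j, α j * e j)) (∑ i, c i * e i) := by
  classical
  refine (HI.sum' Finset.univ
    (F := fun i (α : ι → ℝ) => ∑ j, (c i * e j) * (α i * α j))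
    (v := fun i => ∑ j, (c i * e j) * (if i = j then 1 else 0))
    (fun i _ => HI.sum' Finset.univ (F := fun j (α : ι → ℝ) => (c i * e j) * (α i * α j))
      (v := fun j => (c i * e j) * (if i = j then 1 else 0))
      (fun j _ => (w_L3 i j).cmul _))).congr' (fun α => ?_) ?_
  · rw [Finset.sum_mul_sum]
    exact Finset.sum_congr rfl fun i _ => Finset.sum_congr rfl fun j _ => by ring
  · exact Finset.sum_congr rfl fun i _ => by simp

theorem gauss_cov {ι : Type} [Fintype ι] (f g : ι → ℝ) (S s : ℝ) (hf : ∑ i, f i^2 = S) (hg : ∑ i, g i^2 = S) :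
    Integrable (fun α : ι → ℝ => (Real.exp (s * ∑ i, α i * f i - s^2*S/2) - 1 - s * ∑ i, α i * f i)
      * (Real.exp (s * ∑ i, α i * g i - s^2*S/2) - 1 - s * ∑ i, α i * g i)) (gam ι) ∧
    ∫ α : ι → ℝ, (Real.exp (s * ∑ i, α i * f i - s^2*S/2) - 1 - s * ∑ i, α i * f i)
      * (Real.exp (s * ∑ i, α i * g i - s^2*S/2) - 1 - s * ∑ i, α i * g i) ∂(gam ι)
      = Real.exp (s^2 * ∑ i, f i * g i) - 1 - s^2 * ∑ i, f i * g i := by
  have hs : ∀ (h : ι → ℝ) (α : ι → ℝ), ∑ i, α i * (s * h i) = s * ∑ i, α i * h i := by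
    intro h α
    rw [Finset.mul_sum]
    exact Finset.sum_congr rfl fun i _ => by ring
  have hsq : ∀ (h : ι → ℝ), ∑ i, h i^2 = S → ∑ i, (s * h i)^2 = s^2 * S := by
    intro h hh
    rw [← hh, Finset.mul_sum]
    exact Finset.sum_congr rfl fun i _ => by ring
  set k := ∑ i, f i * g i with hk
  have t1 : HI (fun α : ι → ℝ => Real.exp (-(s^2*S)) * Real.exp (s * ∑ i, α i * f i + s * ∑ i, α i * g i))
      (Real.exp (s^2 * k)) := by
    refine ((w_L1 (fun i => s * f i + s * g i)).cmul (Real.exp (-(s^2*S)))).congr' (fun α => ?_) ?_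
    · rw [← hs, ← hs, ← Finset.sum_add_distrib]
      congr 2
      exact Finset.sum_congr rfl fun i _ => by ring
    · rw [← Real.exp_add]
      congr 1
      have : ∑ i, (s * f i + s * g i)^2 = s^2 * S + s^2 * S + 2 * s^2 * k := by
        rw [← hsq f hf]
        nth_rewrite 2 [hsq f hf]
        rw [← hsq g hg, hk, Finset.mul_sum, ← Finset.sum_add_distrib, ← Finset.sum_add_distrib]
        exact Finset.sum_congr rfl fun i _ => by ring
      rw [this]; ring
  have q1 : ∀ h : ι → ℝ, ∑ i, h i^2 = S →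
      HI (fun α : ι → ℝ => Real.exp (-(s^2*S/2)) * Real.exp (s * ∑ i, α i * h i)) 1 := by
    intro h hh
    refine ((w_L1 (fun i => s * h i)).cmul (Real.exp (-(s^2*S/2)))).congr' (fun α => ?_) ?_
    · rw [hs]
    · rw [← Real.exp_add, hsq h hh]
      simp
  have q2 : ∀ h h' : ι → ℝ, ∑ i, h i^2 = S →
      HI (fun α : ι → ℝ => (s * Real.exp (-(s^2*S/2))) *
        ((∑ i, α i * h' i) * Real.exp (s * ∑ i, α i * h i))) (s^2 * ∑ i, h' i * h i) := by
    intro h h' hh
    refine ((w_L2' h' (fun i => s * h i)).cmul (s * Real.exp (-(s^2*S/2)))).congr' (fun α => ?_) ?_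
    · rw [hs]
    · rw [hsq h hh, hs h h']
      have e1 : Real.exp (-(s^2*S/2)) * Real.exp (s^2*S/2) = 1 := by
        rw [← Real.exp_add]; simp
      calc s^2 * ∑ i, h' i * h i = s^2 * (∑ i, h' i * h i) * 1 := by ring
        _ = _ := by rw [← e1]; ring
  have hgf : ∑ i, g i * f i = k := by
    rw [hk]; exact Finset.sum_congr rfl fun i _ => by ring
  have t2 := q1 f hf
  have t3 := q1 g hg
  have t4 := q2 f g hf
  have t5 := q2 g f hg
  rw [hgf] at t4
  have t6 := (w_L4 f).cmul s
  have t7 := (w_L4 g).cmul s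
  have t8 := (w_L3' f g).cmul (s^2)
  have t9 := HI.const' (ι := ι) 1
  have tot := (((((((t1.sub' t2).sub' t4).sub' t3).add' t9).add' t7).sub' t5).add' t6).add' t8
  have fin : HI (fun α : ι → ℝ => (Real.exp (s * ∑ i, α i * f i - s^2*S/2) - 1 - s * ∑ i, α i * f i)
      * (Real.exp (s * ∑ i, α i * g i - s^2*S/2) - 1 - s * ∑ i, α i * g i))
      (Real.exp (s^2 * k) - 1 - s^2 * k) := by
    refine tot.congr' (fun α => ?_) ?_
    · have e0 : Real.exp (-(s^2*S)) = Real.exp (-(s^2*S/2)) * Real.exp (-(s^2*S/2)) := by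
        rw [← Real.exp_add]; congr 1; ring
      have e1 : ∀ y : ℝ, Real.exp (s * y - s^2*S/2) = Real.exp (-(s^2*S/2)) * Real.exp (s*y) := by
        intro y
        rw [← Real.exp_add]; congr 1; ring
      rw [e1, e1, e0, Real.exp_add]
      ring
    · rw [← hk]; ring
  exact fin


end Sol_gauss_cov

alias gauss_cov := Sol_gauss_cov.gauss_cov

end Tus
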