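import Pool.Agent.Tus.Defs
import Pool.Agent.Tus.L_gauss_cov
import Pool.Agent.Tus.L_h_sq
open MeasureTheory Real ProbabilityTheory
open scoped ENNReal BigOperators

namespace Tus
namespace Sol_nz_int





theorem nz_int {d K : ℕ} (s : ℝ) (K0 : ℕ) (p : Pt d K) :
    Integrable (fun α : Bx d K → ℝ => nz s K0 α p ^ 2) (gam (Bx d K)) ∧
    ∫ α, nz s K0 α p ^ 2 ∂(gam (Bx d K)) = (∑ x : Pt d K, ∑ y : Pt d K, Hi K0 p x * Hi K0 p y
      * (Real.exp (s^2 * Dk x y) - 1 - s^2 * Dk x y)) / cX d K ^ 2 := by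
  have hG : ∀ x y : Pt d K,
      Integrable (fun α : Bx d K → ℝ => (QQ s α x - 1 - uu s α x) * (QQ s α y - 1 - uu s α y))
        (gam (Bx d K)) ∧
      ∫ α : Bx d K → ℝ, (QQ s α x - 1 - uu s α x) * (QQ s α y - 1 - uu s α y) ∂(gam (Bx d K))
        = Real.exp (s^2 * Dk x y) - 1 - s^2 * Dk x y := fun x y =>
    gauss_cov (fun R : Bx d K => hR R x) (fun R : Bx d K => hR R y) (sh d K) s (h_sq x) (h_sq y)
  have hE : (fun α : Bx d K → ℝ => nz s K0 α p ^ 2) = fun α : Bx d K → ℝ =>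
      (∑ x : Pt d K, ∑ y : Pt d K, Hi K0 p x * Hi K0 p y *
        ((QQ s α x - 1 - uu s α x) * (QQ s α y - 1 - uu s α y))) / cX d K ^ 2 := by
    funext α
    unfold nz
    rw [div_pow, sq, Finset.sum_mul_sum]
    congr 1
    refine Finset.sum_congr rfl fun x _ => Finset.sum_congr rfl fun y _ => ?_
    ring
  have hI : ∀ x y : Pt d K, Integrable (fun α : Bx d K → ℝ => Hi K0 p x * Hi K0 p y *
        ((QQ s α x - 1 - uu s α x) * (QQ s α y - 1 - uu s α y))) (gam (Bx d K)) :=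
    fun x y => (hG x y).1.const_mul _
  have hI2 : ∀ x : Pt d K, Integrable (fun α : Bx d K → ℝ => ∑ y : Pt d K, Hi K0 p x * Hi K0 p y *
        ((QQ s α x - 1 - uu s α x) * (QQ s α y - 1 - uu s α y))) (gam (Bx d K)) :=
    fun x => integrable_finset_sum _ fun y _ => hI x y
  rw [hE]
  refine ⟨(integrable_finset_sum _ fun x _ => hI2 x).div_const _, ?_⟩
  rw [integral_div, integral_finset_sum _ fun x _ => hI2 x]
  congr 1
  refine Finset.sum_congr rfl fun x _ => ?_
  rw [integral_finset_sum _ fun y _ => hI x y]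
  refine Finset.sum_congr rfl fun y _ => ?_
  rw [integral_const_mul, (hG x y).2]


end Sol_nz_int

alias nz_int := Sol_nz_int.nz_int

end Tus
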