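import Pool.Agent.Tus.Defs
open MeasureTheory Real ProbabilityTheory
open scoped ENNReal BigOperators

namespace Tus
namespace Sol_select



theorem sel_swap {V : Type} [DecidableEq V] (good : Finset V) (n : ℕ) (i : Fin n)
    (Φ : (Fin n → V) → V → ℝ) :
    ∑ P ∈ Fintype.piFinset (fun _ : Fin n => good), ∑ v ∈ good, Φ P v =
      ∑ P ∈ Fintype.piFinset (fun _ : Fin n => good), ∑ v ∈ good,
        Φ (Function.update P i v) (P i) := by
  rw [← Finset.sum_product', ← Finset.sum_product']
  refine Finset.sum_nbij' (fun x => (Function.update x.1 i x.2, x.1 i))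
    (fun x => (Function.update x.1 i x.2, x.1 i)) ?_ ?_ ?_ ?_ ?_
  · intro x hx
    rw [Finset.mem_product, Fintype.mem_piFinset] at hx ⊢
    refine ⟨fun j => ?_, hx.1 i⟩
    by_cases hj : j = i
    · subst hj
      simpa using hx.2
    · simpa [Function.update_of_ne hj] using hx.1 j
  · intro x hx
    rw [Finset.mem_product, Fintype.mem_piFinset] at hx ⊢
    refine ⟨fun j => ?_, hx.1 i⟩
    by_cases hj : j = i
    · subst hj
      simpa using hx.2
    · simpa [Function.update_of_ne hj] using hx.1 j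
  · intro x _
    simp
  · intro x _
    simp
  · intro x _
    simp

theorem sel_F {V : Type} [DecidableEq V] (good : Finset V) (n : ℕ) (i : Fin n) (F : V → ℝ) :
    (good.card : ℝ) * ∑ P ∈ Fintype.piFinset (fun _ : Fin n => good), F (P i) =
      ((Fintype.piFinset (fun _ : Fin n => good)).card : ℝ) * ∑ v ∈ good, F v := by
  have h := sel_swap good n i (fun P _ => F (P i))
  simp only [Function.update_self, Finset.sum_const, nsmul_eq_mul] at h
  rw [← h, Finset.mul_sum]

theorem sel_G {V : Type} [DecidableEq V] (good : Finset V) (n : ℕ) (i j : Fin n) (hij : i ≠ j)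
    (G : V → V → ℝ) :
    (good.card : ℝ) ^ 2 * ∑ P ∈ Fintype.piFinset (fun _ : Fin n => good), G (P i) (P j) =
      ((Fintype.piFinset (fun _ : Fin n => good)).card : ℝ) * ∑ v ∈ good, ∑ w ∈ good, G v w := by
  have h := sel_swap good n i (fun P _ => G (P i) (P j))
  simp only [Function.update_self, Function.update_of_ne hij.symm, Finset.sum_const,
    nsmul_eq_mul] at h
  rw [← Finset.mul_sum, Finset.sum_comm] at h
  rw [sq, mul_assoc, h, Finset.mul_sum, Finset.mul_sum]
  refine Finset.sum_congr rfl fun v _ => ?_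
  exact sel_F good n j (G v)

theorem select {V : Type} [Fintype V] [DecidableEq V] (good : Finset V) (hg : good.Nonempty) (n : ℕ)
    (F : V → ℝ) (G : V → V → ℝ) (hF : ∀ v, 0 ≤ F v) (hG : ∀ v w, 0 ≤ G v w) :
    ∃ P : Fin n → V, (∀ i, P i ∈ good) ∧
      ∑ i, F (P i) ≤ 2 * n * ((∑ v ∈ good, F v) / good.card) ∧
      ∑ i, ∑ j, (if i = j then 0 else G (P i) (P j)) ≤
        2 * (n:ℝ)^2 * ((∑ v ∈ good, ∑ w ∈ good, G v w) / (good.card : ℝ)^2) := by
  classical
  set Ω := Fintype.piFinset (fun _ : Fin n => good) with hΩ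
  have hm : (0:ℝ) < good.card := by exact_mod_cast Finset.card_pos.mpr hg
  have hΩne : Ω.Nonempty := by
    obtain ⟨v, hv⟩ := hg
    exact ⟨fun _ => v, by rw [hΩ, Fintype.mem_piFinset]; exact fun _ => hv⟩
  have hΩc : (0:ℝ) < Ω.card := by exact_mod_cast Finset.card_pos.mpr hΩne
  set A : ℝ := n * ((∑ v ∈ good, F v) / good.card) with hA
  set B : ℝ := (n:ℝ)^2 * ((∑ v ∈ good, ∑ w ∈ good, G v w) / (good.card : ℝ)^2) with hB
  have hA0 : 0 ≤ A := by
    have : 0 ≤ ∑ v ∈ good, F v := Finset.sum_nonneg fun v _ => hF v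
    positivity
  have hGs : 0 ≤ ∑ v ∈ good, ∑ w ∈ good, G v w :=
    Finset.sum_nonneg fun v _ => Finset.sum_nonneg fun w _ => hG v w
  have hB0 : 0 ≤ B := by positivity
  set f : (Fin n → V) → ℝ := fun P => ∑ i, F (P i) with hf
  set g : (Fin n → V) → ℝ := fun P => ∑ i, ∑ j, (if i = j then 0 else G (P i) (P j)) with hgdef
  have hf0 : ∀ P, 0 ≤ f P := fun P => Finset.sum_nonneg fun i _ => hF _
  have hg0 : ∀ P, 0 ≤ g P := fun P => Finset.sum_nonneg fun i _ => Finset.sum_nonneg fun j _ => by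
    split_ifs
    · exact le_rfl
    · exact hG _ _
  have hsf : ∑ P ∈ Ω, f P = Ω.card * A := by
    have h1 : ∑ P ∈ Ω, f P = ∑ i : Fin n, ∑ P ∈ Ω, F (P i) := by
      rw [hf, Finset.sum_comm]
    have h2 : ∀ i : Fin n, ∑ P ∈ Ω, F (P i) = Ω.card * ((∑ v ∈ good, F v) / good.card) := by
      intro i
      have h3 := sel_F good n i F
      rw [← hΩ] at h3
      rw [← mul_div_assoc, ← h3]
      field_simp
    rw [h1, Finset.sum_congr rfl (fun i _ => h2 i), Finset.sum_const, Finset.card_univ,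
      Fintype.card_fin, nsmul_eq_mul, hA]
    ring
  have hsg : ∑ P ∈ Ω, g P ≤ Ω.card * B := by
    have h1 : ∑ P ∈ Ω, g P = ∑ i : Fin n, ∑ j : Fin n, ∑ P ∈ Ω, (if i = j then 0 else G (P i) (P j)) := by
      rw [hgdef, Finset.sum_comm]
      refine Finset.sum_congr rfl fun i _ => ?_
      rw [Finset.sum_comm]
    have h2 : ∀ i j : Fin n, ∑ P ∈ Ω, (if i = j then 0 else G (P i) (P j)) ≤
        Ω.card * ((∑ v ∈ good, ∑ w ∈ good, G v w) / (good.card:ℝ)^2) := by
      intro i j
      by_cases hij : i = j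
      · simp only [hij, if_true, Finset.sum_const_zero]
        positivity
      · simp only [hij, if_false]
        have h3 := sel_G good n i j hij G
        rw [← hΩ] at h3
        refine le_of_eq ?_
        rw [← mul_div_assoc, ← h3]
        field_simp
    rw [h1]
    calc ∑ i : Fin n, ∑ j : Fin n, ∑ P ∈ Ω, (if i = j then 0 else G (P i) (P j))
        ≤ ∑ i : Fin n, ∑ j : Fin n, Ω.card * ((∑ v ∈ good, ∑ w ∈ good, G v w) / (good.card:ℝ)^2) :=
          Finset.sum_le_sum fun i _ => Finset.sum_le_sum fun j _ => h2 i j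
      _ = Ω.card * B := by
          simp only [Finset.sum_const, Finset.card_univ, Fintype.card_fin, nsmul_eq_mul, hB]
          ring
  by_contra hcon
  have hno : ∀ P ∈ Ω, 2 * A < f P ∨ 2 * B < g P := by
    intro P hP
    by_contra hc
    push Not at hc
    apply hcon
    refine ⟨P, ?_, ?_, ?_⟩
    · rw [hΩ, Fintype.mem_piFinset] at hP
      exact hP
    · calc f P ≤ 2 * A := hc.1
        _ = 2 * n * ((∑ v ∈ good, F v) / good.card) := by rw [hA]; ring
    · calc g P ≤ 2 * B := hc.2
        _ = 2 * (n:ℝ)^2 * ((∑ v ∈ good, ∑ w ∈ good, G v w) / (good.card : ℝ)^2) := by rw [hB]; ring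
  rcases hA0.eq_or_lt with hAz | hApos
  · have h1 : ∀ P ∈ Ω, f P = 0 := by
      have h2 : ∑ P ∈ Ω, f P = 0 := by rw [hsf, ← hAz, mul_zero]
      exact (Finset.sum_eq_zero_iff_of_nonneg (fun P _ => hf0 P)).mp h2
    have h3 : ∀ P ∈ Ω, 2 * B < g P := by
      intro P hP
      rcases hno P hP with h | h
      · rw [h1 P hP, ← hAz] at h
        linarith
      · exact h
    have h4 : ∑ P ∈ Ω, 2 * B < ∑ P ∈ Ω, g P := Finset.sum_lt_sum_of_nonempty hΩne h3
    rw [Finset.sum_const, nsmul_eq_mul] at h4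
    nlinarith [mul_nonneg hΩc.le hB0]
  · rcases hB0.eq_or_lt with hBz | hBpos
    · have h1 : ∀ P ∈ Ω, g P = 0 := by
        have h2 : ∑ P ∈ Ω, g P = 0 := by
          refine le_antisymm ?_ (Finset.sum_nonneg fun P _ => hg0 P)
          calc _ ≤ _ := hsg
            _ = 0 := by rw [← hBz, mul_zero]
        exact (Finset.sum_eq_zero_iff_of_nonneg (fun P _ => hg0 P)).mp h2
      have h3 : ∀ P ∈ Ω, 2 * A < f P := by
        intro P hP
        rcases hno P hP with h | h
        · exact h
        · rw [h1 P hP, ← hBz] at h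
          linarith
      have h4 : ∑ P ∈ Ω, 2 * A < ∑ P ∈ Ω, f P := Finset.sum_lt_sum_of_nonempty hΩne h3
      rw [Finset.sum_const, nsmul_eq_mul, hsf] at h4
      nlinarith [mul_pos hΩc hApos]
    · have h3 : ∀ P ∈ Ω, 2 * A * B < B * f P + A * g P := by
        intro P hP
        rcases hno P hP with h | h
        · nlinarith [mul_nonneg hA0 (hg0 P), mul_lt_mul_of_pos_left h hBpos]
        · nlinarith [mul_nonneg hB0 (hf0 P), mul_lt_mul_of_pos_left h hApos]
      have h4 : ∑ P ∈ Ω, 2 * A * B < ∑ P ∈ Ω, (B * f P + A * g P) :=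
        Finset.sum_lt_sum_of_nonempty hΩne h3
      rw [Finset.sum_const, nsmul_eq_mul, Finset.sum_add_distrib, ← Finset.mul_sum,
        ← Finset.mul_sum, hsf] at h4
      have h5 := mul_le_mul_of_nonneg_left hsg hA0
      nlinarith


end Sol_select

alias select := Sol_select.select

end Tus
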