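import Pool.Agent.Tus.Defs
import Pool.Agent.Tus.L_noise2
import Pool.Agent.Tus.L_nz_int
import Pool.Agent.Tus.L_good_count
import Pool.Agent.Tus.L_gm_avg
import Pool.Agent.Tus.L_select
import Pool.Agent.Tus.L_sh_pos
import Pool.Agent.Tus.L_card_X
open MeasureTheory Real ProbabilityTheory
open scoped ENNReal BigOperators

namespace Tus
namespace Sol_fam_P2










theorem fam_P2 (d : ℕ) (hd : 2 ≤ d) : ∃ a0 : ℝ, 0 < a0 ∧ ∀ j0 : ℕ, ∃ C : ℝ, 0 < C ∧
    ∀ a : ℝ, 0 < a → a ≤ a0 → ∀ K : ℕ, 1 ≤ K →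
    j0 ≤ K → ∀ n : ℕ, ∃ P : Fin n → Pt d K, (∀ i, (1/12:ℝ)^d / 2 ≤ Gm (P i) (P i)) ∧
      ∑ l, ∫ α, nz (Real.sqrt (a * K / sh d K)) (K - j0) α (P l) ^ 2 ∂(gam (Bx d K))
        ≤ C * a^2 * n * (K * (1/4)^K) ∧
      ∑ i, ∑ j, (if i = j then 0 else Gm (P i) (P j) ^ 2) ≤
        2 * (n:ℝ)^2 * (6^d / (((1/12:ℝ)^d / 2)^2 * ((2:ℝ)^K * sh d K))) := by
  classical
  obtain ⟨a0, ha0, H⟩ := noise2 d hd
  refine ⟨a0, ha0, fun j0 => ?_⟩
  obtain ⟨C0, hC0, H0⟩ := H j0
  have hd1 : 1 ≤ d := by omega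
  set c0 : ℝ := (1/12:ℝ)^d / 2 with hc0
  have hc0p : 0 < c0 := by positivity
  refine ⟨2 * C0 / c0, by positivity, fun a ha haa K hK hjK n => ?_⟩
  have hcX : 0 < cX d K := by
    rw [card_X]
    positivity
  have hS : (1:ℝ) ≤ sh d K := by exact_mod_cast sh_pos d K hd1
  have hgc := good_count d K hd1
  set good : Finset (Pt d K) := Finset.univ.filter (fun p : Pt d K => c0 ≤ Gm p p) with hgood
  have hgpos : 0 < (good.card : ℝ) := lt_of_lt_of_le (by positivity) hgc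
  have hgne : good.Nonempty := by
    rw [← Finset.card_pos]
    exact_mod_cast hgpos
  set s : ℝ := Real.sqrt (a * K / sh d K) with hs
  have hs2 : s ^ 2 = a * K / sh d K := Real.sq_sqrt (by positivity)
  let F : Pt d K → ℝ := fun p => ∫ α, nz s (K - j0) α p ^ 2 ∂(gam (Bx d K))
  let G : Pt d K → Pt d K → ℝ := fun p q => Gm p q ^ 2
  have hF0 : ∀ p, 0 ≤ F p := fun p => integral_nonneg fun α => sq_nonneg _
  have hG0 : ∀ p q, 0 ≤ G p q := fun p q => sq_nonneg _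
  let F' : Pt d K → ℝ := fun p => (∑ x : Pt d K, ∑ y : Pt d K, |Hi (K - j0) p x| *
    |Hi (K - j0) p y| * |Real.exp (a * K / sh d K * Dk x y) - 1 - a * K / sh d K * Dk x y|) /
      cX d K ^ 2
  have hF'0 : ∀ p, 0 ≤ F' p := fun p => by
    show 0 ≤ (∑ x : Pt d K, ∑ y : Pt d K, |Hi (K - j0) p x| *
      |Hi (K - j0) p y| * |Real.exp (a * K / sh d K * Dk x y) - 1 - a * K / sh d K * Dk x y|) /
        cX d K ^ 2
    apply div_nonneg _ (by positivity)
    exact Finset.sum_nonneg fun x _ => Finset.sum_nonneg fun y _ => by positivity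
  have hFF' : ∀ p, F p ≤ F' p := by
    intro p
    show (∫ α, nz s (K - j0) α p ^ 2 ∂(gam (Bx d K))) ≤ (∑ x : Pt d K, ∑ y : Pt d K,
      |Hi (K - j0) p x| * |Hi (K - j0) p y| *
        |Real.exp (a * K / sh d K * Dk x y) - 1 - a * K / sh d K * Dk x y|) / cX d K ^ 2
    rw [(nz_int s (K - j0) p).2, hs2]
    apply div_le_div_of_nonneg_right _ (by positivity)
    apply Finset.sum_le_sum
    intro x _
    apply Finset.sum_le_sum
    intro y _
    rw [← abs_mul, ← abs_mul]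
    exact le_abs_self _
  have hsumF : ∑ v ∈ good, F v ≤ cX d K * (C0 * a^2 * K * (1/4)^K) := by
    calc ∑ v ∈ good, F v ≤ ∑ v ∈ good, F' v := Finset.sum_le_sum fun v _ => hFF' v
      _ ≤ ∑ v, F' v := Finset.sum_le_sum_of_subset_of_nonneg (Finset.subset_univ _)
          fun v _ _ => hF'0 v
      _ ≤ cX d K * (C0 * a^2 * K * (1/4)^K) := by
          have h := H0 a ha haa K hK hjK
          rw [div_le_iff₀ hcX] at h
          calc ∑ v, F' v ≤ C0 * a^2 * K * (1/4)^K * cX d K := h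
            _ = _ := by ring
  have hsumG : ∑ v ∈ good, ∑ w ∈ good, G v w ≤ cX d K ^ 2 * (6^d / ((2:ℝ)^K * sh d K)) := by
    calc ∑ v ∈ good, ∑ w ∈ good, G v w ≤ ∑ v ∈ good, ∑ w, G v w :=
          Finset.sum_le_sum fun v _ => Finset.sum_le_sum_of_subset_of_nonneg
            (Finset.subset_univ _) fun w _ _ => hG0 v w
      _ ≤ ∑ v, ∑ w, G v w := Finset.sum_le_sum_of_subset_of_nonneg (Finset.subset_univ _)
          fun v _ _ => Finset.sum_nonneg fun w _ => hG0 v w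
      _ ≤ cX d K ^ 2 * (6^d / ((2:ℝ)^K * sh d K)) := by
          have h := gm_avg d K hd1
          rw [div_le_iff₀ (by positivity)] at h
          calc ∑ v, ∑ w, G v w ≤ 6^d / ((2:ℝ)^K * sh d K) * cX d K ^ 2 := h
            _ = _ := by ring
  obtain ⟨P, hP1, hP2, hP3⟩ := select good hgne n F G hF0 hG0
  refine ⟨P, fun i => (Finset.mem_filter.mp (hP1 i)).2, ?_, ?_⟩
  · refine hP2.trans ?_
    have h1 : (∑ v ∈ good, F v) / good.card ≤ C0 * a^2 * K * (1/4)^K / c0 := by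
      rw [div_le_div_iff₀ hgpos hc0p]
      calc (∑ v ∈ good, F v) * c0 ≤ cX d K * (C0 * a^2 * K * (1/4)^K) * c0 :=
            mul_le_mul_of_nonneg_right hsumF hc0p.le
        _ = C0 * a^2 * K * (1/4)^K * (c0 * cX d K) := by ring
        _ ≤ C0 * a^2 * K * (1/4)^K * good.card :=
            mul_le_mul_of_nonneg_left hgc (by positivity)
    calc 2 * (n:ℝ) * ((∑ v ∈ good, F v) / good.card) ≤
          2 * n * (C0 * a^2 * K * (1/4)^K / c0) := mul_le_mul_of_nonneg_left h1 (by positivity)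
      _ = 2 * C0 / c0 * a^2 * n * (K * (1/4)^K) := by ring
  · refine hP3.trans ?_
    apply mul_le_mul_of_nonneg_left _ (by positivity)
    have hpos2 : 0 < (2:ℝ)^K * sh d K := by positivity
    rw [div_le_div_iff₀ (by positivity) (by positivity)]
    calc (∑ v ∈ good, ∑ w ∈ good, G v w) * (c0 ^ 2 * ((2:ℝ)^K * sh d K)) ≤
          cX d K ^ 2 * (6^d / ((2:ℝ)^K * sh d K)) * (c0 ^ 2 * ((2:ℝ)^K * sh d K)) :=
          mul_le_mul_of_nonneg_right hsumG (by positivity)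
      _ = 6 ^ d * (c0 * cX d K) ^ 2 := by
          field_simp
      _ ≤ 6 ^ d * (good.card : ℝ) ^ 2 := by
          apply mul_le_mul_of_nonneg_left _ (by positivity)
          exact pow_le_pow_left₀ (by positivity) hgc 2


end Sol_fam_P2

alias fam_P2 := Sol_fam_P2.fam_P2

end Tus
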