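import Pool.Agent.Tus.Defs
import Pool.Agent.Tus.L_sh_bounds
open MeasureTheory Real ProbabilityTheory
open scoped ENNReal BigOperators

namespace Tus
namespace Sol_fam_num2




theorem fam_num2 (d : ℕ) (hd : 2 ≤ d) : ∃ (η : ℝ) (j0 K1 : ℕ), 0 < η ∧ 1 ≤ K1 ∧ j0 + 1 ≤ K1 ∧
    ∀ K : ℕ, K1 ≤ K → ∃ n m k : ℕ, 0 < m ∧ m + k = n ∧ n ≤ 2 * m ∧ 3 ≤ n ∧
      η * 2^K * (K:ℝ)^(d-1) ≤ n ∧ n ≤ 2^K * (K+1)^(d-1) ∧
      (m:ℝ) + ((2^(K-j0) * 2^d * (K+1)^(d-1) : ℕ) : ℝ)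
        + 4 * (2 * (n:ℝ)^2 * (6^d / (((1/12:ℝ)^d / 2)^2 * ((2:ℝ)^K * sh d K)))) / ((1/12:ℝ)^d / 2)^2 ≤ n := by
  have hd1 : 1 ≤ d := by omega
  obtain ⟨c, hc⟩ : ∃ c : ℝ, c = (1/12:ℝ)^d / 2 := ⟨_, rfl⟩
  rw [← hc]
  have hcpos : 0 < c := by rw [hc]; positivity
  have hc1 : c ≤ 1 := by
    rw [hc]
    have : (1/12:ℝ)^d ≤ 1 := pow_le_one₀ (by norm_num) (by norm_num)
    linarith
  have h6 : (1:ℝ) ≤ 6^d := one_le_pow₀ (by norm_num)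
  obtain ⟨η1, hη⟩ : ∃ η1 : ℝ, η1 = c^4/(32*6^d) := ⟨_, rfl⟩
  have hη1 : 0 < η1 := by rw [hη]; positivity
  have hη1' : η1 ≤ 1 := by
    rw [hη, div_le_one (by positivity)]
    have : c^4 ≤ 1 := pow_le_one₀ hcpos.le hc1
    nlinarith
  obtain ⟨B, hB⟩ : ∃ B : ℝ, B = 2^d * (d:ℝ)^(d-1) := ⟨_, rfl⟩
  have hdpos : (0:ℝ) < d := by exact_mod_cast (by omega : 0 < d)
  have hBpos : 0 < B := by rw [hB]; positivity
  obtain ⟨j0, hj0⟩ : ∃ j0 : ℕ, 2^d * B * 16/η1 < (2:ℝ)^j0 := pow_unbounded_of_one_lt _ one_lt_two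
  obtain ⟨j1, hj1⟩ : ∃ j1 : ℕ, 5/η1 < (2:ℝ)^j1 := pow_unbounded_of_one_lt _ one_lt_two
  refine ⟨η1/(2*B), j0, j0+j1+1, by positivity, by omega, by omega, ?_⟩
  intro K hK
  obtain ⟨hS1, hS2, hS3⟩ := sh_bounds d K hd1
  obtain ⟨S, hS⟩ : ∃ S : ℝ, S = (sh d K : ℝ) := ⟨_, rfl⟩
  rw [← hS] at hS1 hS2
  rw [← hS]
  have hSpos : 1 ≤ S := by rw [hS]; exact_mod_cast hS3
  have hS0 : 0 < S := by linarith
  have h2K : (0:ℝ) < 2^K := by positivity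
  have hKj1 : (2:ℝ)^j1 ≤ 2^K := pow_le_pow_right₀ (by norm_num) (by omega)
  have hKB : ((K:ℝ)+1)^(d-1) ≤ B * S := by
    rw [hB]
    rw [div_le_iff₀ (by positivity)] at hS1
    linarith
  have h5 : 5 ≤ η1 * 2^K := by
    rw [div_lt_iff₀ hη1] at hj1
    nlinarith
  obtain ⟨x, hx⟩ : ∃ x : ℝ, x = η1 * 2^K * S := ⟨_, rfl⟩
  have hA : 5 ≤ x := by rw [hx]; nlinarith
  obtain ⟨n, hn⟩ : ∃ n : ℕ, n = ⌊x⌋₊ := ⟨_, rfl⟩
  have hn1 : (n:ℝ) ≤ x := by rw [hn]; exact Nat.floor_le (by linarith)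
  have hn2 : x < n + 1 := by rw [hn]; exact Nat.lt_floor_add_one x
  have hn5 : 5 ≤ n := by rw [hn]; exact Nat.le_floor (by exact_mod_cast hA)
  have hn5' : (5:ℝ) ≤ n := by exact_mod_cast hn5
  have hnx : x / 2 ≤ n := by linarith
  have hmle : (((n+1)/2 : ℕ) : ℝ) ≤ ((n:ℝ)+1)/2 := by
    have := @Nat.cast_div_le ℝ _ _ _ (n+1) 2
    push_cast at this
    exact this
  refine ⟨n, (n+1)/2, n-(n+1)/2, by omega, by omega, by omega, by omega, ?_, ?_, ?_⟩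
  · have hK1 : (K:ℝ)^(d-1) ≤ ((K:ℝ)+1)^(d-1) := pow_le_pow_left₀ (by positivity) (by linarith) _
    calc η1/(2*B) * 2^K * (K:ℝ)^(d-1) ≤ η1/(2*B) * 2^K * (B * S) := by
          apply mul_le_mul_of_nonneg_left (hK1.trans hKB) (by positivity)
      _ = x / 2 := by rw [hx]; field_simp
      _ ≤ n := hnx
  · have : (n:ℝ) ≤ 2^K * ((K:ℝ)+1)^(d-1) := by
      calc (n:ℝ) ≤ x := hn1
        _ = η1 * (2^K * S) := by rw [hx]; ring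
        _ ≤ 1 * (2^K * S) := by
            apply mul_le_mul_of_nonneg_right hη1' (by positivity)
        _ = 2^K * S := one_mul _
        _ ≤ 2^K * ((K:ℝ)+1)^(d-1) := by
            apply mul_le_mul_of_nonneg_left hS2 (by positivity)
    exact_mod_cast this
  · have hK2 : (2:ℝ)^K = 2^(K-j0) * 2^j0 := by
      rw [← pow_add]; congr 1; omega
    have ht2 : ((2^(K-j0) * 2^d * (K+1)^(d-1) : ℕ) : ℝ) ≤ n / 8 := by
      push_cast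
      have hp : (0:ℝ) < 2^(K-j0) := by positivity
      have h1 : (2:ℝ)^(K-j0) * 2^d * ((K:ℝ)+1)^(d-1) ≤ 2^(K-j0) * 2^d * (B * S) := by
        apply mul_le_mul_of_nonneg_left hKB (by positivity)
      have h2 : 2^d * B * 16 ≤ (2:ℝ)^j0 * η1 := by
        rw [div_lt_iff₀ hη1] at hj0
        exact hj0.le
      have h3 : (2:ℝ)^(K-j0) * S * (2^d * B * 16) ≤ (2:ℝ)^(K-j0) * S * ((2:ℝ)^j0 * η1) :=
        mul_le_mul_of_nonneg_left h2 (by positivity)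
      have h4 : (2:ℝ)^(K-j0) * S * ((2:ℝ)^j0 * η1) = x := by
        rw [hx, hK2]; ring
      nlinarith [h1, h3, h4, hnx]
    have ht3 : 4 * (2 * (n:ℝ)^2 * (6^d / (c^2 * ((2:ℝ)^K * S)))) / c^2 ≤ n / 4 := by
      have e : 4 * (2 * (n:ℝ)^2 * (6^d / (c^2 * ((2:ℝ)^K * S)))) / c^2
          = (n:ℝ) / 4 * (n / x) := by
        rw [hx, hη]; field_simp; ring
      rw [e]
      have hxp : 0 < x := by linarith
      have : (n:ℝ)/x ≤ 1 := by rw [div_le_one hxp]; exact hn1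
      nlinarith
    linarith


end Sol_fam_num2

alias fam_num2 := Sol_fam_num2.fam_num2

end Tus
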