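import Pool.Agent.Tus.Defs
import Pool.Agent.Tus.L_sh_pos
open MeasureTheory Real ProbabilityTheory
open scoped ENNReal BigOperators

namespace Tus
namespace Sol_gm_quad




theorem gm_quad {d K n : ℕ} (hd : 1 ≤ d) (P : Fin n → Pt d K) (b : Fin n → ℝ) :
    ∑ R : Bx d K, (∑ l, b l * wR R (P l))^2 = sh d K * ∑ l, ∑ l', Gm (P l) (P l') * b l * b l' := by
  have hsh : (0:ℝ) < sh d K := by exact_mod_cast sh_pos d K hd
  have h1 : ∀ R : Bx d K, (∑ l, b l * wR R (P l))^2
      = ∑ l, ∑ l', (wR R (P l) * wR R (P l')) * (b l * b l') := by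
    intro R
    rw [pow_two, Finset.sum_mul_sum]
    refine Finset.sum_congr rfl fun l _ => Finset.sum_congr rfl fun l' _ => ?_
    ring
  simp_rw [h1]
  rw [Finset.sum_comm, Finset.mul_sum]
  refine Finset.sum_congr rfl fun l _ => ?_
  rw [Finset.sum_comm, Finset.mul_sum]
  refine Finset.sum_congr rfl fun l' _ => ?_
  rw [← Finset.sum_mul]
  unfold Gm
  field_simp


end Sol_gm_quad

alias gm_quad := Sol_gm_quad.gm_quad

end Tus
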