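import Pool.Agent.Tus.Defs
open MeasureTheory Real ProbabilityTheory
open scoped ENNReal BigOperators

namespace Tus
namespace Sol_low_span



abbrev Ix (d K K0 : ℕ) := (o : {o : Fin d → Option (Fin (K+1)) // ∑ j, lev (o j) < K0}) ×
  (∀ j, Fin (2^(lev (o.1 j))))

noncomputable def v1 {K : ℕ} (o : Option (Fin (K+1))) (b : ℕ) (p : Fin (2^(K+1))) : ℝ := match o with
  | none => (2^(K+1) - ((p:ℕ):ℝ)) / 2^(K+1)
  | some l => if blk K l p = b then w1 K l p else 0

noncomputable def c1 {K : ℕ} (o : Option (Fin (K+1))) (b : ℕ) (x : Fin (2^(K+1))) : ℝ := match o with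
  | none => 1
  | some l => if blk K l x = b then sg K l x else 0

theorem blk_lt (K : ℕ) (l : Fin (K+1)) (x : Fin (2^(K+1))) : blk K l x < 2^(l:ℕ) := by
  unfold blk
  apply Nat.div_lt_of_lt_mul
  rw [← pow_add]
  have h1 : K + 1 - (l:ℕ) + (l:ℕ) = K + 1 := by
    have := l.2
    omega
  rw [h1]
  exact x.2

theorem tm_eq {K : ℕ} (o : Option (Fin (K+1))) (p x : Fin (2^(K+1))) :
    tm o p x = ∑ b : Fin (2^(lev o)), c1 o b x * v1 o b p := by
  cases o with
  | none =>
    show (2^(K+1) - ((p:ℕ):ℝ)) / 2^(K+1)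
      = ∑ b : Fin (2^0), 1 * ((2^(K+1) - ((p:ℕ):ℝ)) / 2^(K+1))
    rw [Finset.sum_const]
    simp
  | some l =>
    show (if blk K l x = blk K l p then w1 K l p * sg K l x else 0)
      = ∑ b : Fin (2^(l:ℕ)), (if blk K l x = b then sg K l x else 0)
          * (if blk K l p = b then w1 K l p else 0)
    rw [Finset.sum_eq_single (⟨blk K l x, blk_lt K l x⟩ : Fin (2^(l:ℕ)))]
    · rw [if_pos rfl]
      by_cases h : blk K l x = blk K l p
      · rw [if_pos h, if_pos h.symm, mul_comm]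
      · rw [if_neg h, if_neg (Ne.symm h), mul_zero]
    · intro b _ hb
      rw [if_neg, zero_mul]
      intro h
      apply hb
      exact Fin.ext h.symm
    · intro h
      exact absurd (Finset.mem_univ _) h

theorem low_eq {d K : ℕ} (K0 : ℕ) (p x : Pt d K) :
    Low K0 p x = ∑ i : Ix d K K0, (∏ j, c1 (i.1.1 j) (i.2 j) (x j)) *
      (∏ j, v1 (i.1.1 j) (i.2 j) (p j)) := by
  unfold Low
  rw [Fintype.sum_sigma]
  rw [Finset.sum_subtype (p := fun o : Fin d → Option (Fin (K+1)) => ∑ j, lev (o j) < K0)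
    (Finset.univ.filter (fun o : Fin d → Option (Fin (K+1)) => ∑ j, lev (o j) < K0))
    (fun o => by simp)]
  refine Finset.sum_congr rfl fun o _ => ?_
  have h1 : ∀ j, tm (o.1 j) (p j) (x j)
      = ∑ b ∈ (Finset.univ : Finset (Fin (2^(lev (o.1 j))))), c1 (o.1 j) b (x j) * v1 (o.1 j) b (p j) :=
    fun j => tm_eq _ _ _
  rw [Finset.prod_congr rfl fun j _ => h1 j, Finset.prod_univ_sum, Fintype.piFinset_univ]
  refine Finset.sum_congr rfl fun b _ => ?_
  rw [Finset.prod_mul_distrib]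

theorem geo_aux (t K0 m : ℕ) :
    ∑ l ∈ Finset.range m, (if l + t < K0 then 2^(l+t) else 0) + 1 ≤ 2^(min (m + t) K0) := by
  induction m with
  | zero => simpa using Nat.one_le_two_pow
  | succ m ih =>
    rw [Finset.sum_range_succ]
    by_cases h : m + t < K0
    · rw [if_pos h]
      have h1 : min (m + t) K0 = m + t := by omega
      have h2 : min (m + 1 + t) K0 = (m + t) + 1 := by omega
      rw [h1] at ih
      rw [h2, pow_succ]
      omega
    · rw [if_neg h]
      have h1 : min (m + t) K0 = K0 := by omega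
      have h2 : min (m + 1 + t) K0 = K0 := by omega
      rw [h1] at ih
      rw [h2]
      omega

theorem opt_sum (K K0 t : ℕ) :
    ∑ a : Option (Fin (K+1)), (if lev a + t < K0 then 2^(lev a + t) else 0) ≤ 2 * 2^K0 := by
  rw [Fintype.sum_option]
  have h1 : (if lev (none : Option (Fin (K+1))) + t < K0 then 2^(lev (none : Option (Fin (K+1))) + t)
      else 0) ≤ 2^K0 := by
    split_ifs with h
    · exact Nat.pow_le_pow_right (by norm_num) h.le
    · exact Nat.zero_le _
  have h2 : ∑ a : Fin (K+1), (if lev (some a) + t < K0 then 2^(lev (some a) + t) else 0) ≤ 2^K0 := by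
    have h3 := geo_aux t K0 (K+1)
    have h4 : ∑ a : Fin (K+1), (if lev (some a) + t < K0 then 2^(lev (some a) + t) else 0)
        = ∑ l ∈ Finset.range (K+1), (if l + t < K0 then 2^(l+t) else 0) :=
      Fin.sum_univ_eq_sum_range (fun l => if l + t < K0 then 2^(l+t) else 0) (K+1)
    rw [h4]
    have h5 : 2^(min (K + 1 + t) K0) ≤ 2^K0 := Nat.pow_le_pow_right (by norm_num) (min_le_right _ _)
    omega
  omega

theorem card_Ix (d K K0 : ℕ) (hd : 1 ≤ d) :
    Fintype.card (Ix d K K0) ≤ 2^K0 * 2^d * (K+1)^(d-1) := by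
  obtain ⟨d, rfl⟩ : ∃ e, d = e + 1 := ⟨d - 1, by omega⟩
  rw [Fintype.card_sigma]
  have h1 : ∀ o : {o : Fin (d+1) → Option (Fin (K+1)) // ∑ j, lev (o j) < K0},
      Fintype.card (∀ j, Fin (2^(lev (o.1 j)))) = 2^(∑ j, lev (o.1 j)) := by
    intro o
    rw [Fintype.card_pi, Finset.prod_congr rfl fun j _ => Fintype.card_fin _,
      Finset.prod_pow_eq_pow_sum]
  rw [Finset.sum_congr rfl fun o _ => h1 o]
  rw [← Finset.sum_subtype (p := fun o : Fin (d+1) → Option (Fin (K+1)) => ∑ j, lev (o j) < K0)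
    (Finset.univ.filter (fun o : Fin (d+1) → Option (Fin (K+1)) => ∑ j, lev (o j) < K0))
    (fun o => by simp) (fun o => 2^(∑ j, lev (o j)))]
  rw [Finset.sum_filter]
  rw [← (Fin.consEquiv (fun _ : Fin (d+1) => Option (Fin (K+1)))).sum_comp, Fintype.sum_prod_type_right]
  have h2 : ∀ y : Fin d → Option (Fin (K+1)), ∑ a : Option (Fin (K+1)),
      (if ∑ j, lev ((Fin.consEquiv (fun _ : Fin (d+1) => Option (Fin (K+1)))) (a, y) j) < K0
        then 2^(∑ j, lev ((Fin.consEquiv (fun _ : Fin (d+1) => Option (Fin (K+1)))) (a, y) j)) else 0)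
      ≤ 2 * 2^K0 := by
    intro y
    have h3 : ∀ a : Option (Fin (K+1)),
        ∑ j, lev ((Fin.consEquiv (fun _ : Fin (d+1) => Option (Fin (K+1)))) (a, y) j)
        = lev a + ∑ j, lev (y j) := by
      intro a
      rw [Fin.sum_univ_succ]
      rfl
    simp only [h3]
    exact opt_sum K K0 _
  refine (Finset.sum_le_sum fun y _ => h2 y).trans ?_
  rw [Finset.sum_const, Finset.card_univ, Fintype.card_fun, Fintype.card_option, Fintype.card_fin,
    Fintype.card_fin, smul_eq_mul, Nat.add_sub_cancel]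
  have h4 : (K + 1 + 1)^d ≤ (2 * (K+1))^d := Nat.pow_le_pow_left (by omega) d
  calc (K + 1 + 1)^d * (2 * 2^K0) ≤ (2 * (K+1))^d * (2 * 2^K0) := Nat.mul_le_mul_right _ h4
    _ = 2^K0 * 2^(d+1) * (K+1)^d := by rw [mul_pow, pow_succ]; ring

theorem low_span (d K K0 : ℕ) (hd : 1 ≤ d) :
    ∃ v : Fin (2^K0 * 2^d * (K+1)^(d-1)) → Pt d K → ℝ, ∀ x : Pt d K,
      ∃ c : Fin (2^K0 * 2^d * (K+1)^(d-1)) → ℝ, ∀ p, Low K0 p x = ∑ k, c k * v k p := by
  have hcard := card_Ix d K K0 hd
  obtain ⟨e, he⟩ : ∃ e : Ix d K K0 → Fin (2^K0 * 2^d * (K+1)^(d-1)), Function.Injective e :=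
    ⟨fun i => Fin.castLE hcard (Fintype.equivFin _ i),
      (Fin.castLE_injective hcard).comp (Fintype.equivFin _).injective⟩
  refine ⟨Function.extend e (fun i p => ∏ j, v1 (i.1.1 j) (i.2 j) (p j)) 0, fun x =>
    ⟨Function.extend e (fun i => ∏ j, c1 (i.1.1 j) (i.2 j) (x j)) 0, fun p => ?_⟩⟩
  rw [low_eq]
  apply Fintype.sum_of_injective e he
  · intro k hk
    rw [Function.extend_apply' _ _ _ (fun ⟨a, ha⟩ => hk ⟨a, ha⟩)]
    simp
  · intro i
    rw [he.extend_apply, he.extend_apply]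


end Sol_low_span

alias low_span := Sol_low_span.low_span

end Tus
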