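import Pool.Agent.Tus.Defs
import Pool.Agent.Tus.L_sh_bounds
import Pool.Agent.Tus.L_D_bound
open MeasureTheory Real ProbabilityTheory
open scoped ENNReal BigOperators

namespace Tus
namespace Sol_kern_bound





lemma kern_exp_bound (x : ℝ) : |Real.exp x - 1 - x| ≤ x ^ 2 * Real.exp |x| := by
  have h := Complex.norm_exp_sub_sum_le_norm_mul_exp (x : ℂ) 2
  have e : Complex.exp (x : ℂ) - ∑ m ∈ Finset.range 2, (x : ℂ) ^ m / (m.factorial : ℂ) =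
      ((Real.exp x - 1 - x : ℝ) : ℂ) := by
    simp [Finset.sum_range_succ]
    ring
  rw [e, Complex.norm_real, Complex.norm_real, Real.norm_eq_abs, Real.norm_eq_abs, sq_abs] at h
  exact h

lemma kern_poly (m : ℕ) (t : ℝ) (ht : 0 ≤ t) :
    (t + 1) ^ m ≤ ((m.factorial : ℝ) / (Real.log 2 / 8) ^ m * 2) * (2 : ℝ) ^ (t / 8) := by
  have hl : 0 < Real.log 2 / 8 := by have := Real.log_pos one_lt_two; positivity
  set c := Real.log 2 / 8 with hc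
  have h1 := Real.pow_div_factorial_le_exp (c * (t + 1)) (by positivity) m
  have h2 : Real.exp (c * (t + 1)) = (2 : ℝ) ^ (t / 8) * (2 : ℝ) ^ ((1 : ℝ) / 8) := by
    rw [← Real.rpow_add (by norm_num), Real.rpow_def_of_pos (by norm_num)]
    congr 1
    rw [hc]
    ring
  have h3 : (2 : ℝ) ^ ((1 : ℝ) / 8) ≤ 2 := by
    calc (2 : ℝ) ^ ((1 : ℝ) / 8) ≤ (2 : ℝ) ^ (1 : ℝ) :=
          Real.rpow_le_rpow_of_exponent_le (by norm_num) (by norm_num)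
      _ = 2 := by norm_num
  have hf : (0 : ℝ) < (m.factorial : ℝ) := by exact_mod_cast Nat.factorial_pos m
  have h4 : (0 : ℝ) < c ^ m := by positivity
  have h5 : (0 : ℝ) < (2 : ℝ) ^ (t / 8) := by positivity
  rw [h2, mul_pow, div_le_iff₀ hf] at h1
  have h6 : (t + 1) ^ m ≤ ((2 : ℝ) ^ (t / 8) * 2 * (m.factorial : ℝ)) / c ^ m := by
    rw [le_div_iff₀ h4]
    calc (t + 1) ^ m * c ^ m = c ^ m * (t + 1) ^ m := by ring
      _ ≤ (2 : ℝ) ^ (t / 8) * (2 : ℝ) ^ ((1 : ℝ) / 8) * (m.factorial : ℝ) := h1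
      _ ≤ (2 : ℝ) ^ (t / 8) * 2 * (m.factorial : ℝ) := by gcongr
  refine h6.trans (le_of_eq ?_)
  field_simp

lemma kern_exp_small (t : ℝ) (ht : 0 ≤ t) : Real.exp ((t + 1) / 16) ≤ 2 * (2 : ℝ) ^ (t / 8) := by
  have hl : (0.6931471803 : ℝ) < Real.log 2 := Real.log_two_gt_d9
  have h1 : Real.exp ((t + 1) / 16) = Real.exp (1 / 16) * Real.exp (t / 16) := by
    rw [← Real.exp_add]; congr 1; ring
  have h2 : Real.exp (1 / 16) ≤ 2 := by
    calc Real.exp (1 / 16) ≤ Real.exp (Real.log 2) := Real.exp_le_exp.2 (by linarith)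
      _ = 2 := Real.exp_log (by norm_num)
  have h3 : Real.exp (t / 16) ≤ (2 : ℝ) ^ (t / 8) := by
    rw [Real.rpow_def_of_pos (by norm_num)]
    apply Real.exp_le_exp.2
    nlinarith
  rw [h1]
  exact mul_le_mul h2 h3 (Real.exp_pos _).le (by norm_num)

theorem kern_bound (d : ℕ) (hd : 3 ≤ d) : ∃ a C : ℝ, 0 < a ∧ 0 < C ∧ ∀ K : ℕ, 1 ≤ K → ∀ x y : Pt d K,
    |Real.exp (a * K / sh d K * Dk x y) - 1 - a * K / sh d K * Dk x y| ≤
      if TT x y < K then 0 else C * ((K:ℝ) / sh d K)^2 * (2:ℝ)^(((TT x y : ℝ) - K)/4) := by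
  have hd0 : (1 : ℝ) ≤ d := by exact_mod_cast (by omega : 1 ≤ d)
  set m := 2 * (d - 1) with hm
  have hl : 0 < Real.log 2 / 8 := by have := Real.log_pos one_lt_two; positivity
  set Cd : ℝ := (m.factorial : ℝ) / (Real.log 2 / 8) ^ m * 2 with hCd
  have hCd0 : 0 < Cd := by
    have hf : (0 : ℝ) < (m.factorial : ℝ) := by exact_mod_cast Nat.factorial_pos m
    positivity
  set cS : ℝ := 1 / ((d : ℝ) ^ (d - 1) * 2 ^ d) with hcS
  have hcS0 : 0 < cS := by positivity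
  have hcS1 : cS ≤ 1 := by
    rw [hcS, div_le_one (by positivity)]
    have h1 : (1 : ℝ) ≤ (d : ℝ) ^ (d - 1) := one_le_pow₀ hd0
    have h2 : (1 : ℝ) ≤ 2 ^ d := one_le_pow₀ (by norm_num)
    nlinarith
  refine ⟨cS / 16, (cS / 16) ^ 2 * Cd * 2, by positivity, by positivity, fun K hK x y => ?_⟩
  obtain ⟨hs1, hs2, hs3⟩ := sh_bounds d K (by omega)
  obtain ⟨hD1, hD2, hD3⟩ := D_bound (d := d) (K := K) (by omega) x y
  have hK0 : (1 : ℝ) ≤ K := by exact_mod_cast hK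
  have hS0 : (1 : ℝ) ≤ (sh d K : ℝ) := by exact_mod_cast hs3
  by_cases hT : TT x y < K
  · rw [if_pos hT, hD1 hT]
    simp
  rw [if_neg hT]
  push Not at hT
  have hD3' := hD3 hT
  have hSlow : cS * ((K : ℝ) + 1) ^ (d - 1) ≤ (sh d K : ℝ) := by
    rw [hcS, one_div_mul_eq_div, div_le_iff₀ (by positivity)]
    rw [div_le_iff₀ (by positivity)] at hs1
    nlinarith
  set S : ℝ := (sh d K : ℝ) with hS
  set D : ℝ := Dk x y with hD
  obtain ⟨τ, hτ⟩ : ∃ τ : ℕ, TT x y = K + τ := ⟨TT x y - K, by omega⟩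
  have hτ' : (TT x y : ℝ) - K = τ := by rw [hτ]; push_cast; ring
  rw [hτ'] at hD3' ⊢
  have hτ0 : (0 : ℝ) ≤ τ := by positivity
  set a := cS / 16 with ha
  have ha0 : 0 < a := by positivity
  have hkap : |a * K / S * D| = a * K / S * |D| := by
    rw [abs_mul, abs_of_nonneg (by positivity)]
  -- first bound
  have hk1 : |a * K / S * D| ≤ ((τ : ℝ) + 1) / 16 := by
    rw [hkap]
    rcases le_or_gt ((τ : ℝ) + 1) K with hc | hc
    · have h1 : ((τ : ℝ) + 1) ^ (d - 1) * K ≤ ((τ : ℝ) + 1) * ((K : ℝ) + 1) ^ (d - 1) := by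
        have e1 : d - 1 = (d - 2) + 1 := by omega
        rw [e1, pow_succ, pow_succ]
        have h2 : ((τ : ℝ) + 1) ^ (d - 2) ≤ ((K : ℝ) + 1) ^ (d - 2) :=
          pow_le_pow_left₀ (by positivity) (by linarith) _
        calc ((τ : ℝ) + 1) ^ (d - 2) * ((τ : ℝ) + 1) * K
            ≤ ((K : ℝ) + 1) ^ (d - 2) * ((τ : ℝ) + 1) * (K + 1) := by
              gcongr; linarith
          _ = ((τ : ℝ) + 1) * (((K : ℝ) + 1) ^ (d - 2) * ((K : ℝ) + 1)) := by ring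
      calc a * K / S * |D| ≤ a * K / S * ((τ : ℝ) + 1) ^ (d - 1) := by gcongr
        _ = a * (((τ : ℝ) + 1) ^ (d - 1) * K) / S := by ring
        _ ≤ a * (((τ : ℝ) + 1) * ((K : ℝ) + 1) ^ (d - 1)) / S := by gcongr
        _ = ((τ : ℝ) + 1) / 16 * (cS * ((K : ℝ) + 1) ^ (d - 1)) / S := by rw [ha]; ring
        _ ≤ ((τ : ℝ) + 1) / 16 * S / S := by gcongr
        _ = ((τ : ℝ) + 1) / 16 := by field_simp
    · calc a * K / S * |D| ≤ a * K / S * S := by gcongr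
        _ = a * K := by field_simp
        _ ≤ 1 / 16 * ((τ : ℝ) + 1) := by
            apply mul_le_mul _ hc.le (by positivity) (by norm_num)
            rw [ha]; linarith
        _ = ((τ : ℝ) + 1) / 16 := by ring
  have hk2 : (a * K / S * D) ^ 2 ≤ a ^ 2 * ((K : ℝ) / S) ^ 2 * ((τ : ℝ) + 1) ^ m := by
    rw [← sq_abs, hkap, hm]
    have h1 : |D| ^ 2 ≤ (((τ : ℝ) + 1) ^ (d - 1)) ^ 2 := pow_le_pow_left₀ (abs_nonneg _) hD3' 2
    have h2 : (((τ : ℝ) + 1) ^ (d - 1)) ^ 2 = ((τ : ℝ) + 1) ^ (2 * (d - 1)) := by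
      rw [← pow_mul, mul_comm]
    rw [← h2]
    calc (a * K / S * |D|) ^ 2 = a ^ 2 * ((K : ℝ) / S) ^ 2 * |D| ^ 2 := by ring
      _ ≤ a ^ 2 * ((K : ℝ) / S) ^ 2 * (((τ : ℝ) + 1) ^ (d - 1)) ^ 2 := by gcongr
  have h3 := kern_exp_bound (a * K / S * D)
  have h4 : Real.exp |a * K / S * D| ≤ 2 * (2 : ℝ) ^ ((τ : ℝ) / 8) :=
    (Real.exp_le_exp.2 hk1).trans (kern_exp_small τ hτ0)
  have h5 := kern_poly m τ hτ0
  rw [← hCd] at h5
  have h6 : (2 : ℝ) ^ ((τ : ℝ) / 4) = (2 : ℝ) ^ ((τ : ℝ) / 8) * (2 : ℝ) ^ ((τ : ℝ) / 8) := by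
    rw [← Real.rpow_add (by norm_num)]; congr 1; ring
  calc |Real.exp (a * K / S * D) - 1 - a * K / S * D|
      ≤ (a * K / S * D) ^ 2 * Real.exp |a * K / S * D| := h3
    _ ≤ (a ^ 2 * ((K : ℝ) / S) ^ 2 * ((τ : ℝ) + 1) ^ m) * (2 * (2 : ℝ) ^ ((τ : ℝ) / 8)) := by
        gcongr
    _ ≤ (a ^ 2 * ((K : ℝ) / S) ^ 2 * (Cd * (2 : ℝ) ^ ((τ : ℝ) / 8))) *
          (2 * (2 : ℝ) ^ ((τ : ℝ) / 8)) := by gcongr
    _ = a ^ 2 * Cd * 2 * ((K : ℝ) / S) ^ 2 * (2 : ℝ) ^ ((τ : ℝ) / 4) := by rw [h6]; ring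


end Sol_kern_bound

alias kern_bound := Sol_kern_bound.kern_bound

end Tus
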