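import Pool.Agent.Tus.Defs
import Pool.Agent.Tus.L_kern_bound
import Pool.Agent.Tus.L_pair_count
import Pool.Agent.Tus.L_hi_pair
import Pool.Agent.Tus.L_sh_bounds
import Pool.Agent.Tus.L_card_X
open MeasureTheory Real ProbabilityTheory
open scoped ENNReal BigOperators

namespace Tus
namespace Sol_noise_avg








theorem noise_avg (d : ℕ) (hd : 3 ≤ d) : ∃ a : ℝ, 0 < a ∧ ∀ j0 : ℕ, ∃ C : ℝ, 0 < C ∧
    ∀ K : ℕ, 1 ≤ K → j0 ≤ K →
    (∑ p : Pt d K, (∑ x : Pt d K, ∑ y : Pt d K, |Hi (K - j0) p x| * |Hi (K - j0) p y|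
      * |Real.exp (a * K / sh d K * Dk x y) - 1 - a * K / sh d K * Dk x y|) / cX d K ^ 2) / cX d K
      ≤ C * (1/4)^K := by
  obtain ⟨a, C, ha, hC, hkb⟩ := kern_bound d hd
  refine ⟨a, ha, fun j0 => ?_⟩
  have hdpos : (0:ℝ) < d := by exact_mod_cast (by omega : 0 < d)
  obtain ⟨c, hc⟩ : ∃ c : ℝ, c = 1 / ((d:ℝ)^(d-1) * 2^d) := ⟨_, rfl⟩
  have hcpos : 0 < c := by rw [hc]; positivity
  refine ⟨C * 200^d * (2:ℝ)^((3/2:ℝ)*j0) * 7 * 2^(d-1) / c^2, by positivity, ?_⟩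
  intro K hK hjK
  have hN : 0 < cX d K := by rw [card_X]; positivity
  have hSl : c * ((K:ℝ)+1)^(d-1) ≤ (sh d K : ℝ) := by
    have h1 := (sh_bounds d K (by omega)).1
    have h2 : c * ((K:ℝ)+1)^(d-1) = (((K:ℝ)+1)^(d-1) / (d:ℝ)^(d-1)) / 2^d := by
      rw [hc]; field_simp
    rw [h2, div_le_iff₀ (by positivity)]
    linarith
  obtain ⟨S, hSdef⟩ : ∃ S : ℝ, S = (sh d K : ℝ) := ⟨_, rfl⟩
  rw [← hSdef] at hSl
  have hQ0 : (0:ℝ) < ((K:ℝ)+1)^(d-1) := by positivity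
  have hS : 0 < S := lt_of_lt_of_le (by positivity) hSl
  obtain ⟨κ, hκ⟩ : ∃ κ : Pt d K → Pt d K → ℝ, ∀ x y, κ x y =
    |Real.exp (a * K / sh d K * Dk x y) - 1 - a * K / sh d K * Dk x y| := ⟨_, fun _ _ => rfl⟩
  simp_rw [← hκ]
  have hswap : (∑ p : Pt d K, (∑ x : Pt d K, ∑ y : Pt d K,
        |Hi (K - j0) p x| * |Hi (K - j0) p y| * κ x y) / cX d K ^ 2) / cX d K
      = (∑ x : Pt d K, ∑ y : Pt d K,
        κ x y * ((∑ p, |Hi (K - j0) p x| * |Hi (K - j0) p y|) / cX d K)) / cX d K ^ 2 := by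
    rw [← Finset.sum_div, div_div, mul_comm (cX d K ^ 2), ← div_div]
    congr 1
    rw [Finset.sum_comm, Finset.sum_div]
    refine Finset.sum_congr rfl fun x _ => ?_
    rw [Finset.sum_comm, Finset.sum_div]
    refine Finset.sum_congr rfl fun y _ => ?_
    rw [← mul_div_assoc, Finset.mul_sum]
    congr 1
    refine Finset.sum_congr rfl fun p _ => by ring
  rw [hswap]
  have hterm : ∀ x y : Pt d K,
      κ x y * ((∑ p, |Hi (K - j0) p x| * |Hi (K - j0) p y|) / cX d K)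
      ≤ (C * (K/S)^2 * 200^d * (2:ℝ)^(-(K:ℝ)) * (2:ℝ)^((3/2:ℝ)*j0)) *
        (if TT x y < K then 0 else (2:ℝ)^((3/4:ℝ)*((TT x y : ℝ) - K))) := by
    intro x y
    have h1 : κ x y ≤ if TT x y < K then 0 else
        C * ((K:ℝ) / S)^2 * (2:ℝ)^(((TT x y : ℝ) - K)/4) := by
      rw [hκ, hSdef]; exact hkb K hK x y
    have h2 := hi_pair (K - j0) x y
    have h3 : 0 ≤ (∑ p, |Hi (K - j0) p x| * |Hi (K - j0) p y|) / cX d K :=
      div_nonneg (Finset.sum_nonneg fun p _ => by positivity) hN.le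
    by_cases hT : TT x y < K
    · rw [if_pos hT] at h1 ⊢
      rw [mul_zero]
      exact mul_nonpos_of_nonpos_of_nonneg h1 h3
    · rw [if_neg hT] at h1 ⊢
      refine (mul_le_mul h1 h2 h3 (by positivity)).trans (le_of_eq ?_)
      have hcast : ((K - j0 : ℕ):ℝ) = K - j0 := Nat.cast_sub hjK
      rw [hcast]
      have e : (2:ℝ)^(((TT x y : ℝ) - K)/4) * (2:ℝ)^((TT x y : ℝ)/2 - (3/2) * ((K:ℝ) - j0))
          = (2:ℝ)^(-(K:ℝ)) * (2:ℝ)^((3/2:ℝ)*j0) * (2:ℝ)^((3/4:ℝ)*((TT x y : ℝ) - K)) := by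
        rw [← Real.rpow_add two_pos, ← Real.rpow_add two_pos, ← Real.rpow_add two_pos]
        congr 1; ring
      calc C * ((K:ℝ) / S)^2 * (2:ℝ)^(((TT x y : ℝ) - K)/4) *
            (200^d * (2:ℝ)^((TT x y : ℝ)/2 - (3/2) * ((K:ℝ) - j0)))
          = C * ((K:ℝ) / S)^2 * 200^d * ((2:ℝ)^(((TT x y : ℝ) - K)/4) *
            (2:ℝ)^((TT x y : ℝ)/2 - (3/2) * ((K:ℝ) - j0))) := by ring
        _ = _ := by rw [e]; ring
  have hpc := pair_count d K (by omega)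
  have h2K : (2:ℝ)^(-(K:ℝ)) = (1/2)^K := by
    rw [Real.rpow_neg (by norm_num), Real.rpow_natCast, one_div, inv_pow]
  have hKS : ((K:ℝ)/S)^2 * ((K:ℝ)+2)^(d-1) ≤ 2^(d-1) / c^2 := by
    rw [div_pow, div_mul_eq_mul_div, div_le_div_iff₀ (by positivity) (by positivity)]
    have e1 : (K:ℝ)^2 ≤ ((K:ℝ)+1)^(d-1) := by
      calc (K:ℝ)^2 ≤ ((K:ℝ)+1)^2 := by
            have : (0:ℝ) ≤ K := Nat.cast_nonneg K
            nlinarith
        _ ≤ ((K:ℝ)+1)^(d-1) := by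
            apply pow_le_pow_right₀ _ (by omega)
            have : (0:ℝ) ≤ K := Nat.cast_nonneg K
            linarith
    have e2 : ((K:ℝ)+2)^(d-1) ≤ 2^(d-1) * ((K:ℝ)+1)^(d-1) := by
      rw [← mul_pow]
      apply pow_le_pow_left₀ (by positivity)
      have : (0:ℝ) ≤ K := Nat.cast_nonneg K
      linarith
    calc (K:ℝ)^2 * ((K:ℝ)+2)^(d-1) * c^2
        ≤ ((K:ℝ)+1)^(d-1) * (2^(d-1) * ((K:ℝ)+1)^(d-1)) * c^2 :=
          mul_le_mul_of_nonneg_right (mul_le_mul e1 e2 (by positivity) (by positivity))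
            (by positivity)
      _ = 2^(d-1) * (c * ((K:ℝ)+1)^(d-1))^2 := by ring
      _ ≤ 2^(d-1) * S^2 := by
          apply mul_le_mul_of_nonneg_left _ (by positivity)
          exact pow_le_pow_left₀ (by positivity) hSl 2
  calc (∑ x : Pt d K, ∑ y : Pt d K,
        κ x y * ((∑ p, |Hi (K - j0) p x| * |Hi (K - j0) p y|) / cX d K)) / cX d K ^ 2
      ≤ (∑ x : Pt d K, ∑ y : Pt d K,
        (C * (K/S)^2 * 200^d * (2:ℝ)^(-(K:ℝ)) * (2:ℝ)^((3/2:ℝ)*j0)) *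
        (if TT x y < K then 0 else (2:ℝ)^((3/4:ℝ)*((TT x y : ℝ) - K)))) / cX d K ^ 2 :=
        div_le_div_of_nonneg_right
          (Finset.sum_le_sum fun x _ => Finset.sum_le_sum fun y _ => hterm x y) (by positivity)
    _ = (C * (K/S)^2 * 200^d * (2:ℝ)^(-(K:ℝ)) * (2:ℝ)^((3/2:ℝ)*j0)) *
        ((∑ x : Pt d K, ∑ y : Pt d K,
        (if TT x y < K then 0 else (2:ℝ)^((3/4:ℝ)*((TT x y : ℝ) - K)))) / cX d K ^ 2) := by
        simp_rw [← Finset.mul_sum]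
        rw [mul_div_assoc]
    _ ≤ (C * (K/S)^2 * 200^d * (2:ℝ)^(-(K:ℝ)) * (2:ℝ)^((3/2:ℝ)*j0)) *
        (7 * ((K:ℝ)+2)^(d-1) * (1/2)^K) := mul_le_mul_of_nonneg_left hpc (by positivity)
    _ = (C * 200^d * (2:ℝ)^((3/2:ℝ)*j0) * 7) * (((K:ℝ)/S)^2 * ((K:ℝ)+2)^(d-1)) * (1/4)^K := by
        rw [h2K]
        have : ((1:ℝ)/4)^K = (1/2)^K * (1/2)^K := by rw [← mul_pow]; norm_num
        rw [this]; ring
    _ ≤ (C * 200^d * (2:ℝ)^((3/2:ℝ)*j0) * 7) * (2^(d-1) / c^2) * (1/4)^K :=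
        mul_le_mul_of_nonneg_right (mul_le_mul_of_nonneg_left hKS (by positivity)) (by positivity)
    _ = _ := by ring


end Sol_noise_avg

alias noise_avg := Sol_noise_avg.noise_avg

end Tus
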