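import Pool.Agent.Tus.Defs
open MeasureTheory Real ProbabilityTheory
open scoped ENNReal BigOperators

namespace Tus
namespace Sol_subspace_select



theorem ss_parseval {n : ℕ} (b : OrthonormalBasis (Fin n) ℝ (EuclideanSpace ℝ (Fin n)))
    (x y : Fin n → ℝ) :
    ∑ k, (∑ i, b k i * x i) * (∑ i, b k i * y i) = ∑ i, x i * y i := by
  have h := b.sum_inner_mul_inner (WithLp.toLp 2 x) (WithLp.toLp 2 y)
  simp only [PiLp.inner_apply, RCLike.inner_apply, conj_trivial] at h
  rw [← Finset.sum_congr rfl (fun i _ => mul_comm (y i) (x i)), ← h]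
  refine Finset.sum_congr rfl fun k _ => ?_
  congr 1
  refine Finset.sum_congr rfl fun i _ => mul_comm _ _

theorem ss_eig {n : ℕ} (E : Fin n → Fin n → ℝ) (hsym : ∀ i j, E i j = E j i) :
    ∃ (b : OrthonormalBasis (Fin n) ℝ (EuclideanSpace ℝ (Fin n))) (lam : Fin n → ℝ),
      ∀ k i, ∑ j, E i j * b k j = lam k * b k i := by
  have hA : (Matrix.of E).IsHermitian := by
    ext i j
    simp [Matrix.conjTranspose_apply, hsym i j]
  refine ⟨hA.eigenvectorBasis, hA.eigenvalues, fun k i => ?_⟩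
  have h := congrFun (hA.mulVec_eigenvectorBasis k) i
  simp only [Matrix.mulVec, dotProduct, Matrix.of_apply, Pi.smul_apply, smul_eq_mul] at h
  exact h

theorem ss_quad {n : ℕ} (E : Fin n → Fin n → ℝ) (hsym : ∀ i j, E i j = E j i)
    (b : OrthonormalBasis (Fin n) ℝ (EuclideanSpace ℝ (Fin n))) (lam : Fin n → ℝ)
    (he : ∀ k i, ∑ j, E i j * b k j = lam k * b k i) (x : Fin n → ℝ) :
    ∑ i, x i * ∑ j, E i j * x j = ∑ k, lam k * (∑ i, b k i * x i) ^ 2 := by
  rw [← ss_parseval b x (fun i => ∑ j, E i j * x j)]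
  refine Finset.sum_congr rfl fun k _ => ?_
  have h1 : ∑ i, b k i * ∑ j, E i j * x j = lam k * ∑ i, b k i * x i := by
    simp only [Finset.mul_sum]
    rw [Finset.sum_comm]
    refine Finset.sum_congr rfl fun j _ => ?_
    have h2 := he k j
    calc ∑ i, b k i * (E i j * x j) = (∑ i, E j i * b k i) * x j := by
          rw [Finset.sum_mul]
          refine Finset.sum_congr rfl fun i _ => ?_
          rw [hsym j i]; ring
      _ = _ := by rw [h2]; ring
  rw [h1]; ring

theorem ss_frob {n : ℕ} (E : Fin n → Fin n → ℝ)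
    (b : OrthonormalBasis (Fin n) ℝ (EuclideanSpace ℝ (Fin n))) (lam : Fin n → ℝ)
    (he : ∀ k i, ∑ j, E i j * b k j = lam k * b k i) :
    ∑ k, lam k ^ 2 = ∑ i, ∑ j, E i j ^ 2 := by
  have h1 : ∀ i, ∑ j, E i j ^ 2 = ∑ k, lam k ^ 2 * b k i ^ 2 := by
    intro i
    have h2 := ss_parseval b (E i) (E i)
    have h3 : ∑ j, E i j ^ 2 = ∑ j, E i j * E i j := by
      refine Finset.sum_congr rfl fun j _ => by ring
    rw [h3, ← h2]
    refine Finset.sum_congr rfl fun k _ => ?_
    have h4 : ∑ j, b k j * E i j = lam k * b k i := by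
      rw [← he k i]
      refine Finset.sum_congr rfl fun j _ => by ring
    rw [h4]; ring
  rw [Finset.sum_congr rfl (fun i _ => h1 i), Finset.sum_comm]
  refine Finset.sum_congr rfl fun k _ => ?_
  rw [← Finset.mul_sum]
  have h5 : ∑ i, b k i ^ 2 = 1 := by
    have h6 := b.orthonormal.1 k
    rw [EuclideanSpace.norm_eq, Real.sqrt_eq_one] at h6
    simpa using h6
  rw [h5, mul_one]

theorem ss_card {n : ℕ} (lam : Fin n → ℝ) (c0 ε : ℝ) (hc : 0 < c0) (h : ∑ k, lam k ^ 2 ≤ ε) :
    ((Finset.univ.filter (fun k => c0 / 2 < |lam k|)).card : ℝ) ≤ 4 * ε / c0 ^ 2 := by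
  rw [le_div_iff₀ (by positivity)]
  have h1 : ((Finset.univ.filter (fun k => c0 / 2 < |lam k|)).card : ℝ) * (c0 / 2) ^ 2 ≤
      ∑ k ∈ Finset.univ.filter (fun k => c0 / 2 < |lam k|), lam k ^ 2 := by
    rw [← nsmul_eq_mul]
    apply Finset.card_nsmul_le_sum
    intro k hk
    rw [Finset.mem_filter] at hk
    rw [← sq_abs (lam k)]
    exact pow_le_pow_left₀ (by positivity) hk.2.le 2
  have h2 : ∑ k ∈ Finset.univ.filter (fun k => c0 / 2 < |lam k|), lam k ^ 2 ≤ ∑ k, lam k ^ 2 :=
    Finset.sum_le_sum_of_subset_of_nonneg (Finset.filter_subset _ _) (fun _ _ _ => sq_nonneg _)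
  nlinarith

theorem ss_ker {n m : ℕ} {ι : Type} [Fintype ι] (f : ι → Fin n → ℝ)
    (hm : m + Fintype.card ι ≤ n) :
    ∃ J : Fin m → Fin n → ℝ, (∀ i j, ∑ l, J i l * J j l = if i = j then 1 else 0) ∧
      ∀ i k, ∑ l, J i l * f k l = 0 := by
  let Φ : EuclideanSpace ℝ (Fin n) →ₗ[ℝ] (ι → ℝ) :=
    { toFun := fun x k => ∑ l, x l * f k l
      map_add' := by
        intro x y
        funext k
        simp only [PiLp.add_apply, Pi.add_apply, add_mul, Finset.sum_add_distrib]
      map_smul' := by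
        intro c x
        funext k
        simp only [PiLp.smul_apply, Pi.smul_apply, smul_eq_mul, RingHom.id_apply,
          Finset.mul_sum, mul_assoc] }
  have h1 := Φ.finrank_range_add_finrank_ker
  have h2 : Module.finrank ℝ (LinearMap.range Φ) ≤ Fintype.card ι := by
    have := Submodule.finrank_le (LinearMap.range Φ)
    rwa [Module.finrank_fintype_fun_eq_card] at this
  rw [finrank_euclideanSpace_fin] at h1
  have h3 : m ≤ Module.finrank ℝ (LinearMap.ker Φ) := by omega
  let OB := stdOrthonormalBasis ℝ (LinearMap.ker Φ)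
  refine ⟨fun i l => ((OB (Fin.castLE h3 i) : LinearMap.ker Φ) : EuclideanSpace ℝ (Fin n)) l,
    ?_, ?_⟩
  · intro i j
    have h4 := orthonormal_iff_ite.1 OB.orthonormal (Fin.castLE h3 i) (Fin.castLE h3 j)
    rw [Submodule.coe_inner, PiLp.inner_apply] at h4
    simp only [RCLike.inner_apply, conj_trivial] at h4
    have h5 : (Fin.castLE h3 i = Fin.castLE h3 j) ↔ i = j := by
      constructor
      · intro h; exact Fin.castLE_injective h3 h
      · intro h; rw [h]
    simp only [h5] at h4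
    rw [← h4]
    refine Finset.sum_congr rfl fun l _ => mul_comm _ _
  · intro i k
    have h4 : Φ ((OB (Fin.castLE h3 i) : LinearMap.ker Φ) : EuclideanSpace ℝ (Fin n)) = 0 :=
      (OB (Fin.castLE h3 i)).2
    exact congrFun h4 k

theorem subspace_select {n m M : ℕ} (G : Fin n → Fin n → ℝ) (hsym : ∀ i j, G i j = G j i) (c0 ε : ℝ)
    (hc : 0 < c0) (hd : ∀ i, c0 ≤ G i i) (ho : ∑ i, ∑ j, (if i = j then 0 else G i j ^ 2) ≤ ε)
    (v : Fin M → Fin n → ℝ) (hm : (m:ℝ) + M + 4 * ε / c0^2 ≤ n) :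
    ∃ J : Fin m → Fin n → ℝ, (∀ i j, ∑ l, J i l * J j l = if i = j then 1 else 0) ∧
      (∀ i k, ∑ l, J i l * v k l = 0) ∧
      ∀ t : Fin m → ℝ, c0 / 2 * ∑ i, t i ^ 2 ≤
        ∑ l, ∑ l', G l l' * (∑ i, t i * J i l) * (∑ i, t i * J i l') := by
  set E : Fin n → Fin n → ℝ := fun i j => if i = j then 0 else G i j with hE
  have hEs : ∀ i j, E i j = E j i := by
    intro i j
    simp only [hE]
    by_cases h : i = j
    · rw [if_pos h, if_pos h.symm]
    · rw [if_neg h, if_neg (Ne.symm h), hsym]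
  obtain ⟨b, lam, he⟩ := ss_eig E hEs
  have hfr := ss_frob E b lam he
  have hE2 : ∑ i, ∑ j, E i j ^ 2 ≤ ε := by
    refine le_trans (le_of_eq ?_) ho
    refine Finset.sum_congr rfl fun i _ => Finset.sum_congr rfl fun j _ => ?_
    simp only [hE]
    by_cases h : i = j
    · rw [if_pos h, if_pos h]; norm_num
    · rw [if_neg h, if_neg h]
  rw [← hfr] at hE2
  have hcard := ss_card lam c0 ε hc hE2
  set Sc : Finset (Fin n) := Finset.univ.filter (fun k => c0 / 2 < |lam k|) with hSc
  have hcount : m + Fintype.card ({k // k ∈ Sc} ⊕ Fin M) ≤ n := by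
    rw [Fintype.card_sum, Fintype.card_coe, Fintype.card_fin]
    have : (m : ℝ) + (Sc.card + M) ≤ n := by linarith
    exact_mod_cast this
  obtain ⟨J, hJ1, hJ2⟩ := ss_ker (Sum.elim (fun (k : {k // k ∈ Sc}) (l : Fin n) => b k.1 l) v)
    hcount
  refine ⟨J, hJ1, fun i k => hJ2 i (Sum.inr k), ?_⟩
  intro t
  set x : Fin n → ℝ := fun l => ∑ i, t i * J i l with hx
  have hxx : ∑ l, x l ^ 2 = ∑ i, t i ^ 2 := by
    calc ∑ l, x l ^ 2 = ∑ l, ∑ i, ∑ j, (t i * t j) * (J i l * J j l) := by
          refine Finset.sum_congr rfl fun l _ => ?_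
          simp only [hx]
          rw [sq, Finset.sum_mul_sum]
          refine Finset.sum_congr rfl fun i _ => Finset.sum_congr rfl fun j _ => by ring
      _ = ∑ i, ∑ j, (t i * t j) * ∑ l, J i l * J j l := by
          rw [Finset.sum_comm]
          refine Finset.sum_congr rfl fun i _ => ?_
          rw [Finset.sum_comm]
          refine Finset.sum_congr rfl fun j _ => ?_
          rw [Finset.mul_sum]
      _ = ∑ i, t i ^ 2 := by
          refine Finset.sum_congr rfl fun i _ => ?_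
          simp only [hJ1, mul_ite, mul_one, mul_zero]
          rw [Finset.sum_ite_eq, if_pos (Finset.mem_univ i)]
          ring
  have hxk : ∀ k ∈ Sc, ∑ l, b k l * x l = 0 := by
    intro k hk
    have h1 : ∑ l, b k l * x l = ∑ i, t i * ∑ l, J i l * b k l := by
      simp only [hx, Finset.mul_sum]
      rw [Finset.sum_comm]
      refine Finset.sum_congr rfl fun i _ => Finset.sum_congr rfl fun l _ => by ring
    rw [h1]
    apply Finset.sum_eq_zero
    intro i _
    have h2 : ∑ l, J i l * b k l = 0 := hJ2 i (Sum.inl ⟨k, hk⟩)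
    rw [h2, mul_zero]
  have hquad := ss_quad E hEs b lam he x
  have hpar := ss_parseval b x x
  have hsplit : ∑ l, ∑ l', G l l' * x l * x l' =
      ∑ l, G l l * x l ^ 2 + ∑ l, x l * ∑ l', E l l' * x l' := by
    rw [← Finset.sum_add_distrib]
    refine Finset.sum_congr rfl fun l _ => ?_
    have h1 : ∀ l', G l l' * x l * x l' =
        (if l = l' then G l l * x l ^ 2 else 0) + x l * (E l l' * x l') := by
      intro l'
      simp only [hE]
      by_cases h : l = l'
      · rw [if_pos h, if_pos h, ← h]; ring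
      · rw [if_neg h, if_neg h]; ring
    rw [Finset.sum_congr rfl (fun l' _ => h1 l'), Finset.sum_add_distrib, Finset.sum_ite_eq,
      if_pos (Finset.mem_univ l), Finset.mul_sum]
  have hlow : -(c0 / 2) * ∑ k, (∑ i, b k i * x i) ^ 2 ≤
      ∑ k, lam k * (∑ i, b k i * x i) ^ 2 := by
    rw [Finset.mul_sum]
    apply Finset.sum_le_sum
    intro k _
    by_cases hk : k ∈ Sc
    · rw [hxk k hk]; norm_num
    · have h1 : |lam k| ≤ c0 / 2 := by
        by_contra h
        push Not at h
        exact hk (Finset.mem_filter.2 ⟨Finset.mem_univ _, h⟩)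
      exact mul_le_mul_of_nonneg_right (abs_le.1 h1).1 (sq_nonneg _)
  have hpar2 : ∑ k, (∑ i, b k i * x i) ^ 2 = ∑ l, x l ^ 2 := by
    calc ∑ k, (∑ i, b k i * x i) ^ 2 = ∑ k, (∑ i, b k i * x i) * (∑ i, b k i * x i) :=
          Finset.sum_congr rfl fun k _ => by ring
      _ = ∑ l, x l * x l := hpar
      _ = _ := Finset.sum_congr rfl fun l _ => by ring
  have hdiag : c0 * ∑ l, x l ^ 2 ≤ ∑ l, G l l * x l ^ 2 := by
    rw [Finset.mul_sum]
    apply Finset.sum_le_sum
    intro l _
    exact mul_le_mul_of_nonneg_right (hd l) (sq_nonneg _)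
  rw [hpar2, ← hquad] at hlow
  change c0 / 2 * ∑ i, t i ^ 2 ≤ ∑ l, ∑ l', G l l' * x l * x l'
  rw [hsplit, ← hxx]
  linarith


end Sol_subspace_select

alias subspace_select := Sol_subspace_select.subspace_select

end Tus
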