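import Pool.Agent.Tus.Defs
import Pool.Agent.Tus.L_noise_avg
import Pool.Agent.Tus.L_nz_int
import Pool.Agent.Tus.L_good_count
import Pool.Agent.Tus.L_gm_avg
import Pool.Agent.Tus.L_gm_quad
import Pool.Agent.Tus.L_low_span
import Pool.Agent.Tus.L_select
import Pool.Agent.Tus.L_subspace_select
import Pool.Agent.Tus.L_sh_bounds
import Pool.Agent.Tus.L_card_X
open MeasureTheory Real ProbabilityTheory
open scoped ENNReal BigOperators

namespace Tus
namespace Sol_family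













theorem family (d : ℕ) (hd : 3 ≤ d) (θ : ℝ) (hθ : 0 < θ) : ∃ (a η c1 : ℝ) (K1 : ℕ),
    0 < a ∧ 0 < η ∧ 0 < c1 ∧ 1 ≤ K1 ∧ ∀ K : ℕ, K1 ≤ K → ∃ (n m k K0 : ℕ), 0 < m ∧ m + k = n ∧ n ≤ 2 * m ∧
    3 ≤ n ∧ η * 2^K * (K:ℝ)^(d-1) ≤ n ∧ n ≤ 2^K * (K+1)^(d-1) ∧ 1 ≤ K0 ∧ K0 ≤ K ∧
    ∃ (P : Fin n → Pt d K) (J : Fin m → Fin n → ℝ),
      (∀ i j, ∑ l, J i l * J j l = if i = j then 1 else 0) ∧
      (∀ i x, ∑ l, J i l * Low K0 (P l) x = 0) ∧
      (∀ t : Fin m → ℝ, c1 * (K * (1/4)^K) * ∑ i, t i ^ 2 ≤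
        ∑ R : Bx d K, (∑ l, (∑ i, t i * J i l) * (Real.sqrt (a * K / sh d K) * (1/2)^K * wR R (P l)))^2) ∧
      4 * ∑ l, ∫ α, nz (Real.sqrt (a * K / sh d K)) K0 α (P l) ^ 2 ∂(gam (Bx d K))
        ≤ θ^2 * (c1 * (K * (1/4)^K)) * n := by
  obtain ⟨a, ha, hnoise⟩ := noise_avg d hd
  have hd1 : 1 ≤ d := by omega
  obtain ⟨c0, hc0def⟩ : ∃ c0 : ℝ, c0 = (1/12:ℝ)^d / 2 := ⟨_, rfl⟩
  have hc0 : 0 < c0 := by rw [hc0def]; positivity
  have hc0le : c0 ≤ 1 := by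
    rw [hc0def]
    have : (1/12:ℝ)^d ≤ 1 := pow_le_one₀ (by norm_num) (by norm_num)
    linarith
  obtain ⟨B, hBdef⟩ : ∃ B : ℝ, B = 6^d := ⟨_, rfl⟩
  have hB : 1 ≤ B := by rw [hBdef]; exact one_le_pow₀ (by norm_num)
  have hB0 : 0 < B := by linarith
  obtain ⟨η1, hη1⟩ : ∃ η1 : ℝ, η1 = c0^4/(32*B) := ⟨_, rfl⟩
  have hη1pos : 0 < η1 := by rw [hη1]; positivity
  have hη1B : η1 * (32 * B) = c0^4 := by rw [hη1]; field_simp
  have hη1le : η1 ≤ 1 := by
    rw [hη1, div_le_one (by positivity)]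
    have : c0^4 ≤ 1 := pow_le_one₀ hc0.le hc0le
    linarith
  obtain ⟨Q, hQ⟩ : ∃ Q : ℝ, Q = (d:ℝ)^(d-1) * 2^d := ⟨_, rfl⟩
  have hdR : (1:ℝ) ≤ d := by exact_mod_cast hd1
  have hQ0 : 0 < Q := by rw [hQ]; positivity
  obtain ⟨η, hη⟩ : ∃ η : ℝ, η = η1 / (2 * Q) := ⟨_, rfl⟩
  have hηpos : 0 < η := by rw [hη]; positivity
  have hη1η : η1 = 2 * Q * η := by rw [hη]; field_simp
  obtain ⟨j0, hj0⟩ : ∃ j0 : ℕ, 8 * 2^d / η < (2:ℝ)^j0 := pow_unbounded_of_one_lt _ one_lt_two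
  rw [div_lt_iff₀ hηpos] at hj0
  obtain ⟨C, hC, hCK⟩ := hnoise j0
  obtain ⟨c1, hc1⟩ : ∃ c1 : ℝ, c1 = a * c0 / 2 := ⟨_, rfl⟩
  have hc1pos : 0 < c1 := by rw [hc1]; positivity
  obtain ⟨K2, hK2⟩ : ∃ K2 : ℕ, 4 / η < (2:ℝ)^K2 := pow_unbounded_of_one_lt _ one_lt_two
  rw [div_lt_iff₀ hηpos] at hK2
  obtain ⟨K3, hK3⟩ := exists_nat_ge (8*C/(c0*θ^2*c1))
  refine ⟨a, η, c1, j0 + 1 + K2 + K3, ha, hηpos, hc1pos, by omega, ?_⟩
  intro K hK
  have hKj : j0 + 1 ≤ K := by omega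
  have hKK2 : K2 ≤ K := by omega
  have hKK3 : K3 ≤ K := by omega
  have hK1 : 1 ≤ K := by omega
  have hKR : (1:ℝ) ≤ K := by exact_mod_cast hK1
  obtain ⟨hSlow, hSup, hS1⟩ := sh_bounds d K hd1
  have hS1R : (1:ℝ) ≤ (sh d K : ℝ) := by exact_mod_cast hS1
  obtain ⟨S, hS⟩ : ∃ S : ℝ, S = (sh d K : ℝ) := ⟨_, rfl⟩
  rw [← hS] at hSlow hSup hS1R
  have hS0 : 0 < S := by linarith
  obtain ⟨E, hE⟩ : ∃ E : ℝ, E = ((K:ℝ)+1)^(d-1) := ⟨_, rfl⟩
  have hE1 : 1 ≤ E := by rw [hE]; exact one_le_pow₀ (by linarith)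
  rw [← hE] at hSlow hSup
  have hEQ : E ≤ Q * S := by
    rw [div_le_iff₀ (by positivity)] at hSlow
    calc E ≤ 2^d * S * (d:ℝ)^(d-1) := hSlow
      _ = Q * S := by rw [hQ]; ring
  obtain ⟨T, hT⟩ : ∃ T : ℝ, T = (2:ℝ)^K := ⟨_, rfl⟩
  have hT0 : 0 < T := by rw [hT]; positivity
  have hT4 : 4 ≤ η * T := by
    have h1 : (2:ℝ)^K2 ≤ T := by rw [hT]; exact pow_le_pow_right₀ (by norm_num) hKK2
    nlinarith
  obtain ⟨n, hn⟩ : ∃ n : ℕ, n = ⌊η1 * T * S⌋₊ := ⟨_, rfl⟩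
  have hnle : (n:ℝ) ≤ η1 * T * S := by rw [hn]; exact Nat.floor_le (by positivity)
  have hnlt : η1 * T * S < n + 1 := by rw [hn]; exact Nat.lt_floor_add_one _
  have hX4 : 4 ≤ η * T * E := by nlinarith
  have h2X : 2 * (η * T * E) ≤ η1 * T * S := by
    have h1 : η * T * E ≤ η * T * (Q * S) := mul_le_mul_of_nonneg_left hEQ (by positivity)
    rw [hη1η]
    nlinarith
  have hnge : η * T * E ≤ n := by linarith
  have hn4R : (4:ℝ) ≤ n := by linarith
  have hn4 : 4 ≤ n := by exact_mod_cast hn4R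
  obtain ⟨m, hm⟩ : ∃ m : ℕ, m = (n + 1) / 2 := ⟨_, rfl⟩
  have hm1 : 0 < m := by omega
  have hm2 : m ≤ n := by omega
  have hm3 : n ≤ 2 * m := by omega
  have hm4 : 2 * m ≤ n + 1 := by omega
  have hm4R : 2 * (m:ℝ) ≤ n + 1 := by exact_mod_cast hm4
  obtain ⟨K0, hK0⟩ : ∃ K0 : ℕ, K0 = K - j0 := ⟨_, rfl⟩
  have hTK0 : T = 2^K0 * 2^j0 := by
    rw [hT, ← pow_add]; congr 1; omega
  obtain ⟨v, hv⟩ := low_span d K K0 hd1
  have hM : ((2^K0 * 2^d * (K+1)^(d-1) : ℕ) : ℝ) * 8 ≤ n := by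
    push_cast
    rw [← hE]
    calc (2:ℝ)^K0 * 2^d * E * 8 = 2^K0 * (8 * 2^d) * E := by ring
      _ ≤ 2^K0 * (2^j0 * η) * E := by
          apply mul_le_mul_of_nonneg_right _ (by linarith)
          exact mul_le_mul_of_nonneg_left hj0.le (by positivity)
      _ = η * T * E := by rw [hTK0]; ring
      _ ≤ n := hnge
  -- the good set
  have hcX : 0 < cX d K := by rw [card_X]; positivity
  have hgc := good_count d K hd1
  rw [← hc0def] at hgc
  obtain ⟨good, hgood⟩ : ∃ good : Finset (Pt d K), good = Finset.univ.filter (fun p : Pt d K => c0 ≤ Gm p p) :=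
    ⟨_, rfl⟩
  rw [← hgood] at hgc
  have hgcpos : (0:ℝ) < good.card := lt_of_lt_of_le (by positivity) hgc
  have hgne : good.Nonempty := by
    rw [← Finset.card_pos]; exact_mod_cast hgcpos
  obtain ⟨s, hs⟩ : ∃ s : ℝ, s = Real.sqrt (a * K / sh d K) := ⟨_, rfl⟩
  have hs2 : s^2 = a * K / sh d K := by rw [hs]; exact Real.sq_sqrt (by positivity)
  obtain ⟨F, hF⟩ : ∃ F : Pt d K → ℝ, ∀ p, F p = ∫ α, nz s K0 α p ^ 2 ∂(gam (Bx d K)) := ⟨_, fun _ => rfl⟩
  have hF0 : ∀ p, 0 ≤ F p := fun p => by rw [hF]; exact integral_nonneg fun α => sq_nonneg _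
  obtain ⟨P, hPg, hPF, hPG⟩ := select good hgne n F (fun p q => Gm p q ^ 2) hF0
    (fun _ _ => sq_nonneg _)
  -- off-diagonal sum
  have hgm := gm_avg d K hd1
  rw [← hBdef, ← hT, ← hS, div_le_div_iff₀ (by positivity) (by positivity)] at hgm
  have hXY : ∑ p ∈ good, ∑ q ∈ good, Gm p q ^ 2 ≤ ∑ p : Pt d K, ∑ q : Pt d K, Gm p q ^ 2 := by
    refine (Finset.sum_le_sum (g := fun p => ∑ q : Pt d K, Gm p q ^ 2) fun p _ => ?_).trans ?_
    · exact Finset.sum_le_sum_of_subset_of_nonneg (Finset.subset_univ _) fun _ _ _ => sq_nonneg _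
    · exact Finset.sum_le_sum_of_subset_of_nonneg (Finset.subset_univ _) fun _ _ _ =>
        Finset.sum_nonneg fun _ _ => sq_nonneg _
  have hgc2 : (c0 * cX d K)^2 ≤ (good.card : ℝ)^2 := pow_le_pow_left₀ (by positivity) hgc 2
  have hoff : ∑ i, ∑ j, (if i = j then 0 else Gm (P i) (P j) ^ 2) ≤ c0^2 * n / 16 := by
    refine hPG.trans ?_
    have h1 : (∑ v ∈ good, ∑ w ∈ good, Gm v w ^ 2) / (good.card : ℝ)^2 ≤ B / (T * S * c0^2) := by
      rw [div_le_div_iff₀ (pow_pos hgcpos 2) (by positivity)]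
      calc (∑ v ∈ good, ∑ w ∈ good, Gm v w ^ 2) * (T * S * c0^2)
          ≤ (∑ p : Pt d K, ∑ q : Pt d K, Gm p q ^ 2) * (T * S * c0^2) :=
            mul_le_mul_of_nonneg_right hXY (by positivity)
        _ = ((∑ p : Pt d K, ∑ q : Pt d K, Gm p q ^ 2) * (T * S)) * c0^2 := by ring
        _ ≤ (B * cX d K ^ 2) * c0^2 := mul_le_mul_of_nonneg_right hgm (by positivity)
        _ = B * (c0 * cX d K)^2 := by ring
        _ ≤ B * (good.card : ℝ)^2 := mul_le_mul_of_nonneg_left hgc2 hB0.le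
    calc 2 * (n:ℝ)^2 * ((∑ v ∈ good, ∑ w ∈ good, Gm v w ^ 2) / (good.card : ℝ)^2)
        ≤ 2 * (n:ℝ)^2 * (B / (T * S * c0^2)) := mul_le_mul_of_nonneg_left h1 (by positivity)
      _ = (n:ℝ) * (2 * n * B / (T * S * c0^2)) := by ring
      _ ≤ (n:ℝ) * (c0^2 / 16) := by
          apply mul_le_mul_of_nonneg_left _ (by positivity)
          rw [div_le_div_iff₀ (by positivity) (by norm_num)]
          calc 2 * (n:ℝ) * B * 16 = n * (32 * B) := by ring
            _ ≤ (η1 * T * S) * (32 * B) := mul_le_mul_of_nonneg_right hnle (by positivity)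
            _ = (η1 * (32 * B)) * (T * S) := by ring
            _ = c0^2 * (T * S * c0^2) := by rw [hη1B]; ring
      _ = c0^2 * n / 16 := by ring
  have hPd : ∀ i, c0 ≤ Gm (P i) (P i) := by
    intro i
    have := hPg i
    rw [hgood, Finset.mem_filter] at this
    exact this.2
  have hGsym : ∀ p q : Pt d K, Gm p q = Gm q p := by
    intro p q
    unfold Gm
    congr 1
    exact Finset.sum_congr rfl fun R _ => mul_comm _ _
  have hsum : (m:ℝ) + ((2^K0 * 2^d * (K+1)^(d-1) : ℕ) : ℝ) + 4 * (c0^2 * n / 16) / c0^2 ≤ n := by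
    have h1 : 4 * (c0^2 * (n:ℝ) / 16) / c0^2 = n / 4 := by field_simp; norm_num
    rw [h1]
    linarith
  obtain ⟨J, hJ1, hJ2, hJ3⟩ := subspace_select (n := n) (m := m) (M := 2^K0 * 2^d * (K+1)^(d-1))
    (fun l l' => Gm (P l) (P l')) (fun i j => hGsym _ _) c0 (c0^2 * n / 16) hc0 hPd hoff
    (fun k l => v k (P l)) hsum
  refine ⟨n, m, n - m, K0, hm1, by omega, hm3, by omega, ?_, ?_, by omega, by omega, P, J, hJ1,
    ?_, ?_, ?_⟩
  · refine le_trans ?_ hnge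
    rw [← hT, hE]
    apply mul_le_mul_of_nonneg_left _ (by positivity)
    exact pow_le_pow_left₀ (by linarith) (by linarith) _
  · have h1 : (n:ℝ) ≤ T * E := by
      calc (n:ℝ) ≤ η1 * T * S := hnle
        _ ≤ 1 * T * S := by
            apply mul_le_mul_of_nonneg_right _ hS0.le
            exact mul_le_mul_of_nonneg_right hη1le hT0.le
        _ ≤ T * E := by rw [one_mul]; exact mul_le_mul_of_nonneg_left hSup hT0.le
    have h2 : (n:ℝ) ≤ ((2^K * (K+1)^(d-1) : ℕ) : ℝ) := by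
      push_cast
      rw [← hT, ← hE]; exact h1
    exact_mod_cast h2
  · intro i x
    obtain ⟨c, hc⟩ := hv x
    calc ∑ l, J i l * Low K0 (P l) x = ∑ l, ∑ k, J i l * (c k * v k (P l)) := by
          refine Finset.sum_congr rfl fun l _ => ?_
          rw [hc, Finset.mul_sum]
      _ = ∑ k, ∑ l, J i l * (c k * v k (P l)) := Finset.sum_comm
      _ = ∑ k, c k * ∑ l, J i l * v k (P l) := by
          refine Finset.sum_congr rfl fun k _ => ?_
          rw [Finset.mul_sum]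
          exact Finset.sum_congr rfl fun l _ => by ring
      _ = 0 := Finset.sum_eq_zero fun k _ => by rw [hJ2 i k, mul_zero]
  · intro t
    rw [← hs]
    have h1 : ∑ R : Bx d K, (∑ l, (∑ i, t i * J i l) * (s * (1/2)^K * wR R (P l)))^2 =
        s^2 * (1/4)^K * ∑ R : Bx d K, (∑ l, (∑ i, t i * J i l) * wR R (P l))^2 := by
      rw [Finset.mul_sum]
      refine Finset.sum_congr rfl fun R _ => ?_
      have e : ∑ l, (∑ i, t i * J i l) * (s * (1/2)^K * wR R (P l)) =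
          (s * (1/2)^K) * ∑ l, (∑ i, t i * J i l) * wR R (P l) := by
        rw [Finset.mul_sum]
        exact Finset.sum_congr rfl fun l _ => by ring
      rw [e, mul_pow, mul_pow]
      have e2 : ((1/2:ℝ)^K)^2 = (1/4)^K := by
        rw [← pow_mul, mul_comm, pow_mul]; norm_num
      rw [e2]
    rw [h1, gm_quad hd1 P (fun l => ∑ i, t i * J i l), hs2]
    have h3 := hJ3 t
    have hne : (sh d K : ℝ) ≠ 0 := by rw [← hS]; exact hS0.ne'
    have hZ : ∀ Z : ℝ, (a * K * (1/4)^K) * Z = a * K / sh d K * (1/4)^K * (sh d K * Z) := by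
      intro Z
      rw [← hS]
      have hS' := hS0.ne'
      have : a * K / S * (1/4)^K * (S * Z) = a * K * (1/4)^K * Z * (S / S) := by ring
      rw [this, div_self hS', mul_one]
    calc c1 * (K * (1/4)^K) * ∑ i, t i ^ 2 = (a * K * (1/4)^K) * (c0 / 2 * ∑ i, t i ^ 2) := by
          rw [hc1]; ring
      _ ≤ (a * K * (1/4)^K) * ∑ l, ∑ l', Gm (P l) (P l') * (∑ i, t i * J i l) * (∑ i, t i * J i l') :=
          mul_le_mul_of_nonneg_left h3 (by positivity)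
      _ = _ := hZ _
  · rw [← hs]
    simp only [← hF]
    -- bound the average noise
    obtain ⟨A, hA⟩ : ∃ A : Pt d K → ℝ, ∀ p, A p = (∑ x : Pt d K, ∑ y : Pt d K, |Hi (K - j0) p x| *
      |Hi (K - j0) p y| * |Real.exp (a * K / sh d K * Dk x y) - 1 - a * K / sh d K * Dk x y|) / cX d K ^ 2 :=
      ⟨_, fun _ => rfl⟩
    have hN := hCK K hK1 (by omega)
    simp only [← hA] at hN
    have hA0 : ∀ p, 0 ≤ A p := fun p => by rw [hA]; positivity
    have hFA : ∀ p, F p ≤ A p := by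
      intro p
      rw [hF, (nz_int s K0 p).2, hA, hs2, hK0]
      apply div_le_div_of_nonneg_right _ (by positivity)
      refine Finset.sum_le_sum fun x _ => Finset.sum_le_sum fun y _ => ?_
      rw [← abs_mul, ← abs_mul]
      exact le_abs_self _
    have hsumF : ∑ v ∈ good, F v ≤ C * (1/4)^K * cX d K := by
      calc ∑ v ∈ good, F v ≤ ∑ v ∈ good, A v := Finset.sum_le_sum fun v _ => hFA v
        _ ≤ ∑ v, A v := Finset.sum_le_sum_of_subset_of_nonneg (Finset.subset_univ _) fun v _ _ => hA0 v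
        _ ≤ C * (1/4)^K * cX d K := by rw [div_le_iff₀ hcX] at hN; exact hN
    have havg : (∑ v ∈ good, F v) / good.card ≤ C * (1/4)^K / c0 := by
      rw [div_le_div_iff₀ hgcpos hc0]
      calc (∑ v ∈ good, F v) * c0 ≤ (C * (1/4)^K * cX d K) * c0 :=
            mul_le_mul_of_nonneg_right hsumF hc0.le
        _ = C * (1/4)^K * (c0 * cX d K) := by ring
        _ ≤ C * (1/4)^K * good.card := mul_le_mul_of_nonneg_left hgc (by positivity)
    have hKC : 8 * C / c0 ≤ θ^2 * c1 * K := by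
      have h1 : 8*C/(c0*θ^2*c1) ≤ K := hK3.trans (by exact_mod_cast hKK3)
      rw [div_le_iff₀ (by positivity)] at h1
      rw [div_le_iff₀ hc0]
      linarith
    calc 4 * ∑ l, F (P l) ≤ 4 * (2 * n * ((∑ v ∈ good, F v) / good.card)) :=
          mul_le_mul_of_nonneg_left hPF (by norm_num)
      _ ≤ 4 * (2 * n * (C * (1/4)^K / c0)) := by
          apply mul_le_mul_of_nonneg_left _ (by norm_num)
          exact mul_le_mul_of_nonneg_left havg (by positivity)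
      _ = (8 * C / c0) * ((1/4)^K * n) := by ring
      _ ≤ (θ^2 * c1 * K) * ((1/4)^K * n) := mul_le_mul_of_nonneg_right hKC (by positivity)
      _ = _ := by ring


end Sol_family

alias family := Sol_family.family

end Tus
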