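import Pool.Agent.Tus.Defs
import Pool.Agent.Tus.L_fam_P2
import Pool.Agent.Tus.L_fam_num2
import Pool.Agent.Tus.L_low_span
import Pool.Agent.Tus.L_subspace_select
import Pool.Agent.Tus.L_gm_quad
import Pool.Agent.Tus.L_sh_pos
open MeasureTheory Real ProbabilityTheory
open scoped ENNReal BigOperators

namespace Tus
namespace Sol_family2









theorem family2 (d : ℕ) (hd : 2 ≤ d) (θ : ℝ) (hθ : 0 < θ) : ∃ (a η c1 : ℝ) (K1 : ℕ),
    0 < a ∧ 0 < η ∧ 0 < c1 ∧ 1 ≤ K1 ∧ ∀ K : ℕ, K1 ≤ K → ∃ (n m k K0 : ℕ), 0 < m ∧ m + k = n ∧ n ≤ 2 * m ∧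
    3 ≤ n ∧ η * 2^K * (K:ℝ)^(d-1) ≤ n ∧ n ≤ 2^K * (K+1)^(d-1) ∧ 1 ≤ K0 ∧ K0 ≤ K ∧
    ∃ (P : Fin n → Pt d K) (J : Fin m → Fin n → ℝ),
      (∀ i j, ∑ l, J i l * J j l = if i = j then 1 else 0) ∧
      (∀ i x, ∑ l, J i l * Low K0 (P l) x = 0) ∧
      (∀ t : Fin m → ℝ, c1 * (K * (1/4)^K) * ∑ i, t i ^ 2 ≤
        ∑ R : Bx d K, (∑ l, (∑ i, t i * J i l) * (Real.sqrt (a * K / sh d K) * (1/2)^K * wR R (P l)))^2) ∧
      4 * ∑ l, ∫ α, nz (Real.sqrt (a * K / sh d K)) K0 α (P l) ^ 2 ∂(gam (Bx d K))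
        ≤ θ^2 * (c1 * (K * (1/4)^K)) * n := by
  have hd1 : 1 ≤ d := by omega
  obtain ⟨a0, ha0, hfam⟩ := fam_P2 d hd
  obtain ⟨η, j0, K1, hη, hK1, hj0, hnum⟩ := fam_num2 d hd
  obtain ⟨C, hC, hfam⟩ := hfam j0
  have hc0 : (0:ℝ) < (1/12:ℝ)^d / 2 := by positivity
  obtain ⟨c0, hc0e⟩ : ∃ c0 : ℝ, c0 = (1/12:ℝ)^d / 2 := ⟨_, rfl⟩
  rw [← hc0e] at hc0
  obtain ⟨a, hae⟩ : ∃ a : ℝ, a = min a0 (θ^2 * c0 / (8 * C)) := ⟨_, rfl⟩
  have ha : 0 < a := by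
    rw [hae]
    exact lt_min ha0 (by positivity)
  have haa0 : a ≤ a0 := by rw [hae]; exact min_le_left _ _
  have haC : a ≤ θ^2 * c0 / (8 * C) := by rw [hae]; exact min_le_right _ _
  have haC' : 8 * C * a ≤ θ^2 * c0 := by
    rw [le_div_iff₀ (by positivity)] at haC
    linarith
  refine ⟨a, η, a * c0 / 2, K1, ha, hη, by positivity, hK1, ?_⟩
  intro K hK
  obtain ⟨n, m, k, hm, hmk, hn2, hn3, hnη, hnup, hineq⟩ := hnum K hK
  obtain ⟨P, hP1, hP2, hP3⟩ := hfam a ha haa0 K (by omega) (by omega) n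
  obtain ⟨v, hv⟩ := low_span d K (K - j0) hd1
  have hshp : (0:ℝ) < sh d K := by exact_mod_cast (sh_pos d K hd1)
  rw [← hc0e] at hP1 hP3 hineq
  obtain ⟨J, hJ1, hJ2, hJ3⟩ := subspace_select (m := m) (fun l l' => Gm (P l) (P l'))
    (fun i j => by
      simp only [Gm]
      congr 1
      exact Finset.sum_congr rfl fun R _ => mul_comm _ _) c0
    (2 * (n:ℝ)^2 * (6^d / (c0^2 * ((2:ℝ)^K * sh d K)))) hc0 hP1 hP3
    (fun k l => v k (P l)) hineq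
  refine ⟨n, m, k, K - j0, hm, hmk, hn2, hn3, hnη, hnup, by omega, by omega, P, J, hJ1, ?_, ?_, ?_⟩
  · intro i x
    obtain ⟨c, hc⟩ := hv x
    have h1 : ∀ l, J i l * Low (K - j0) (P l) x = ∑ k, c k * (J i l * v k (P l)) := by
      intro l
      rw [hc (P l), Finset.mul_sum]
      exact Finset.sum_congr rfl fun k _ => by ring
    rw [Finset.sum_congr rfl fun l _ => h1 l, Finset.sum_comm]
    refine Finset.sum_eq_zero fun k _ => ?_
    rw [← Finset.mul_sum, hJ2 i k, mul_zero]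
  · intro t
    have hs2 : Real.sqrt (a * K / sh d K) ^ 2 = a * K / sh d K := Real.sq_sqrt (by positivity)
    have h1 : ∀ R : Bx d K, (∑ l, (∑ i, t i * J i l) * (Real.sqrt (a * K / sh d K) * (1/2)^K * wR R (P l)))^2
        = (a * K / sh d K * (1/4)^K) * (∑ l, (∑ i, t i * J i l) * wR R (P l))^2 := by
      intro R
      have e1 : (∑ l, (∑ i, t i * J i l) * (Real.sqrt (a * K / sh d K) * (1/2)^K * wR R (P l)))
          = (Real.sqrt (a * K / sh d K) * (1/2)^K) * ∑ l, (∑ i, t i * J i l) * wR R (P l) := by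
        rw [Finset.mul_sum]
        exact Finset.sum_congr rfl fun l _ => by ring
      rw [e1, mul_pow, mul_pow, hs2]
      have e2 : ((1/2:ℝ)^K)^2 = (1/4)^K := by
        rw [← pow_mul, mul_comm, pow_mul]; norm_num
      rw [e2]
    rw [Finset.sum_congr rfl fun R _ => h1 R, ← Finset.mul_sum, gm_quad hd1 P]
    have h2 := hJ3 t
    have e3 : a * K / sh d K * (1/4)^K * (sh d K * ∑ l, ∑ l', Gm (P l) (P l') * (∑ i, t i * J i l)
        * (∑ i, t i * J i l')) = (a * K * (1/4)^K) * ∑ l, ∑ l', Gm (P l) (P l') * (∑ i, t i * J i l)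
        * (∑ i, t i * J i l') := by
      field_simp
    rw [e3]
    calc a * c0 / 2 * (K * (1/4)^K) * ∑ i, t i ^ 2
        = (a * K * (1/4)^K) * (c0 / 2 * ∑ i, t i ^ 2) := by ring
      _ ≤ _ := mul_le_mul_of_nonneg_left h2 (by positivity)
  · calc 4 * ∑ l, ∫ α, nz (Real.sqrt (a * K / sh d K)) (K - j0) α (P l) ^ 2 ∂(gam (Bx d K))
        ≤ 4 * (C * a^2 * n * (K * (1/4)^K)) := by linarith
      _ = (8 * C * a) * (a / 2 * (K * (1/4)^K) * n) := by ring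
      _ ≤ (θ^2 * c0) * (a / 2 * (K * (1/4)^K) * n) :=
          mul_le_mul_of_nonneg_right haC' (by positivity)
      _ = θ^2 * (a * c0 / 2 * (K * (1/4)^K)) * n := by ring


end Sol_family2

alias family2 := Sol_family2.family2

end Tus
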