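import Pool.Agent.Tus.Defs
import Pool.Agent.Tus.L_gam_prob
open MeasureTheory Real ProbabilityTheory
open scoped ENNReal BigOperators

namespace Tus
namespace Sol_gauss_image




theorem gam_char {κ : Type} [Fintype κ] (c : κ → ℝ) :
    ∫ x, Complex.exp (((∑ i, c i * x i : ℝ) : ℂ) * Complex.I) ∂(gam κ)
      = Complex.exp (((-(∑ i, c i ^ 2) / 2 : ℝ) : ℂ)) := by
  have h1 : ∀ x : κ → ℝ, Complex.exp (((∑ i, c i * x i : ℝ) : ℂ) * Complex.I)
      = ∏ i, Complex.exp ((c i : ℂ) * (x i : ℂ) * Complex.I) := by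
    intro x
    rw [← Complex.exp_sum]
    congr 1
    push_cast
    rw [Finset.sum_mul]
  simp_rw [h1]
  unfold gam
  rw [integral_fintype_prod_eq_prod (f := fun i (y : ℝ) => Complex.exp ((c i : ℂ) * (y : ℂ) * Complex.I))]
  have h2 : ∀ i, ∫ y : ℝ, Complex.exp ((c i : ℂ) * (y : ℂ) * Complex.I) ∂(gaussianReal 0 1)
      = Complex.exp (((-(c i ^ 2) / 2 : ℝ) : ℂ)) := by
    intro i
    have := charFun_gaussianReal (μ := 0) (v := 1) (c i)
    rw [charFun_apply_real] at this
    rw [this]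
    congr 1
    push_cast
    ring
  simp_rw [h2]
  rw [← Complex.exp_sum]
  congr 1
  push_cast
  rw [← Finset.sum_div, Finset.sum_neg_distrib]

theorem map_eq {ι : Type} [Fintype ι] {κ : Type} [Fintype κ] (m : ℕ) (M : Fin m → ι → ℝ)
    (A : Fin m → κ → ℝ)
    (h : ∀ t : Fin m → ℝ, ∑ r, (∑ i, t i * M i r)^2 = ∑ r, (∑ i, t i * A i r)^2) :
    (gam ι).map (fun α i => ∑ r, M i r * α r) = (gam κ).map (fun α i => ∑ r, A i r * α r) := by
  have := gam_prob ι
  have := gam_prob κ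
  have m1 : Measurable (fun (α : ι → ℝ) (i : Fin m) => ∑ r, M i r * α r) := by fun_prop
  have m2 : Measurable (fun (α : κ → ℝ) (i : Fin m) => ∑ r, A i r * α r) := by fun_prop
  have : IsProbabilityMeasure ((gam ι).map (fun α (i : Fin m) => ∑ r, M i r * α r)) :=
    Measure.isProbabilityMeasure_map m1.aemeasurable
  have : IsProbabilityMeasure ((gam κ).map (fun α (i : Fin m) => ∑ r, A i r * α r)) :=
    Measure.isProbabilityMeasure_map m2.aemeasurable
  apply Measure.ext_of_charFunDual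
  ext L
  rw [charFunDual_apply, charFunDual_apply, integral_map m1.aemeasurable (by fun_prop),
    integral_map m2.aemeasurable (by fun_prop)]
  have hL : ∀ y : Fin m → ℝ, L y = ∑ i, L (Pi.single i 1) * y i := by
    intro y
    have : y = ∑ i, y i • (Pi.single i 1 : Fin m → ℝ) := by
      ext j
      simp [Finset.sum_apply, Pi.single_apply]
    conv_lhs => rw [this]
    rw [map_sum]
    refine Finset.sum_congr rfl (fun i _ => ?_)
    rw [map_smul, smul_eq_mul, mul_comm]
  have key : ∀ {κ' : Type} [Fintype κ'] (B : Fin m → κ' → ℝ) (x : κ' → ℝ),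
      L (fun i => ∑ r, B i r * x r) = ∑ r, (∑ i, L (Pi.single i 1) * B i r) * x r := by
    intro κ' _ B x
    rw [hL]
    simp_rw [Finset.mul_sum, Finset.sum_mul]
    rw [Finset.sum_comm]
    refine Finset.sum_congr rfl (fun i _ => Finset.sum_congr rfl (fun j _ => ?_))
    ring
  simp_rw [key]
  rw [gam_char, gam_char, h]

theorem gam_le {κ : Type} [Fintype κ] (U : Set (κ → ℝ)) :
    gam κ U ≤ ENNReal.ofReal ((Real.sqrt (2 * π))⁻¹) ^ (Fintype.card κ) * volume U := by
  have hs : 0 < Real.sqrt (2 * π) := Real.sqrt_pos.mpr (by positivity)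
  set c : ℝ≥0∞ := ENNReal.ofReal ((Real.sqrt (2 * π))⁻¹) with hc
  have hc0 : c ≠ 0 := by
    rw [hc]
    exact (ENNReal.ofReal_pos.mpr (inv_pos.mpr hs)).ne'
  have hct : c ≠ ⊤ := ENNReal.ofReal_ne_top
  have h1 : ∀ s : Set ℝ, gaussianReal 0 1 s ≤ c * volume s := by
    intro s
    rw [gaussianReal_apply _ (by norm_num) s, ← setLIntegral_const]
    refine lintegral_mono (fun x => ?_)
    rw [gaussianPDF, hc]
    refine ENNReal.ofReal_le_ofReal ?_
    rw [gaussianPDFReal]
    simp only [NNReal.coe_one, mul_one]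
    have : Real.exp (-(x - 0) ^ 2 / 2) ≤ 1 := by
      rw [Real.exp_le_one_iff]
      nlinarith [sq_nonneg (x - 0)]
    nlinarith [inv_pos.mpr hs]
  have hCt : c ^ (Fintype.card κ) ≠ ⊤ := ENNReal.pow_ne_top hct
  have hC0 : c ^ (Fintype.card κ) ≠ 0 := pow_ne_zero _ hc0
  have h2 : (c ^ (Fintype.card κ))⁻¹ • (gam κ).toOuterMeasure ≤
      OuterMeasure.pi (fun _ : κ => (volume : Measure ℝ).toOuterMeasure) := by
    rw [OuterMeasure.le_pi]
    intro s _
    rw [OuterMeasure.smul_apply, smul_eq_mul]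
    have h3 : (gam κ).toOuterMeasure (Set.pi Set.univ s) = ∏ i, gaussianReal 0 1 (s i) := by
      show (gam κ) (Set.pi Set.univ s) = _
      unfold gam
      rw [Measure.pi_pi]
    rw [h3]
    have h4 : ∏ i, gaussianReal 0 1 (s i) ≤ c ^ (Fintype.card κ) * ∏ i, volume (s i) := by
      calc ∏ i, gaussianReal 0 1 (s i) ≤ ∏ i, (c * volume (s i)) :=
            Finset.prod_le_prod' (fun i _ => h1 (s i))
        _ = _ := by
          rw [Finset.prod_mul_distrib, Finset.prod_const, Finset.card_univ]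
    calc (c ^ (Fintype.card κ))⁻¹ * ∏ i, gaussianReal 0 1 (s i)
        ≤ (c ^ (Fintype.card κ))⁻¹ * (c ^ (Fintype.card κ) * ∏ i, volume (s i)) := by gcongr
      _ = ∏ i, volume (s i) := by
        rw [← mul_assoc, ENNReal.inv_mul_cancel hC0 hCt, one_mul]
      _ = _ := rfl
  have h5 : (c ^ (Fintype.card κ))⁻¹ * gam κ U ≤ volume U := by
    have h6 := h2 U
    rw [OuterMeasure.smul_apply, smul_eq_mul] at h6
    refine h6.trans ?_
    rw [volume_pi, Measure.pi_def]
    exact le_toMeasure_apply _ _ _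
  calc gam κ U = c ^ (Fintype.card κ) * ((c ^ (Fintype.card κ))⁻¹ * gam κ U) := by
        rw [← mul_assoc, ENNReal.mul_inv_cancel hC0 hCt, one_mul]
    _ ≤ _ := by gcongr

open scoped MatrixOrder ComplexOrder Matrix.Norms.L2Operator in
theorem exists_A {ι : Type} [Fintype ι] (m : ℕ) (M : Fin m → ι → ℝ) (ρ : ℝ) (hρ : 0 < ρ)
    (hM : ∀ t : Fin m → ℝ, ρ^2 * ∑ i, t i ^ 2 ≤ ∑ r, (∑ i, t i * M i r)^2) :
    ∃ A : Matrix (Fin m) (Fin m) ℝ, ρ ^ m ≤ |A.det| ∧
      ∀ t : Fin m → ℝ, ∑ r, (∑ i, t i * M i r)^2 = ∑ r, (∑ i, t i * A i r)^2 := by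
  classical
  set N : Matrix (Fin m) ι ℝ := Matrix.of M with hN
  set S : Matrix (Fin m) (Fin m) ℝ := N * N.conjTranspose with hS
  have hSpsd : S.PosSemidef := Matrix.posSemidef_self_mul_conjTranspose N
  obtain ⟨B, hB⟩ : ∃ B : Matrix (Fin m) (Fin m) ℝ, S = B.conjTranspose * B :=
    CStarAlgebra.nonneg_iff_eq_star_mul_self.mp hSpsd.nonneg
  have quad : ∀ {κ : Type} [Fintype κ] (Q : Matrix (Fin m) κ ℝ) (t : Fin m → ℝ),
      ∑ r, (∑ i, t i * Q i r)^2 = t ⬝ᵥ ((Q * Q.conjTranspose).mulVec t) := by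
    intro κ _ Q t
    rw [← Matrix.mulVec_mulVec, Matrix.dotProduct_mulVec]
    simp only [dotProduct, Matrix.vecMul, Matrix.mulVec, Matrix.conjTranspose_apply, star_trivial]
    refine Finset.sum_congr rfl (fun r _ => ?_)
    rw [sq]
    congr 1
    refine Finset.sum_congr rfl (fun i _ => ?_)
    ring
  refine ⟨B.conjTranspose, ?_, ?_⟩
  · have hdet : S.det = (B.conjTranspose.det) ^ 2 := by
      rw [hB, Matrix.det_mul, Matrix.det_conjTranspose, star_trivial, sq]
    have hge : (ρ ^ 2) ^ m ≤ S.det := by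
      rw [hSpsd.isHermitian.det_eq_prod_eigenvalues]
      have : (ρ ^ 2) ^ m = ∏ _i : Fin m, ρ ^ 2 := by
        rw [Finset.prod_const, Finset.card_univ, Fintype.card_fin]
      rw [this]
      refine Finset.prod_le_prod (fun _ _ => by positivity) (fun i _ => ?_)
      show ρ ^ 2 ≤ ((hSpsd.isHermitian.eigenvalues i : ℝ))
      rw [hSpsd.isHermitian.eigenvalues_eq i]
      set v : Fin m → ℝ := ⇑(hSpsd.isHermitian.eigenvectorBasis i) with hv
      have h1 := hM v
      have h2 := quad N v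
      have h3 : ∑ j, v j ^ 2 = 1 := by
        have h4 := hSpsd.isHermitian.eigenvectorBasis.orthonormal.1 i
        have h5 := EuclideanSpace.real_norm_sq_eq (hSpsd.isHermitian.eigenvectorBasis i)
        rw [h4] at h5
        rw [one_pow] at h5
        exact h5.symm
      rw [h3, mul_one] at h1
      rw [star_trivial]
      show ρ ^ 2 ≤ v ⬝ᵥ (S.mulVec v)
      rw [hS, ← h2]
      exact h1
    have h6 : (ρ ^ m) ^ 2 ≤ (|B.conjTranspose.det|) ^ 2 := by
      rw [sq_abs, ← hdet, ← pow_mul, mul_comm m 2, pow_mul]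
      exact hge
    exact (pow_le_pow_iff_left₀ (by positivity) (abs_nonneg _) (by norm_num)).mp h6
  · intro t
    rw [quad B.conjTranspose t]
    have := quad N t
    rw [Matrix.conjTranspose_conjTranspose, ← hB, hS, ← this]
    rfl

theorem gauss_image {ι : Type} [Fintype ι] (m : ℕ) (M : Fin m → ι → ℝ) (ρ : ℝ) (hρ : 0 < ρ)
    (hM : ∀ t : Fin m → ℝ, ρ^2 * ∑ i, t i ^ 2 ≤ ∑ r, (∑ i, t i * M i r)^2) (T : Set (Fin m → ℝ))
    (hT : MeasurableSet T) :
    gam ι {α | (fun i => ∑ r, M i r * α r) ∈ T} ≤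
      ENNReal.ofReal (((Real.sqrt (2 * π) * ρ)⁻¹)^m) * volume T := by
  obtain ⟨A, hA, hAM⟩ := exists_A m M ρ hρ hM
  have m1 : Measurable (fun (α : ι → ℝ) (i : Fin m) => ∑ r, M i r * α r) := by fun_prop
  have m2 : Measurable (fun (α : Fin m → ℝ) (i : Fin m) => ∑ r, A i r * α r) := by fun_prop
  have hs : 0 < Real.sqrt (2 * π) := Real.sqrt_pos.mpr (by positivity)
  have hdet0 : LinearMap.det (Matrix.toLin' A) ≠ 0 := by
    rw [LinearMap.det_toLin']
    intro h0
    rw [h0, abs_zero] at hA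
    exact absurd hA (not_le.mpr (by positivity))
  calc gam ι {α | (fun i => ∑ r, M i r * α r) ∈ T}
      = (gam ι).map (fun α i => ∑ r, M i r * α r) T := by
        rw [Measure.map_apply m1 hT]; rfl
    _ = (gam (Fin m)).map (fun α i => ∑ r, A i r * α r) T := by
        rw [map_eq m M A hAM]
    _ = gam (Fin m) ((fun α i => ∑ r, A i r * α r) ⁻¹' T) := Measure.map_apply m2 hT
    _ ≤ ENNReal.ofReal ((Real.sqrt (2 * π))⁻¹) ^ m *
        volume ((Matrix.toLin' A) ⁻¹' T) := by
        have := gam_le (κ := Fin m) ((fun α i => ∑ r, A i r * α r) ⁻¹' T)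
        rw [Fintype.card_fin] at this
        exact this
    _ = ENNReal.ofReal ((Real.sqrt (2 * π))⁻¹) ^ m * (ENNReal.ofReal |(A.det)⁻¹| * volume T) := by
        rw [Measure.addHaar_preimage_linearMap _ hdet0, LinearMap.det_toLin']
    _ ≤ ENNReal.ofReal ((Real.sqrt (2 * π))⁻¹) ^ m * (ENNReal.ofReal ((ρ⁻¹) ^ m) * volume T) := by
        gcongr
        rw [abs_inv, inv_pow]
        exact inv_anti₀ (by positivity) hA
    _ = _ := by
        rw [← mul_assoc, ← ENNReal.ofReal_pow (by positivity), ← ENNReal.ofReal_mul (by positivity),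
          mul_inv, mul_pow]


end Sol_gauss_image

alias gauss_image := Sol_gauss_image.gauss_image

end Tus
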