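import Pool.Agent.Tus.Defs
open MeasureTheory Real ProbabilityTheory
open scoped ENNReal BigOperators

namespace Tus
namespace Sol_lsv



theorem lsv_dyadic {X : Type} [Fintype X] {n : ℕ} (φ : Fin n → X → ℝ) (D : ℝ) (hD : 0 ≤ D)
    (h : ∀ I : Finset (Fin n), ∃ χ : Fin n → ℝ, (∀ i, χ i = 1 ∨ χ i = -1) ∧
      ∀ x, |∑ i ∈ I, χ i * φ i x| ≤ D) (k : ℕ) :
    ∀ y : Fin n → ℕ, (∀ i, y i ≤ 2 ^ k) → ∃ e : Fin n → Fin 2,
      ∀ x, |∑ i, ((y i : ℝ) / 2 ^ k - ((e i : ℕ) : ℝ)) * φ i x| ≤ D * (1 - (1/2) ^ k) := by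
  classical
  induction k with
  | zero =>
    intro y hy
    refine ⟨fun i => ⟨y i, by have := hy i; rw [pow_zero] at this; omega⟩, fun x => ?_⟩
    simp
  | succ k ih =>
    intro y hy
    set I : Finset (Fin n) := Finset.univ.filter (fun i => y i % 2 = 1) with hI
    obtain ⟨χ, hχ, hχD⟩ := h I
    set y' : Fin n → ℕ := fun i => if y i % 2 = 1 ∧ χ i = 1 then (y i + 1) / 2 else y i / 2 with hy'
    have hyb : ∀ i, y' i ≤ 2 ^ k := by
      intro i
      have h1 := hy i
      have h2 : 2 ^ (k+1) = 2 * 2 ^ k := by rw [pow_succ]; ring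
      simp only [hy']
      split_ifs with hc
      · omega
      · omega
    have hyr : ∀ i, (y' i : ℝ) = ((y i : ℝ) + (if i ∈ I then χ i else 0)) / 2 := by
      intro i
      by_cases ho : y i % 2 = 1
      · have hiI : i ∈ I := by rw [hI]; simp [ho]
        rw [if_pos hiI]
        rcases hχ i with hc | hc
        · have e1 : y' i = (y i + 1) / 2 := by simp only [hy']; rw [if_pos ⟨ho, hc⟩]
          have e2 : 2 * y' i = y i + 1 := by omega
          have e3 : (2:ℝ) * (y' i : ℝ) = (y i : ℝ) + 1 := by exact_mod_cast e2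
          rw [hc]; linarith
        · have e1 : y' i = y i / 2 := by
            simp only [hy']; rw [if_neg (by rintro ⟨_, h3⟩; rw [hc] at h3; norm_num at h3)]
          have e2 : 2 * y' i + 1 = y i := by omega
          have e3 : (2:ℝ) * (y' i : ℝ) + 1 = (y i : ℝ) := by exact_mod_cast e2
          rw [hc]; linarith
      · have hiI : i ∉ I := by rw [hI]; simp [ho]
        rw [if_neg hiI]
        have e1 : y' i = y i / 2 := by
          simp only [hy']; rw [if_neg (fun h3 => ho h3.1)]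
        have e2 : 2 * y' i = y i := by omega
        have e3 : (2:ℝ) * (y' i : ℝ) = (y i : ℝ) := by exact_mod_cast e2
        linarith
    obtain ⟨e, he⟩ := ih y' hyb
    refine ⟨e, fun x => ?_⟩
    have hsum : ∑ i, ((y i : ℝ) / 2 ^ (k+1) - ((e i : ℕ) : ℝ)) * φ i x =
        ∑ i, ((y' i : ℝ) / 2 ^ k - ((e i : ℕ) : ℝ)) * φ i x -
          (1/2) ^ (k+1) * ∑ i ∈ I, χ i * φ i x := by
      have h3 : ∑ i ∈ I, χ i * φ i x = ∑ i, (if i ∈ I then χ i else 0) * φ i x := by
        rw [hI, Finset.sum_filter]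
        apply Finset.sum_congr rfl
        intro i _
        by_cases ho : y i % 2 = 1
        · simp [ho]
        · simp [ho]
      rw [h3, Finset.mul_sum, ← Finset.sum_sub_distrib]
      apply Finset.sum_congr rfl
      intro i _
      rw [hyr i, one_div, inv_pow, pow_succ]
      field_simp
      ring
    rw [hsum]
    refine (abs_sub _ _).trans ?_
    have h4 := he x
    have h5 := hχD x
    rw [abs_mul, abs_of_nonneg (by positivity : (0:ℝ) ≤ (1/2) ^ (k+1))]
    have h6 : (1/2:ℝ) ^ (k+1) * |∑ i ∈ I, χ i * φ i x| ≤ (1/2:ℝ) ^ (k+1) * D :=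
      mul_le_mul_of_nonneg_left h5 (by positivity)
    have h7 : D * (1 - (1/2:ℝ) ^ k) + (1/2:ℝ) ^ (k+1) * D = D * (1 - (1/2) ^ (k+1)) := by
      rw [pow_succ]; ring
    linarith

theorem lsv {X : Type} [Fintype X] {n : ℕ} (φ : Fin n → X → ℝ) (D : ℝ) (hD : 0 ≤ D)
    (h : ∀ I : Finset (Fin n), ∃ χ : Fin n → ℝ, (∀ i, χ i = 1 ∨ χ i = -1) ∧
      ∀ x, |∑ i ∈ I, χ i * φ i x| ≤ D) :
    ENNReal.ofReal ((1/2)^n) ≤ volume {a : Fin n → ℝ | (∀ i, |a i| ≤ 1) ∧ ∀ x, |∑ l, a l * φ l x| ≤ D} := by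
  set K : Set (Fin n → ℝ) := {a | (∀ i, |a i| ≤ 1) ∧ ∀ x, |∑ l, a l * φ l x| ≤ D} with hK
  have hKc : IsClosed K := by
    rw [hK, Set.setOf_and, Set.setOf_forall, Set.setOf_forall]
    apply IsClosed.inter
    · apply isClosed_iInter
      intro i
      exact isClosed_le (continuous_apply i).abs continuous_const
    · apply isClosed_iInter
      intro x
      apply isClosed_le _ continuous_const
      apply Continuous.abs
      apply continuous_finsetSum
      intro l _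
      exact (continuous_apply l).mul continuous_const
  set U : Set (Fin n → ℝ) := ⋃ e : Fin n → Fin 2,
    (fun x : Fin n → ℝ => x + fun i => -(((e i : ℕ) : ℝ))) ⁻¹' K with hU
  have hUc : IsClosed U := by
    apply isClosed_iUnion_of_finite
    intro e
    exact hKc.preimage (continuous_id.add continuous_const)
  have hsub : Set.Icc (0 : Fin n → ℝ) 1 ⊆ U := by
    intro x hx
    have hx0 : ∀ i, 0 ≤ x i := fun i => hx.1 i
    have hx1 : ∀ i, x i ≤ 1 := fun i => hx.2 i
    have ht : Filter.Tendsto (fun k : ℕ => (fun i => ((⌊x i * (2:ℝ) ^ k⌋₊ : ℕ) : ℝ) / (2:ℝ) ^ k :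
        Fin n → ℝ)) Filter.atTop (nhds x) := by
      rw [tendsto_pi_nhds]
      intro i
      exact (tendsto_nat_floor_mul_div_atTop (hx0 i)).comp
        (tendsto_pow_atTop_atTop_of_one_lt (one_lt_two : (1:ℝ) < 2))
    apply hUc.mem_of_tendsto ht
    apply Filter.Eventually.of_forall
    intro k
    have hb : ∀ i, ⌊x i * (2:ℝ) ^ k⌋₊ ≤ 2 ^ k := by
      intro i
      apply Nat.floor_le_of_le
      push_cast
      have := mul_le_mul_of_nonneg_right (hx1 i) (by positivity : (0:ℝ) ≤ 2 ^ k)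
      linarith
    obtain ⟨e, he⟩ := lsv_dyadic φ D hD h k (fun i => ⌊x i * (2:ℝ) ^ k⌋₊) hb
    rw [hU, Set.mem_iUnion]
    refine ⟨e, ?_⟩
    rw [Set.mem_preimage, hK]
    refine ⟨fun i => ?_, fun z => ?_⟩
    · have h1 : ((⌊x i * (2:ℝ) ^ k⌋₊ : ℕ) : ℝ) / (2:ℝ) ^ k ≤ 1 := by
        rw [div_le_one (by positivity)]
        exact_mod_cast hb i
      have h2 : 0 ≤ ((⌊x i * (2:ℝ) ^ k⌋₊ : ℕ) : ℝ) / (2:ℝ) ^ k := by positivity
      have h3 : ((e i : ℕ) : ℝ) ≤ 1 := by
        have := (e i).2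
        exact_mod_cast (by omega : (e i : ℕ) ≤ 1)
      have h4 : (0:ℝ) ≤ ((e i : ℕ) : ℝ) := by positivity
      show |((⌊x i * (2:ℝ) ^ k⌋₊ : ℕ) : ℝ) / (2:ℝ) ^ k + -((e i : ℕ) : ℝ)| ≤ 1
      rw [abs_le]
      constructor <;> linarith
    · have h1 := he z
      have h2 : D * (1 - (1/2:ℝ) ^ k) ≤ D := by
        have h3 : (0:ℝ) ≤ D * (1/2) ^ k := by positivity
        nlinarith
      show |∑ l, (((⌊x l * (2:ℝ) ^ k⌋₊ : ℕ) : ℝ) / (2:ℝ) ^ k + -((e l : ℕ) : ℝ)) * φ l z| ≤ D
      simp only [← sub_eq_add_neg]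
      exact h1.trans h2
  have hv1 : (1 : ℝ≥0∞) ≤ 2 ^ n * volume K := by
    calc (1 : ℝ≥0∞) = volume (Set.Icc (0 : Fin n → ℝ) 1) := by
          rw [Real.volume_Icc_pi]; simp
      _ ≤ volume U := measure_mono hsub
      _ ≤ ∑ e : Fin n → Fin 2, volume ((fun x : Fin n → ℝ => x + fun i => -(((e i : ℕ) : ℝ))) ⁻¹' K) :=
          measure_iUnion_fintype_le _ _
      _ = ∑ e : Fin n → Fin 2, volume K := by
          apply Finset.sum_congr rfl
          intro e _
          exact measure_preimage_add_right volume _ K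
      _ = 2 ^ n * volume K := by
          rw [Finset.sum_const, Finset.card_univ, nsmul_eq_mul]
          simp
  calc ENNReal.ofReal ((1/2)^n) = ENNReal.ofReal ((1/2)^n) * 1 := by rw [mul_one]
    _ ≤ ENNReal.ofReal ((1/2)^n) * (2 ^ n * volume K) := by gcongr
    _ = (ENNReal.ofReal ((1/2)^n) * 2 ^ n) * volume K := by rw [mul_assoc]
    _ = volume K := by
        have : ENNReal.ofReal ((1/2)^n) * 2 ^ n = 1 := by
          have h2 : (2 : ℝ≥0∞) ^ n = ENNReal.ofReal (2 ^ n) := by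
            rw [ENNReal.ofReal_pow (by norm_num)]; simp
          rw [h2, ← ENNReal.ofReal_mul (by positivity), ← mul_pow]
          norm_num
        rw [this, one_mul]


end Sol_lsv

alias lsv := Sol_lsv.lsv

end Tus
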