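import Pool.Agent.Tus.Defs
import Pool.Agent.Tus.L_santalo
import Pool.Agent.Tus.L_gauss_image
import Pool.Agent.Tus.L_gam_prob
open MeasureTheory Real ProbabilityTheory
open scoped ENNReal BigOperators

namespace Tus
namespace Sol_polar_vol







theorem hz_sq {n m : ℕ} (J : Fin m → Fin n → ℝ)
    (hJ : ∀ i j, ∑ l, J i l * J j l = if i = j then 1 else 0) (t : Fin m → ℝ) :
    ∑ l, (∑ i, t i * J i l)^2 = ∑ i, t i ^ 2 := by
  have h1 : ∀ l, (∑ i, t i * J i l)^2 = ∑ i, ∑ j, t i * t j * (J i l * J j l) := by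
    intro l
    rw [sq, Finset.sum_mul_sum]
    refine Finset.sum_congr rfl fun i _ => Finset.sum_congr rfl fun j _ => by ring
  simp_rw [h1]
  rw [Finset.sum_comm]
  refine Finset.sum_congr rfl fun i _ => ?_
  rw [Finset.sum_comm]
  simp_rw [← Finset.mul_sum, hJ]
  simp [sq]

theorem hz_swap {ι : Type} [Fintype ι] {n m : ℕ} (J : Fin m → Fin n → ℝ) (M : Fin n → ι → ℝ)
    (t : Fin m → ℝ) (α : ι → ℝ) :
    ∑ i, t i * (∑ r, (∑ l, J i l * M l r) * α r) = ∑ l, (∑ i, t i * J i l) * (∑ r, M l r * α r) := by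
  have h1 : ∀ i, t i * (∑ r, (∑ l, J i l * M l r) * α r) = ∑ l, (t i * J i l) * ∑ r, M l r * α r := by
    intro i
    simp_rw [Finset.sum_mul, Finset.mul_sum]
    rw [Finset.sum_comm]
    refine Finset.sum_congr rfl fun l _ => Finset.sum_congr rfl fun r _ => by ring
  simp_rw [h1]
  rw [Finset.sum_comm]
  refine Finset.sum_congr rfl fun l _ => (Finset.sum_mul _ _ _).symm

theorem hz_M {ι : Type} [Fintype ι] {n m : ℕ} (J : Fin m → Fin n → ℝ) (M : Fin n → ι → ℝ)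
    (t : Fin m → ℝ) (r : ι) :
    ∑ i, t i * (∑ l, J i l * M l r) = ∑ l, (∑ i, t i * J i l) * M l r := by
  simp_rw [Finset.sum_mul, Finset.mul_sum]
  rw [Finset.sum_comm]
  refine Finset.sum_congr rfl fun l _ => Finset.sum_congr rfl fun r _ => by ring

theorem hz_half {ι : Type} [Fintype ι] (n : ℕ) (ν : ℝ) (hν : 0 < ν)
    (Z : (ι → ℝ) → ℝ) (nz : Fin n → (ι → ℝ) → ℝ) (hZ0 : ∀ α, 0 ≤ Z α) (hZ : Integrable Z (gam ι))
    (hZ1 : ∫ α, Z α ∂(gam ι) ≤ 1) (hnz : ∀ l, Integrable (fun α => nz l α ^ 2) (gam ι))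
    (hE : 4 * ∑ l, ∫ α, nz l α ^ 2 ∂(gam ι) ≤ ν^2) (T : Set (ι → ℝ))
    (hT : ∀ α, Z α ≤ 4 → ∑ l, nz l α ^ 2 ≤ ν^2 → α ∈ T) : 1 ≤ 2 * gam ι T := by
  haveI := gam_prob ι
  have h1 : (gam ι).real {α | 4 ≤ Z α} ≤ 1/4 := by
    have := mul_meas_ge_le_integral_of_nonneg (μ := gam ι) (f := Z) (Filter.Eventually.of_forall hZ0) hZ 4
    linarith
  have h2 : (gam ι).real {α | ν^2 ≤ ∑ l, nz l α ^ 2} ≤ 1/4 := by
    have hI : Integrable (fun α => ∑ l, nz l α ^ 2) (gam ι) := integrable_finsetSum _ fun l _ => hnz l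
    have := mul_meas_ge_le_integral_of_nonneg (μ := gam ι) (f := fun α => ∑ l, nz l α ^ 2)
      (Filter.Eventually.of_forall fun α => Finset.sum_nonneg fun l _ => sq_nonneg _) hI (ν^2)
    rw [integral_finsetSum _ fun l _ => hnz l] at this
    have hν2 : 0 < ν^2 := by positivity
    nlinarith [measureReal_nonneg (μ := gam ι) (s := {α | ν^2 ≤ ∑ l, nz l α ^ 2})]
  have hcov : (Set.univ : Set (ι → ℝ)) ⊆ T ∪ ({α | 4 ≤ Z α} ∪ {α | ν^2 ≤ ∑ l, nz l α ^ 2}) := by
    intro α _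
    by_cases a : 4 ≤ Z α
    · right; left; exact a
    · by_cases b : ν^2 ≤ ∑ l, nz l α ^ 2
      · right; right; exact b
      · left; exact hT α (le_of_lt (not_le.mp a)) (le_of_lt (not_le.mp b))
  have h3 : (1:ℝ) ≤ (gam ι).real T + (1/4 + 1/4) := by
    have e1 : (gam ι).real Set.univ = 1 := by simp
    have e2 := measureReal_mono (μ := gam ι) hcov (by finiteness)
    have e3 := measureReal_union_le (μ := gam ι) T ({α | 4 ≤ Z α} ∪ {α | ν^2 ≤ ∑ l, nz l α ^ 2})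
    have e4 := measureReal_union_le (μ := gam ι) {α | 4 ≤ Z α} {α | ν^2 ≤ ∑ l, nz l α ^ 2}
    linarith
  have h4 : (1/2:ℝ) ≤ (gam ι).real T := by linarith
  have h5 : ENNReal.ofReal (1/2) ≤ gam ι T := by
    rw [← ofReal_measureReal (by finiteness : gam ι T ≠ ⊤)]
    exact ENNReal.ofReal_le_ofReal h4
  calc (1:ℝ≥0∞) = 2 * ENNReal.ofReal (1/2) := by
        rw [show (2:ℝ≥0∞) = ENNReal.ofReal 2 by simp, ← ENNReal.ofReal_mul (by norm_num)]
        norm_num
    _ ≤ 2 * gam ι T := by gcongr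

theorem hz_const (m : ℕ) (hm : 0 < m) (ρ : ℝ) (hρ : 0 < ρ) :
    ((Real.sqrt (2 * π) * ρ)⁻¹)^m * (2 * π * Real.exp 1 / m)^m ≤ (7 / (m * ρ))^m := by
  have hm' : (0:ℝ) < m := by exact_mod_cast hm
  rw [← mul_pow]
  have hs : 0 < Real.sqrt (2 * π) := Real.sqrt_pos.mpr (by positivity)
  have hs2 : Real.sqrt (2 * π) * Real.sqrt (2 * π) = 2 * π := Real.mul_self_sqrt (by positivity)
  have e1 : (Real.sqrt (2 * π) * ρ)⁻¹ * (2 * π * Real.exp 1 / m) = (Real.sqrt (2 * π) * Real.exp 1) / (m * ρ) := by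
    have e0 : 2 * π * Real.exp 1 / m = (Real.sqrt (2 * π) * Real.sqrt (2 * π)) * Real.exp 1 / m := by rw [hs2]
    rw [e0]
    generalize Real.sqrt (2 * π) = s at hs
    field_simp
  rw [e1]
  have h7 : Real.sqrt (2 * π) * Real.exp 1 ≤ 7 := by
    have a1 : Real.sqrt (2 * π) ≤ 2.51 := by
      rw [Real.sqrt_le_left (by norm_num)]
      have := Real.pi_lt_d2
      norm_num
      linarith
    have a2 := Real.exp_one_lt_d9
    have a3 : 0 < Real.exp 1 := Real.exp_pos 1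
    nlinarith
  gcongr

theorem polar_vol {X ι : Type} [Fintype X] [Fintype ι] (n m : ℕ) (hm : 0 < m) (φ : Fin n → X → ℝ)
    (J : Fin m → Fin n → ℝ) (hJ : ∀ i j, ∑ l, J i l * J j l = if i = j then 1 else 0)
    (M : Fin n → ι → ℝ) (ρ ν : ℝ) (hρ : 0 < ρ) (hν : 0 < ν)
    (hM : ∀ t : Fin m → ℝ, ρ^2 * ∑ i, t i ^ 2 ≤ ∑ r, (∑ l, (∑ i, t i * J i l) * M l r)^2)
    (Z : (ι → ℝ) → ℝ) (nz : Fin n → (ι → ℝ) → ℝ) (hZ0 : ∀ α, 0 ≤ Z α) (hZ : Integrable Z (gam ι))
    (hZ1 : ∫ α, Z α ∂(gam ι) ≤ 1) (hnz : ∀ l, Integrable (fun α => nz l α ^ 2) (gam ι))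
    (hE : 4 * ∑ l, ∫ α, nz l α ^ 2 ∂(gam ι) ≤ ν^2)
    (dual : ∀ (α : ι → ℝ) (t : Fin m → ℝ) (D' : ℝ), (∀ x, |∑ l, (∑ i, t i * J i l) * φ l x| ≤ D') →
      |∑ l, (∑ i, t i * J i l) * (∑ r, M l r * α r + nz l α)| ≤ D' * Z α) :
    volume {t : Fin m → ℝ | (∀ x, |∑ l, (∑ i, t i * J i l) * φ l x| ≤ 1/8) ∧ ∑ i, t i ^ 2 ≤ (1/(2*ν))^2}
      ≤ ENNReal.ofReal (2 * (7 / (m * ρ))^m) := by
  classical
  set A : Set (Fin m → ℝ) := {t : Fin m → ℝ | (∀ x, |∑ l, (∑ i, t i * J i l) * φ l x| ≤ 1/8) ∧ ∑ i, t i ^ 2 ≤ (1/(2*ν))^2} with hA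
  have hAc : IsClosed A := by
    rw [hA, Set.setOf_and, Set.setOf_forall]
    refine IsClosed.inter (isClosed_iInter fun x => isClosed_le (by fun_prop) (by fun_prop)) (isClosed_le (by fun_prop) (by fun_prop))
  have hAb : Bornology.IsBounded A := by
    refine (Metric.isBounded_closedBall (x := (0 : Fin m → ℝ)) (r := 1/(2*ν))).subset ?_
    intro t ht
    rw [mem_closedBall_zero_iff, pi_norm_le_iff_of_nonneg (by positivity)]
    intro i
    have h1 : t i ^ 2 ≤ (1/(2*ν))^2 :=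
      le_trans (Finset.single_le_sum (f := fun i => t i ^ 2) (fun i _ => sq_nonneg _) (Finset.mem_univ i)) ht.2
    rw [Real.norm_eq_abs]
    exact abs_le_of_sq_le_sq h1 (by positivity)
  have hAk : IsCompact A := Metric.isCompact_of_isClosed_isBounded hAc hAb
  have hAs : ∀ t ∈ A, -t ∈ A := by
    intro t ht
    refine ⟨fun x => ?_, ?_⟩
    · have := ht.1 x
      have e : ∑ l, (∑ i, (-t) i * J i l) * φ l x = -∑ l, (∑ i, t i * J i l) * φ l x := by
        rw [← Finset.sum_neg_distrib]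
        refine Finset.sum_congr rfl fun l _ => ?_
        simp [Finset.sum_neg_distrib]
      rw [e, abs_neg]
      exact this
    · simpa using ht.2
  -- A contains a ball
  obtain ⟨r, hr, hball⟩ : ∃ r > 0, Metric.ball (0 : Fin m → ℝ) r ⊆ A := by
    have hO : IsOpen {t : Fin m → ℝ | (∀ x, |∑ l, (∑ i, t i * J i l) * φ l x| < 1/8) ∧ ∑ i, t i ^ 2 < (1/(2*ν))^2} := by
      rw [Set.setOf_and, Set.setOf_forall]
      refine IsOpen.inter (isOpen_iInter_of_finite fun x => isOpen_lt (by fun_prop) (by fun_prop)) (isOpen_lt (by fun_prop) (by fun_prop))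
    obtain ⟨r, hr, hb⟩ := Metric.isOpen_iff.mp hO 0 (by
      refine ⟨fun x => by simp, ?_⟩
      have : (0:ℝ) < (1/(2*ν))^2 := by positivity
      simpa using this)
    refine ⟨r, hr, hb.trans ?_⟩
    intro t ht
    exact ⟨fun x => (ht.1 x).le, ht.2.le⟩
  set L : Set (Fin m → ℝ) := {y | ∀ t ∈ A, ∑ i, t i * y i ≤ 1} with hL
  have hLc : IsClosed L := by
    have : L = ⋂ t ∈ A, {y : Fin m → ℝ | ∑ i, t i * y i ≤ 1} := by
      ext y; simp [hL]
    rw [this]
    exact isClosed_iInter fun t => isClosed_iInter fun _ => isClosed_le (by fun_prop) (by fun_prop)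
  have hLs : ∀ y ∈ L, -y ∈ L := by
    intro y hy t ht
    have := hy (-t) (hAs t ht)
    simpa using this
  have hLb : Bornology.IsBounded L := by
    refine (Metric.isBounded_closedBall (x := (0 : Fin m → ℝ)) (r := 2/r)).subset ?_
    intro y hy
    rw [mem_closedBall_zero_iff, pi_norm_le_iff_of_nonneg (by positivity)]
    have key : ∀ y ∈ L, ∀ i, y i ≤ 2/r := by
      intro y hy i
      have hmem : (Pi.single i (r/2) : Fin m → ℝ) ∈ A := by
        apply hball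
        rw [mem_ball_zero_iff, pi_norm_lt_iff hr]
        intro j
        by_cases hji : j = i
        · subst hji
          simp only [Pi.single_eq_same, Real.norm_eq_abs]
          rw [abs_of_pos (by positivity)]
          linarith
        · simp [Pi.single_eq_of_ne hji, hr]
      have := hy _ hmem
      have e : ∑ j, (Pi.single i (r/2) : Fin m → ℝ) j * y j = r/2 * y i := by
        rw [Finset.sum_eq_single i]
        · simp
        · intro b _ hb
          simp [Pi.single_eq_of_ne hb]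
        · simp
      rw [e] at this
      rw [le_div_iff₀ hr]
      linarith
    intro i
    rw [Real.norm_eq_abs, abs_le]
    have h1 := key y hy i
    have h2 := key (-y) (hLs y hy) i
    simp only [Pi.neg_apply] at h2
    exact ⟨by linarith, h1⟩
  have hLk : IsCompact L := Metric.isCompact_of_isClosed_isBounded hLc hLb
  -- the event
  have hev : 1 ≤ 2 * gam ι {α | (fun i => ∑ r, (∑ l, J i l * M l r) * α r) ∈ L} := by
    refine hz_half n ν hν Z nz hZ0 hZ hZ1 hnz hE _ ?_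
    intro α hα1 hα2
    show ∀ t ∈ A, ∑ i, t i * (∑ r, (∑ l, J i l * M l r) * α r) ≤ 1
    intro t ht
    rw [hz_swap]
    have d1 := dual α t (1/8) ht.1
    have d2 : ∑ l, (∑ i, t i * J i l) * (∑ r, M l r * α r + nz l α)
        = ∑ l, (∑ i, t i * J i l) * (∑ r, M l r * α r) + ∑ l, (∑ i, t i * J i l) * nz l α := by
      rw [← Finset.sum_add_distrib]
      exact Finset.sum_congr rfl fun l _ => by ring
    rw [d2] at d1
    have d3 := (abs_le.mp d1).2
    have d4 : (∑ l, (∑ i, t i * J i l) * nz l α)^2 ≤ (∑ l, (∑ i, t i * J i l)^2) * ∑ l, nz l α ^ 2 :=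
      Finset.sum_mul_sq_le_sq_mul_sq _ _ _
    rw [hz_sq J hJ] at d4
    have d5 : (∑ i, t i ^ 2) * ∑ l, nz l α ^ 2 ≤ (1/(2*ν))^2 * ν^2 :=
      mul_le_mul ht.2 hα2 (Finset.sum_nonneg fun l _ => sq_nonneg _) (by positivity)
    have d6 : (1/(2*ν))^2 * ν^2 = (1/2)^2 := by field_simp
    have d7 : |∑ l, (∑ i, t i * J i l) * nz l α| ≤ 1/2 :=
      abs_le_of_sq_le_sq (by linarith) (by norm_num)
    have d8 := (abs_le.mp d7).1
    linarith
  have hgi := gauss_image (ι := ι) m (fun i r => ∑ l, J i l * M l r) ρ hρ (by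
    intro t
    have := hM t
    simp_rw [hz_M]
    exact this) L hLc.measurableSet
  have hsan := santalo (ι := Fin m) (by simpa using hm) A L hAk hLk hAs hLs (by
    intro x hx y hy
    exact hy x hx)
  rw [Fintype.card_fin] at hsan
  have hc0 : (0:ℝ) ≤ ((Real.sqrt (2 * π) * ρ)⁻¹)^m := by positivity
  calc volume A = volume A * 1 := by rw [mul_one]
    _ ≤ volume A * (2 * gam ι {α | (fun i => ∑ r, (∑ l, J i l * M l r) * α r) ∈ L}) := by gcongr
    _ ≤ volume A * (2 * (ENNReal.ofReal (((Real.sqrt (2 * π) * ρ)⁻¹)^m) * volume L)) := by gcongr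
    _ = 2 * (ENNReal.ofReal (((Real.sqrt (2 * π) * ρ)⁻¹)^m) * (volume A * volume L)) := by ring
    _ ≤ 2 * (ENNReal.ofReal (((Real.sqrt (2 * π) * ρ)⁻¹)^m) * ENNReal.ofReal ((2 * π * Real.exp 1 / m)^m)) := by
        gcongr
    _ = ENNReal.ofReal (2 * (((Real.sqrt (2 * π) * ρ)⁻¹)^m * (2 * π * Real.exp 1 / m)^m)) := by
        rw [← ENNReal.ofReal_mul hc0, show (2:ℝ≥0∞) = ENNReal.ofReal 2 by simp, ← ENNReal.ofReal_mul (by norm_num)]
    _ ≤ ENNReal.ofReal (2 * (7 / (m * ρ))^m) := by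
        apply ENNReal.ofReal_le_ofReal
        have := hz_const m hm ρ hρ
        linarith


end Sol_polar_vol

alias polar_vol := Sol_polar_vol.polar_vol

end Tus
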