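import Pool.Agent.Tus.Defs
open MeasureTheory Real ProbabilityTheory
open scoped ENNReal BigOperators

namespace Tus
namespace Sol_slicing



theorem slicing_map_h298 (n m k : ℕ) (hn : m + k = n) (J : Fin m → Fin n → ℝ)
    (hJ : ∀ i j, ∑ l, J i l * J j l = if i = j then 1 else 0) :
    ∃ Φ : (Fin m → ℝ) × (Fin k → ℝ) → (Fin n → ℝ), MeasurePreserving Φ volume volume ∧
      (∀ t r l, Φ (t, r) l = ∑ i, t i * J i l + Φ (0, r) l) ∧
      (∀ t r, ∑ l, (Φ (t, r) l) ^ 2 = ∑ i, t i ^ 2 + ∑ j, r j ^ 2) := by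
  classical
  let v : Fin m ⊕ Fin k → EuclideanSpace ℝ (Fin n) :=
    Sum.elim (fun i => WithLp.toLp 2 (J i)) (fun _ => 0)
  have hcard : Module.finrank ℝ (EuclideanSpace ℝ (Fin n)) = Fintype.card (Fin m ⊕ Fin k) := by
    simp [hn]
  have hin : ∀ i j, inner ℝ (v (Sum.inl i)) (v (Sum.inl j)) = if i = j then (1 : ℝ) else 0 := by
    intro i j
    rw [PiLp.inner_apply]
    simp only [v, Sum.elim_inl]
    rw [← hJ i j]
    refine Finset.sum_congr rfl fun l _ => ?_
    simp [mul_comm]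
  have hv : Orthonormal ℝ (Set.domRestrict (Set.range (Sum.inl : Fin m → Fin m ⊕ Fin k)) v) := by
    rw [orthonormal_iff_ite]
    intro a c
    obtain ⟨i, hi⟩ := a.2
    obtain ⟨j, hj⟩ := c.2
    have e1 : Set.domRestrict (Set.range (Sum.inl : Fin m → Fin m ⊕ Fin k)) v a = v (Sum.inl i) := by
      show v a.1 = _
      rw [← hi]
    have e2 : Set.domRestrict (Set.range (Sum.inl : Fin m → Fin m ⊕ Fin k)) v c = v (Sum.inl j) := by
      show v c.1 = _
      rw [← hj]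
    rw [e1, e2, hin i j]
    by_cases hij : i = j
    · have hac : a = c := Subtype.ext (by rw [← hi, ← hj, hij])
      rw [if_pos hij, if_pos hac]
    · have hac : a ≠ c := by
        intro h
        apply hij
        have : (Sum.inl i : Fin m ⊕ Fin k) = Sum.inl j := by rw [hi, hj, h]
        exact Sum.inl_injective this
      rw [if_neg hij, if_neg hac]
  obtain ⟨b, hb⟩ := hv.exists_orthonormalBasis_extension_of_card_eq hcard
  have hbi : ∀ i, b (Sum.inl i) = WithLp.toLp 2 (J i) := fun i => hb _ ⟨i, rfl⟩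
  let Φ : (Fin m → ℝ) × (Fin k → ℝ) → (Fin n → ℝ) := fun p =>
    WithLp.ofLp (b.repr.symm (WithLp.toLp 2
      ((MeasurableEquiv.sumPiEquivProdPi (fun _ : Fin m ⊕ Fin k => ℝ)).symm p)))
  have hΦ : ∀ t r l, Φ (t, r) l = ∑ i, t i * J i l + ∑ j, r j * (b (Sum.inr j)) l := by
    intro t r l
    have h1 : b.repr.symm (WithLp.toLp 2
        ((MeasurableEquiv.sumPiEquivProdPi (fun _ : Fin m ⊕ Fin k => ℝ)).symm (t, r))) =
        ∑ i, t i • b (Sum.inl i) + ∑ j, r j • b (Sum.inr j) := by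
      rw [← b.sum_repr_symm, Fintype.sum_sum_type]
      rfl
    show (b.repr.symm (WithLp.toLp 2
      ((MeasurableEquiv.sumPiEquivProdPi (fun _ : Fin m ⊕ Fin k => ℝ)).symm (t, r)))) l = _
    rw [h1]
    simp [hbi]
  refine ⟨Φ, ?_, ?_, ?_⟩
  · have m1 := volume_measurePreserving_sumPiEquivProdPi_symm (fun _ : Fin m ⊕ Fin k => ℝ)
    have m2 := PiLp.volume_preserving_toLp (Fin m ⊕ Fin k)
    have m3 := b.measurePreserving_repr_symm
    have m4 := PiLp.volume_preserving_ofLp (Fin n)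
    exact m4.comp (m3.comp (m2.comp m1))
  · intro t r l
    rw [hΦ t r l, hΦ 0 r l]
    simp
  · intro t r
    have h1 : ‖b.repr.symm (WithLp.toLp 2
        ((MeasurableEquiv.sumPiEquivProdPi (fun _ : Fin m ⊕ Fin k => ℝ)).symm (t, r)))‖ ^ 2 =
        ‖(WithLp.toLp 2
        ((MeasurableEquiv.sumPiEquivProdPi (fun _ : Fin m ⊕ Fin k => ℝ)).symm (t, r)) :
          EuclideanSpace ℝ (Fin m ⊕ Fin k))‖ ^ 2 := by
      rw [LinearIsometryEquiv.norm_map]
    rw [EuclideanSpace.norm_sq_eq, EuclideanSpace.norm_sq_eq, Fintype.sum_sum_type] at h1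
    simp only [Real.norm_eq_abs, sq_abs] at h1
    exact h1

theorem slicing_gauss_h298 (n k : ℕ) :
    ∫⁻ r : Fin k → ℝ, ENNReal.ofReal (Real.exp (((n : ℝ) - ∑ j, r j ^ 2) / 2)) =
      ENNReal.ofReal (Real.exp ((n : ℝ) / 2) * (2 * π) ^ ((k : ℝ) / 2)) := by
  have hfac : (fun r : Fin k → ℝ => Real.exp (((n : ℝ) - ∑ j, r j ^ 2) / 2)) =
      fun r : Fin k → ℝ => Real.exp ((n : ℝ) / 2) * ∏ j, Real.exp (-(1 / 2) * (r j) ^ 2) := by
    funext r
    rw [← Real.exp_sum, ← Real.exp_add]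
    congr 1
    rw [← Finset.mul_sum]
    ring
  have hint1 : Integrable (fun x : ℝ => Real.exp (-(1 / 2) * x ^ 2)) :=
    integrable_exp_neg_mul_sq (by norm_num)
  have hint : Integrable (fun r : Fin k → ℝ => ∏ j, Real.exp (-(1 / 2) * (r j) ^ 2)) :=
    Integrable.fintype_prod (f := fun (_ : Fin k) (x : ℝ) => Real.exp (-(1 / 2) * x ^ 2))
      (fun _ => hint1)
  have hval : ∫ r : Fin k → ℝ, ∏ j, Real.exp (-(1 / 2) * (r j) ^ 2) = (2 * π) ^ ((k : ℝ) / 2) := by
    rw [integral_fintype_prod_volume_eq_prod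
      (f := fun (_ : Fin k) (x : ℝ) => Real.exp (-(1 / 2) * x ^ 2))]
    rw [integral_gaussian, Finset.prod_const, Finset.card_univ, Fintype.card_fin]
    have e : π / (1 / 2) = 2 * π := by ring
    rw [e, Real.sqrt_eq_rpow, ← Real.rpow_natCast, ← Real.rpow_mul (by positivity)]
    congr 1
    ring
  rw [← ofReal_integral_eq_lintegral_ofReal]
  · rw [hfac, integral_const_mul, hval]
  · rw [hfac]
    exact hint.const_mul _
  · exact Filter.Eventually.of_forall fun r => (Real.exp_pos _).le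

theorem slicing (n m k : ℕ) (hn : m + k = n) (J : Fin m → Fin n → ℝ)
    (hJ : ∀ i j, ∑ l, J i l * J j l = if i = j then 1 else 0) (M : Set (Fin n → ℝ)) (hc : IsClosed M)
    (hconv : Convex ℝ M) (hs : ∀ x ∈ M, -x ∈ M) (hM : ∀ a ∈ M, ∀ i, |a i| ≤ 1) :
    volume M ≤ ENNReal.ofReal (Real.exp ((n:ℝ)/2) * (2 * π)^((k:ℝ)/2)) *
      volume {t : Fin m → ℝ | (fun l => (1/2) * ∑ i, t i * J i l) ∈ M} := by
  obtain ⟨Φ, hΦm, hΦl, hΦn⟩ := slicing_map_h298 n m k hn J hJ
  set V : ℝ≥0∞ := volume {t : Fin m → ℝ | (fun l => (1/2) * ∑ i, t i * J i l) ∈ M} with hV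
  have hMm : MeasurableSet M := hc.measurableSet
  have h1 : volume M = ∫⁻ r : Fin k → ℝ, volume ((fun t : Fin m → ℝ => (t, r)) ⁻¹' (Φ ⁻¹' M)) := by
    rw [← hΦm.measure_preimage hMm.nullMeasurableSet]
    rw [Measure.volume_eq_prod, Measure.prod_apply_symm (hΦm.measurable hMm)]
  have h2 : ∀ r : Fin k → ℝ, volume ((fun t : Fin m → ℝ => (t, r)) ⁻¹' (Φ ⁻¹' M)) ≤
      ENNReal.ofReal (Real.exp (((n : ℝ) - ∑ j, r j ^ 2) / 2)) * V := by
    intro r
    by_cases hemp : ((fun t : Fin m → ℝ => (t, r)) ⁻¹' (Φ ⁻¹' M)) = ∅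
    · rw [hemp]
      simp
    · obtain ⟨t0, ht0⟩ := Set.nonempty_iff_ne_empty.mpr hemp
      have ht0' : Φ (t0, r) ∈ M := ht0
      have hnorm : ∑ j, r j ^ 2 ≤ n := by
        have h3 : ∑ l, (Φ (t0, r) l) ^ 2 ≤ ∑ _l : Fin n, (1 : ℝ) := by
          refine Finset.sum_le_sum fun l _ => ?_
          have := hM _ ht0' l
          rw [← sq_abs]
          nlinarith [abs_nonneg (Φ (t0, r) l)]
        rw [hΦn t0 r] at h3
        simp only [Finset.sum_const, Finset.card_univ, Fintype.card_fin, nsmul_eq_mul, mul_one] at h3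
        have h4 : 0 ≤ ∑ i, t0 i ^ 2 := Finset.sum_nonneg fun i _ => sq_nonneg _
        linarith
      have hexp : (1 : ℝ≥0∞) ≤ ENNReal.ofReal (Real.exp (((n : ℝ) - ∑ j, r j ^ 2) / 2)) := by
        rw [← ENNReal.ofReal_one]
        apply ENNReal.ofReal_le_ofReal
        apply Real.one_le_exp
        linarith
      have hsub : ((fun t : Fin m → ℝ => (t, r)) ⁻¹' (Φ ⁻¹' M)) ⊆
          (fun t => t + (-t0)) ⁻¹' {t : Fin m → ℝ | (fun l => (1/2) * ∑ i, t i * J i l) ∈ M} := by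
        intro t ht
        have ht' : Φ (t, r) ∈ M := ht
        show (fun l => (1/2) * ∑ i, (t + (-t0)) i * J i l) ∈ M
        have h5 := hconv ht' (hs _ ht0') (show (0 : ℝ) ≤ 1 / 2 by norm_num)
          (show (0 : ℝ) ≤ 1 / 2 by norm_num) (by norm_num)
        have e : (1 / 2 : ℝ) • Φ (t, r) + (1 / 2 : ℝ) • (-Φ (t0, r)) =
            fun l => (1/2) * ∑ i, (t + (-t0)) i * J i l := by
          funext l
          simp only [Pi.add_apply, Pi.smul_apply, Pi.neg_apply, smul_eq_mul]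
          rw [hΦl t r l, hΦl t0 r l]
          have e2 : ∑ i, (t i + -t0 i) * J i l = ∑ i, t i * J i l - ∑ i, t0 i * J i l := by
            rw [← Finset.sum_sub_distrib]
            refine Finset.sum_congr rfl fun i _ => ?_
            ring
          rw [e2]
          ring
        rw [e] at h5
        exact h5
      calc volume ((fun t : Fin m → ℝ => (t, r)) ⁻¹' (Φ ⁻¹' M))
          ≤ volume ((fun t => t + (-t0)) ⁻¹'
              {t : Fin m → ℝ | (fun l => (1/2) * ∑ i, t i * J i l) ∈ M}) := measure_mono hsub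
        _ = V := measure_preimage_add_right _ _ _
        _ = 1 * V := (one_mul _).symm
        _ ≤ _ := by gcongr
  rw [h1]
  calc ∫⁻ r : Fin k → ℝ, volume ((fun t : Fin m → ℝ => (t, r)) ⁻¹' (Φ ⁻¹' M))
      ≤ ∫⁻ r : Fin k → ℝ, ENNReal.ofReal (Real.exp (((n : ℝ) - ∑ j, r j ^ 2) / 2)) * V :=
        lintegral_mono h2
    _ = (∫⁻ r : Fin k → ℝ, ENNReal.ofReal (Real.exp (((n : ℝ) - ∑ j, r j ^ 2) / 2))) * V := by
        rw [lintegral_mul_const]
        apply Measurable.ennreal_ofReal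
        fun_prop
    _ = _ := by rw [slicing_gauss_h298]


end Sol_slicing

alias slicing := Sol_slicing.slicing

end Tus
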