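import Pool.Agent.Tus.Defs
import Pool.Agent.Tus.L_polar_vol
import Pool.Agent.Tus.L_slicing
open MeasureTheory Real ProbabilityTheory
open scoped ENNReal BigOperators

namespace Tus
namespace Sol_vol_core





theorem vc_const (n k : ℕ) (hk : k ≤ n) :
    Real.exp ((n:ℝ)/2) * (2 * π)^((k:ℝ)/2) ≤ (9/2:ℝ)^n := by
  have h1 : Real.exp ((n:ℝ)/2) = (Real.exp 1) ^ ((n:ℝ)/2) := by
    rw [← Real.exp_mul, one_mul]
  have h2 : (2 * π)^((k:ℝ)/2) ≤ (2 * π)^((n:ℝ)/2) := by
    apply Real.rpow_le_rpow_of_exponent_le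
    · have := Real.pi_gt_three
      linarith
    · have : (k:ℝ) ≤ n := by exact_mod_cast hk
      linarith
  have h3 : Real.exp 1 * (2 * π) ≤ (9/2)^(2:ℝ) := by
    have e1 := Real.exp_one_lt_d9
    have e2 := Real.pi_lt_d2
    have e3 := Real.pi_pos
    have e4 := Real.exp_pos 1
    have e5 : ((9/2:ℝ))^(2:ℝ) = 81/4 := by
      rw [show (2:ℝ) = ((2:ℕ):ℝ) by norm_num, Real.rpow_natCast]
      norm_num
    rw [e5]
    have e6 : Real.exp 1 * (2 * π) ≤ 3 * (2 * 3.15) := by
      apply mul_le_mul (by linarith) (by linarith) (by positivity) (by norm_num)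
    linarith
  calc Real.exp ((n:ℝ)/2) * (2 * π)^((k:ℝ)/2)
      ≤ (Real.exp 1) ^ ((n:ℝ)/2) * (2 * π)^((n:ℝ)/2) := by
        rw [h1]
        exact mul_le_mul_of_nonneg_left h2 (by positivity)
    _ = (Real.exp 1 * (2 * π)) ^ ((n:ℝ)/2) := by
        rw [Real.mul_rpow (Real.exp_pos 1).le (by positivity)]
    _ ≤ ((9/2)^(2:ℝ)) ^ ((n:ℝ)/2) := Real.rpow_le_rpow (by positivity) h3 (by positivity)
    _ = (9/2:ℝ)^n := by
        rw [← Real.rpow_mul (by norm_num)]
        rw [show (2:ℝ) * ((n:ℝ)/2) = (n:ℝ) by ring, Real.rpow_natCast]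

open scoped Pointwise in
theorem vc_vol {m : ℕ} (lam : ℝ) (hlam : 0 < lam) (T : Set (Fin m → ℝ)) :
    volume ((fun t : Fin m → ℝ => lam • t) '' T) = ENNReal.ofReal (lam^m) * volume T := by
  have h : (fun t : Fin m → ℝ => lam • t) '' T = lam • T := rfl
  rw [h, Measure.addHaar_smul]
  simp only [Module.finrank_fin_fun]
  rw [abs_of_pos (by positivity)]

theorem vc_iso {n m : ℕ} (J : Fin m → Fin n → ℝ)
    (hJ : ∀ i j, ∑ l, J i l * J j l = if i = j then 1 else 0) (t : Fin m → ℝ) :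
    ∑ l, (∑ i, t i * J i l)^2 = ∑ i, t i^2 := by
  have h1 : ∀ l, (∑ i, t i * J i l)^2 = ∑ i, ∑ j, (t i * t j) * (J i l * J j l) := by
    intro l
    rw [sq, Finset.sum_mul_sum]
    refine Finset.sum_congr rfl fun i _ => Finset.sum_congr rfl fun j _ => ?_
    ring
  simp_rw [h1]
  rw [Finset.sum_comm]
  refine Finset.sum_congr rfl fun i _ => ?_
  rw [Finset.sum_comm]
  have h2 : ∀ j, ∑ l, (t i * t j) * (J i l * J j l) = if i = j then t i * t j else 0 := by
    intro j
    rw [← Finset.mul_sum, hJ i j]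
    split_ifs <;> simp
  simp_rw [h2]
  rw [Finset.sum_ite_eq]
  simp [sq]

theorem vol_core {X ι : Type} [Fintype X] [Fintype ι] (n m k : ℕ) (hm : 0 < m) (hn : m + k = n)
    (φ : Fin n → X → ℝ)
    (J : Fin m → Fin n → ℝ) (hJ : ∀ i j, ∑ l, J i l * J j l = if i = j then 1 else 0)
    (M : Fin n → ι → ℝ) (ρ ν : ℝ) (hρ : 0 < ρ) (hν : 0 < ν)
    (hM : ∀ t : Fin m → ℝ, ρ^2 * ∑ i, t i ^ 2 ≤ ∑ r, (∑ l, (∑ i, t i * J i l) * M l r)^2)
    (Z : (ι → ℝ) → ℝ) (nz : Fin n → (ι → ℝ) → ℝ) (hZ0 : ∀ α, 0 ≤ Z α) (hZ : Integrable Z (gam ι))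
    (hZ1 : ∫ α, Z α ∂(gam ι) ≤ 1) (hnz : ∀ l, Integrable (fun α => nz l α ^ 2) (gam ι))
    (hE : 4 * ∑ l, ∫ α, nz l α ^ 2 ∂(gam ι) ≤ ν^2)
    (dual : ∀ (α : ι → ℝ) (t : Fin m → ℝ) (D' : ℝ), (∀ x, |∑ l, (∑ i, t i * J i l) * φ l x| ≤ D') →
      |∑ l, (∑ i, t i * J i l) * (∑ r, M l r * α r + nz l α)| ≤ D' * Z α)
    (hK : ENNReal.ofReal ((1/2)^n) ≤ volume {a : Fin n → ℝ | (∀ i, |a i| ≤ 1) ∧
      ∀ x, |∑ l, a l * φ l x| ≤ Real.sqrt n * ν / 4}) :
    (1/9:ℝ)^n ≤ 2 * (28 * ν * Real.sqrt n / (m * ρ))^m := by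
  have hnpos : 0 < n := by omega
  have hn0 : (0:ℝ) < n := by exact_mod_cast hnpos
  have hm0 : (0:ℝ) < m := by exact_mod_cast hm
  have hsn : 0 < Real.sqrt n := Real.sqrt_pos.2 hn0
  have hsn2 : Real.sqrt n ^ 2 = n := Real.sq_sqrt hn0.le
  set C : ℝ := Real.exp ((n:ℝ)/2) * (2 * π)^((k:ℝ)/2) with hC
  have hC0 : 0 < C := by positivity
  have hC1 : C ≤ (9/2:ℝ)^n := vc_const n k (by omega)
  set S : Set (Fin n → ℝ) := {a : Fin n → ℝ | (∀ i, |a i| ≤ 1) ∧
      ∀ x, |∑ l, a l * φ l x| ≤ Real.sqrt n * ν / 4} with hS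
  have hcl : IsClosed S := by
    rw [hS]
    simp only [Set.ofPred_and, Set.ofPred_forall]
    refine IsClosed.inter (isClosed_iInter fun i => isClosed_le (by fun_prop) continuous_const)
      (isClosed_iInter fun x => isClosed_le (by fun_prop) continuous_const)
  have hconv : Convex ℝ S := by
    intro a ha b hb s t hs ht hst
    refine ⟨fun i => ?_, fun x => ?_⟩
    · have h1 := ha.1 i
      have h2 := hb.1 i
      calc |(s • a + t • b) i| = |s * a i + t * b i| := by simp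
        _ ≤ |s * a i| + |t * b i| := abs_add_le _ _
        _ = s * |a i| + t * |b i| := by rw [abs_mul, abs_mul, abs_of_nonneg hs, abs_of_nonneg ht]
        _ ≤ s * 1 + t * 1 := by gcongr
        _ = 1 := by rw [mul_one, mul_one, hst]
    · have h1 := ha.2 x
      have h2 := hb.2 x
      have h3 : ∑ l, (s • a + t • b) l * φ l x = s * ∑ l, a l * φ l x + t * ∑ l, b l * φ l x := by
        rw [Finset.mul_sum, Finset.mul_sum, ← Finset.sum_add_distrib]
        refine Finset.sum_congr rfl fun l _ => ?_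
        simp only [Pi.add_apply, Pi.smul_apply, smul_eq_mul]
        ring
      rw [h3]
      calc |s * ∑ l, a l * φ l x + t * ∑ l, b l * φ l x|
          ≤ |s * ∑ l, a l * φ l x| + |t * ∑ l, b l * φ l x| := abs_add_le _ _
        _ = s * |∑ l, a l * φ l x| + t * |∑ l, b l * φ l x| := by
            rw [abs_mul, abs_mul, abs_of_nonneg hs, abs_of_nonneg ht]
        _ ≤ s * (Real.sqrt n * ν / 4) + t * (Real.sqrt n * ν / 4) := by gcongr
        _ = Real.sqrt n * ν / 4 := by rw [← add_mul, hst, one_mul]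
  have hsym : ∀ a ∈ S, -a ∈ S := by
    intro a ha
    refine ⟨fun i => ?_, fun x => ?_⟩
    · simpa using ha.1 i
    · have h3 : ∑ l, (-a) l * φ l x = -∑ l, a l * φ l x := by
        rw [← Finset.sum_neg_distrib]
        refine Finset.sum_congr rfl fun l _ => ?_
        simp
      rw [h3, abs_neg]
      exact ha.2 x
  have hsl := slicing n m k hn J hJ S hcl hconv hsym (fun a ha => ha.1)
  rw [← hC] at hsl
  set T : Set (Fin m → ℝ) := {t : Fin m → ℝ | (fun l => (1/2) * ∑ i, t i * J i l) ∈ S} with hT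
  have hTprop : ∀ t ∈ T, (∀ x, |∑ l, (∑ i, t i * J i l) * φ l x| ≤ Real.sqrt n * ν / 2) ∧
      ∑ i, t i ^ 2 ≤ 4 * n := by
    intro t ht
    have ht1 : ∀ l, |(1/2) * ∑ i, t i * J i l| ≤ 1 := ht.1
    have ht2 : ∀ x, |∑ l, ((1/2) * ∑ i, t i * J i l) * φ l x| ≤ Real.sqrt n * ν / 4 := ht.2
    refine ⟨fun x => ?_, ?_⟩
    · have h1 := ht2 x
      have h2 : ∑ l, ((1/2) * ∑ i, t i * J i l) * φ l x
          = (1/2) * ∑ l, (∑ i, t i * J i l) * φ l x := by
        rw [Finset.mul_sum]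
        refine Finset.sum_congr rfl fun l _ => ?_
        ring
      rw [h2, abs_mul, abs_of_pos (by norm_num : (0:ℝ) < 1/2)] at h1
      linarith
    · rw [← vc_iso J hJ t]
      calc ∑ l, (∑ i, t i * J i l)^2 ≤ ∑ _l : Fin n, (4:ℝ) := by
            refine Finset.sum_le_sum fun l _ => ?_
            have h1 := ht1 l
            rw [abs_mul, abs_of_pos (by norm_num : (0:ℝ) < 1/2)] at h1
            have h2 : |∑ i, t i * J i l| ≤ 2 := by linarith
            have h3 := sq_le_sq' (by linarith [abs_nonneg (∑ i, t i * J i l)]) h2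
            rw [sq_abs] at h3
            linarith
        _ = 4 * n := by simp [mul_comm]
  set lam : ℝ := 1 / (4 * ν * Real.sqrt n) with hlam
  have hlam0 : 0 < lam := by positivity
  have hpv := polar_vol n m hm φ J hJ M ρ ν hρ hν hM Z nz hZ0 hZ hZ1 hnz hE dual
  have hsub : (fun t : Fin m → ℝ => lam • t) '' T ⊆ {t : Fin m → ℝ | (∀ x, |∑ l, (∑ i, t i * J i l) * φ l x| ≤ 1/8) ∧
      ∑ i, t i ^ 2 ≤ (1/(2*ν))^2} := by
    rintro _ ⟨t, ht, rfl⟩
    obtain ⟨ht1, ht2⟩ := hTprop t ht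
    refine ⟨fun x => ?_, ?_⟩
    · have h1 : ∑ l, (∑ i, (lam • t) i * J i l) * φ l x
          = lam * ∑ l, (∑ i, t i * J i l) * φ l x := by
        rw [Finset.mul_sum]
        refine Finset.sum_congr rfl fun l _ => ?_
        have : ∑ i, (lam • t) i * J i l = lam * ∑ i, t i * J i l := by
          rw [Finset.mul_sum]
          refine Finset.sum_congr rfl fun i _ => ?_
          simp only [Pi.smul_apply, smul_eq_mul]
          ring
        rw [this]
        ring
      show |∑ l, (∑ i, (lam • t) i * J i l) * φ l x| ≤ 1/8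
      rw [h1, abs_mul, abs_of_pos hlam0]
      calc lam * |∑ l, (∑ i, t i * J i l) * φ l x| ≤ lam * (Real.sqrt n * ν / 2) := by
            have := ht1 x
            gcongr
        _ = 1/8 := by
            rw [hlam]
            field_simp
            norm_num
    · show ∑ i, ((lam • t) i)^2 ≤ (1/(2*ν))^2
      have h1 : ∑ i, ((lam • t) i)^2 = lam^2 * ∑ i, t i^2 := by
        rw [Finset.mul_sum]
        refine Finset.sum_congr rfl fun i _ => ?_
        simp only [Pi.smul_apply, smul_eq_mul]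
        ring
      rw [h1]
      calc lam^2 * ∑ i, t i^2 ≤ lam^2 * (4 * n) := by gcongr
        _ = (1/(2*ν))^2 := by
            rw [← hsn2, hlam]
            field_simp
            norm_num
  have hvol := vc_vol lam hlam0 T
  have hle1 : ENNReal.ofReal (lam^m) * volume T ≤ ENNReal.ofReal (2 * (7 / (m * ρ))^m) := by
    rw [← hvol]
    exact (measure_mono hsub).trans hpv
  have hle2 : ENNReal.ofReal (lam^m) * ENNReal.ofReal ((1/2)^n)
      ≤ ENNReal.ofReal C * ENNReal.ofReal (2 * (7 / (m * ρ))^m) := by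
    calc ENNReal.ofReal (lam^m) * ENNReal.ofReal ((1/2)^n)
        ≤ ENNReal.ofReal (lam^m) * (ENNReal.ofReal C * volume T) := by
          gcongr
          exact hK.trans hsl
      _ = ENNReal.ofReal C * (ENNReal.ofReal (lam^m) * volume T) := by ring
      _ ≤ ENNReal.ofReal C * ENNReal.ofReal (2 * (7 / (m * ρ))^m) := by gcongr
  rw [← ENNReal.ofReal_mul (by positivity), ← ENNReal.ofReal_mul (by positivity)] at hle2
  have hle3 := (ENNReal.ofReal_le_ofReal_iff (by positivity)).1 hle2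
  have hlamm : lam^m * (4 * ν * Real.sqrt n)^m = 1 := by
    rw [← mul_pow, hlam, one_div_mul_cancel (by positivity), one_pow]
  have hfin : (1/2:ℝ)^n ≤ C * (2 * (28 * ν * Real.sqrt n / (m * ρ))^m) := by
    calc (1/2:ℝ)^n = (lam^m * (1/2)^n) * (4 * ν * Real.sqrt n)^m := by
          rw [mul_right_comm, hlamm, one_mul]
      _ ≤ (C * (2 * (7 / (m * ρ))^m)) * (4 * ν * Real.sqrt n)^m := by gcongr
      _ = C * (2 * (28 * ν * Real.sqrt n / (m * ρ))^m) := by
          have hp : (7 / (m * ρ))^m * (4 * ν * Real.sqrt n)^m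
              = (28 * ν * Real.sqrt n / (m * ρ))^m := by
            rw [← mul_pow]
            congr 1
            ring
          rw [← hp]
          ring
  set Y : ℝ := 2 * (28 * ν * Real.sqrt n / (m * ρ))^m with hY
  have hY0 : 0 ≤ Y := by positivity
  calc (1/9:ℝ)^n = (2/9)^n * (1/2)^n := by
        rw [← mul_pow]
        norm_num
    _ ≤ (2/9)^n * (C * Y) := by gcongr
    _ ≤ (2/9)^n * ((9/2)^n * Y) := by gcongr
    _ = Y := by
        rw [← mul_assoc, ← mul_pow]
        norm_num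


end Sol_vol_core

alias vol_core := Sol_vol_core.vol_core

end Tus
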