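import Pool.Agent.Tus.Defs
import Pool.Agent.Tus.L_family
import Pool.Agent.Tus.L_vol_core
import Pool.Agent.Tus.L_lsv
import Pool.Agent.Tus.L_dual
import Pool.Agent.Tus.L_Z_int
import Pool.Agent.Tus.L_nz_int
open MeasureTheory Real ProbabilityTheory
open scoped ENNReal BigOperators

namespace Tus
namespace Sol_grid_main









lemma ZZ_nonneg {d K : ℕ} (s : ℝ) (α : Bx d K → ℝ) : 0 ≤ ZZ s α := by
  unfold ZZ cX
  refine div_nonneg (Finset.sum_nonneg fun x _ => ?_) (Nat.cast_nonneg _)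
  unfold QQ
  exact (Real.exp_pos _).le

theorem grid_main (d : ℕ) (hd : 3 ≤ d) : ∃ c : ℝ, 0 < c ∧ ∃ K1 : ℕ, ∀ K : ℕ, K1 ≤ K →
    ∃ n : ℕ, n ≤ 2^K * (K+1)^(d-1) ∧ ∃ P : Fin n → Pt d K,
      ¬ ∀ I : Finset (Fin n), ∃ χ : Fin n → ℝ, (∀ i, χ i = 1 ∨ χ i = -1) ∧
        ∀ x, |∑ i ∈ I, χ i * phi (P i) x| ≤ c * (K:ℝ)^((d:ℝ) - 1/2) := by
  obtain ⟨a, η, c1, K1, ha, hη, hc1, hK1, hfam⟩ := family d hd (1/9072) (by norm_num)
  refine ⟨(1/9072) * η * Real.sqrt c1 / 4, by positivity, K1, fun K hK => ?_⟩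
  obtain ⟨n, m, k, K0, hm, hmk, hn2, hn3, hnlow, hnup, hK01, hK0K, P, J, hJ, hLow, hM, hE⟩ :=
    hfam K hK
  refine ⟨n, hnup, P, fun H => ?_⟩
  have hKpos : 0 < K := lt_of_lt_of_le (by omega) hK
  have hKr : (0:ℝ) < K := by exact_mod_cast hKpos
  have hnpos : 0 < n := by omega
  have hnr : (0:ℝ) < n := by exact_mod_cast hnpos
  have hmr : (0:ℝ) < m := by exact_mod_cast hm
  set ρ : ℝ := Real.sqrt (c1 * (K * (1/4)^K)) with hρdef
  have hρ : 0 < ρ := Real.sqrt_pos.2 (by positivity)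
  have hρ2 : ρ^2 = c1 * (K * (1/4)^K) := Real.sq_sqrt (by positivity)
  set ν : ℝ := (1/9072) * ρ * Real.sqrt n with hνdef
  have hsn : Real.sqrt (n:ℝ) * Real.sqrt (n:ℝ) = n := Real.mul_self_sqrt hnr.le
  have hsnpos : 0 < Real.sqrt (n:ℝ) := Real.sqrt_pos.2 hnr
  have hν : 0 < ν := by positivity
  have hνn : ν * Real.sqrt n = (1/9072) * ρ * n := by
    rw [hνdef, mul_assoc, hsn]
  have hν2 : ν^2 = (1/9072)^2 * (c1 * (K * (1/4)^K)) * n := by
    have h1 : Real.sqrt (n:ℝ) ^ 2 = n := Real.sq_sqrt hnr.le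
    rw [hνdef, mul_pow, mul_pow, h1, hρ2]
  have hρeq : ρ = Real.sqrt c1 * (Real.sqrt K * (1/2)^K) := by
    have h1 : ((1:ℝ)/4)^K = ((1/2)^K)^2 := by
      rw [← pow_mul, mul_comm K 2, pow_mul]
      norm_num
    rw [hρdef, Real.sqrt_mul hc1.le, Real.sqrt_mul hKr.le, h1,
      Real.sqrt_sq (by positivity)]
  have hpow : (K:ℝ)^((d:ℝ) - 1/2) = (K:ℝ)^(d-1) * Real.sqrt K := by
    have h1 : ((d:ℝ) - 1/2) = (((d-1 : ℕ) : ℝ)) + 1/2 := by
      rw [Nat.cast_sub (by omega)]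
      push_cast
      ring
    rw [h1, Real.rpow_add hKr, Real.rpow_natCast, Real.sqrt_eq_rpow]
  have hD : (1/9072) * η * Real.sqrt c1 / 4 * (K:ℝ)^((d:ℝ) - 1/2) ≤ Real.sqrt n * ν / 4 := by
    have h1 : Real.sqrt n * ν / 4 = (1/9072) * ρ * n / 4 := by
      rw [mul_comm (Real.sqrt (n:ℝ)) ν, hνn]
    rw [h1, hpow, hρeq]
    have h2 : (1/2 : ℝ)^K * (2:ℝ)^K = 1 := by
      rw [← mul_pow]; norm_num
    have h3 : 0 ≤ (1/9072) * (Real.sqrt c1 * (Real.sqrt K * (1/2)^K)) / 4 := by positivity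
    have h4 := mul_le_mul_of_nonneg_left hnlow h3
    calc (1/9072) * η * Real.sqrt c1 / 4 * ((K:ℝ)^(d-1) * Real.sqrt K)
        = (1/9072) * (Real.sqrt c1 * (Real.sqrt K * ((1/2 : ℝ)^K * (2:ℝ)^K))) / 4 *
          (η * (K:ℝ)^(d-1)) := by rw [h2]; ring
      _ = (1/9072) * (Real.sqrt c1 * (Real.sqrt K * (1/2)^K)) / 4 *
          (η * 2^K * (K:ℝ)^(d-1)) := by ring
      _ ≤ (1/9072) * (Real.sqrt c1 * (Real.sqrt K * (1/2)^K)) / 4 * n := h4
      _ = _ := by ring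
  have hvol := lsv (fun l x => phi (P l) x) (Real.sqrt n * ν / 4) (by positivity) (by
    intro I
    obtain ⟨χ, hχ1, hχ2⟩ := H I
    exact ⟨χ, hχ1, fun x => (hχ2 x).trans hD⟩)
  set s : ℝ := Real.sqrt (a * K / sh d K) with hs
  have hcore := vol_core (X := Pt d K) (ι := Bx d K) n m k hm hmk (fun l x => phi (P l) x) J hJ
    (fun l R => s * (1/2)^K * wR R (P l)) ρ ν hρ hν
    (by
      intro t
      rw [hρ2]
      exact hM t)
    (fun α => ZZ s α) (fun l α => nz s K0 α (P l)) (fun α => ZZ_nonneg s α)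
    (Z_int s).1 (Z_int s).2.le (fun l => (nz_int s K0 (P l)).1)
    (by rw [hν2]; exact hE)
    (by
      intro α t D' hD'
      refine dual s K0 hK01 hK0K P (fun l => ∑ i, t i * J i l) ?_ D' hD' α
      intro x
      calc ∑ l, (∑ i, t i * J i l) * Low K0 (P l) x
          = ∑ l, ∑ i, t i * (J i l * Low K0 (P l) x) := by
            refine Finset.sum_congr rfl fun l _ => ?_
            rw [Finset.sum_mul]
            exact Finset.sum_congr rfl fun i _ => by ring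
        _ = ∑ i, ∑ l, t i * (J i l * Low K0 (P l) x) := Finset.sum_comm
        _ = ∑ i, t i * ∑ l, J i l * Low K0 (P l) x := by
            refine Finset.sum_congr rfl fun i _ => ?_
            rw [Finset.mul_sum]
        _ = 0 := by
            refine Finset.sum_eq_zero fun i _ => ?_
            rw [hLow i x, mul_zero])
    hvol
  have he : 28 * ν * Real.sqrt n / (m * ρ) = 28 * (1/9072) * n / m := by
    rw [mul_assoc 28 ν, hνn]
    field_simp
  have hn2r : (n:ℝ) ≤ 2 * m := by exact_mod_cast hn2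
  have he2 : 28 * ν * Real.sqrt n / (m * ρ) ≤ 1/162 := by
    rw [he, div_le_iff₀ hmr]
    nlinarith
  have he0 : 0 ≤ 28 * ν * Real.sqrt n / (m * ρ) := by positivity
  have h1 : (1/9:ℝ)^n ≤ 2 * (1/162)^m :=
    hcore.trans (mul_le_mul_of_nonneg_left (pow_le_pow_left₀ he0 he2 m) (by norm_num))
  have h2 : ((1/9:ℝ)^n)^2 ≤ (2 * (1/162)^m)^2 := pow_le_pow_left₀ (by positivity) h1 2
  have h3 : (2 * (1/162:ℝ)^m)^2 = 4 * (1/162)^(2*m) := by
    rw [mul_pow, ← pow_mul, mul_comm m 2]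
    norm_num
  have h4 : ((1:ℝ)/162)^(2*m) ≤ (1/162)^n :=
    pow_le_pow_of_le_one (by norm_num) (by norm_num) hn2
  have h5 : ((1/9:ℝ)^n)^2 = 2^n * (1/162)^n := by
    rw [← pow_mul, mul_comm n 2, pow_mul, ← mul_pow]
    norm_num
  have h6 : (2:ℝ)^n * (1/162)^n ≤ 4 * (1/162)^n := by
    rw [← h5]
    refine h2.trans ?_
    rw [h3]
    exact mul_le_mul_of_nonneg_left h4 (by norm_num)
  have h7 : (2:ℝ)^n ≤ 4 := le_of_mul_le_mul_right h6 (by positivity)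
  have h8 : (2:ℝ)^3 ≤ 2^n := pow_le_pow_right₀ (by norm_num) hn3
  norm_num at h8
  linarith


end Sol_grid_main

alias grid_main := Sol_grid_main.grid_main

end Tus
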