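import Pool.Agent.Tus.Defs
import Pool.Agent.Tus.L_grid_main2
import Pool.Agent.Tus.L_disc_lower
open MeasureTheory Real ProbabilityTheory
open scoped ENNReal BigOperators

namespace Tus
namespace Sol_tusnady2





theorem tusnady2_choose (d : ℕ) (K1 n : ℕ) (hK1 : 1 ≤ K1) (hn : 2^K1 * (K1+1)^(d-1) ≤ n) :
    ∃ K : ℕ, K1 ≤ K ∧ 2^K * (K+1)^(d-1) ≤ n ∧ n < 2^(K+1) * (K+2)^(d-1) := by
  have hb : ∀ K : ℕ, 2^K * (K+1)^(d-1) ≤ n → K ≤ n := by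
    intro K hK
    have h1 : K < 2^K := Nat.lt_two_pow_self
    have h2 : 1 ≤ (K+1)^(d-1) := Nat.one_le_pow _ _ (Nat.succ_pos _)
    have h3 : 2^K * 1 ≤ 2^K * (K+1)^(d-1) := Nat.mul_le_mul_left _ h2
    omega
  refine ⟨Nat.findGreatest (fun K => 2^K * (K+1)^(d-1) ≤ n) n, ?_, ?_, ?_⟩
  · exact Nat.le_findGreatest (hb K1 hn) hn
  · exact Nat.findGreatest_spec (P := fun K => 2^K * (K+1)^(d-1) ≤ n) (hb K1 hn) hn
  · by_contra hcon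
    push Not at hcon
    have h2 : 2^(Nat.findGreatest (fun K => 2^K * (K+1)^(d-1) ≤ n) n + 1) *
      ((Nat.findGreatest (fun K => 2^K * (K+1)^(d-1) ≤ n) n + 1) + 1)^(d-1) ≤ n := hcon
    have h1 := Nat.le_findGreatest (P := fun K => 2^K * (K+1)^(d-1) ≤ n) (hb _ h2) h2
    omega

theorem tusnady2_log (d : ℕ) (hd : 2 ≤ d) (K n : ℕ) (hK : 1 ≤ K) (hn0 : 1 ≤ n)
    (hn : n < 2^(K+1) * (K+2)^(d-1)) : Real.log n ≤ 2 * d * K := by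
  have hn0' : (0 : ℝ) < n := by exact_mod_cast hn0
  have h1 : (n : ℝ) ≤ 2^(K+1) * (K+2)^(d-1) := by exact_mod_cast hn.le
  have h2 : Real.log n ≤ Real.log (2^(K+1) * ((K:ℝ)+2)^(d-1)) := Real.log_le_log hn0' h1
  have hK2 : (0 : ℝ) < (K:ℝ) + 2 := by positivity
  rw [Real.log_mul (by positivity) (by positivity), Real.log_pow, Real.log_pow] at h2
  have h3 : Real.log 2 ≤ 1 := by
    have := Real.log_le_sub_one_of_pos (show (0:ℝ) < 2 by norm_num)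
    linarith
  have h4 : Real.log ((K:ℝ) + 2) ≤ (K:ℝ) + 1 := by
    have := Real.log_le_sub_one_of_pos hK2
    linarith
  have h5 : ((d - 1 : ℕ) : ℝ) = (d:ℝ) - 1 := by
    rw [Nat.cast_sub (by omega)]
    simp
  rw [h5] at h2
  have hd' : (2 : ℝ) ≤ d := by exact_mod_cast hd
  have hK' : (1 : ℝ) ≤ K := by exact_mod_cast hK
  have h6 : ((K + 1 : ℕ) : ℝ) * Real.log 2 ≤ (K:ℝ) + 1 := by
    have : ((K + 1 : ℕ) : ℝ) = (K:ℝ) + 1 := by push_cast; ring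
    rw [this]
    nlinarith
  have h7 : ((d:ℝ) - 1) * Real.log ((K:ℝ) + 2) ≤ ((d:ℝ) - 1) * ((K:ℝ) + 1) :=
    mul_le_mul_of_nonneg_left h4 (by linarith)
  nlinarith

theorem tusnady2 (d : ℕ) (hd : 2 ≤ d) : ∃ c : ℝ, 0 < c ∧ ∃ N0 : ℕ, ∀ n : ℕ, N0 ≤ n →
    c * (Real.log n)^((d:ℝ) - 1/2) ≤ dn d n := by
  obtain ⟨c, hc, K1, hK1⟩ := grid_main2 d hd
  have hd0 : (0 : ℝ) < 2 * d := by
    have : 0 < d := by omega
    positivity
  refine ⟨c / (2 * d : ℝ)^((d:ℝ) - 1/2), div_pos hc (Real.rpow_pos_of_pos hd0 _),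
    2^(K1+1) * ((K1+1)+1)^(d-1), ?_⟩
  intro n hn
  obtain ⟨K, hK, hKn, hnK⟩ := tusnady2_choose d (K1+1) n (by omega) hn
  obtain ⟨n', hn', P, hP⟩ := hK1 K (by omega)
  have h1 := disc_lower (by omega) P _ hP (hn'.trans hKn)
  refine le_trans ?_ h1
  have hn0 : 1 ≤ n := by
    refine le_trans ?_ hn
    exact Nat.one_le_iff_ne_zero.mpr (by positivity)
  have hlog := tusnady2_log d hd K n (by omega) hn0 hnK
  have hlog0 : 0 ≤ Real.log n := Real.log_natCast_nonneg n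
  have hexp : 0 ≤ (d:ℝ) - 1/2 := by
    have hd' : (2 : ℝ) ≤ d := by exact_mod_cast hd
    linarith
  have h2 : (Real.log n)^((d:ℝ) - 1/2) ≤ (2 * d * K : ℝ)^((d:ℝ) - 1/2) :=
    Real.rpow_le_rpow hlog0 hlog hexp
  rw [Real.mul_rpow hd0.le (Nat.cast_nonneg K)] at h2
  have hpos : 0 < (2 * d : ℝ)^((d:ℝ) - 1/2) := Real.rpow_pos_of_pos hd0 _
  calc c / (2 * d : ℝ)^((d:ℝ) - 1/2) * (Real.log n)^((d:ℝ) - 1/2)
      ≤ c / (2 * d : ℝ)^((d:ℝ) - 1/2) * ((2 * d : ℝ)^((d:ℝ) - 1/2) * (K:ℝ)^((d:ℝ) - 1/2)) :=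
        mul_le_mul_of_nonneg_left h2 (div_pos hc hpos).le
    _ = c * (K:ℝ)^((d:ℝ) - 1/2) := by
        field_simp


end Sol_tusnady2

alias tusnady2 := Sol_tusnady2.tusnady2

end Tus
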