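import Pool.Agent.Tus.Defs
import Pool.Agent.Tus.L_grid_main
import Pool.Agent.Tus.L_disc_lower
open MeasureTheory Real ProbabilityTheory
open scoped ENNReal BigOperators

namespace Tus
namespace Sol_tusnady_lower





theorem tusnady_lower (d : ℕ) (hd : 3 ≤ d) : ∃ c : ℝ, 0 < c ∧ ∃ N0 : ℕ, ∀ n : ℕ, N0 ≤ n →
    c * (Real.log n)^((d:ℝ) - 1/2) ≤ dn d n := by
  obtain ⟨c, hc, K1, hK⟩ := grid_main d hd
  have hdr : (3:ℝ) ≤ d := by exact_mod_cast hd
  have he : 0 ≤ (d:ℝ) - 1/2 := by linarith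
  have hd0 : (0:ℝ) < d := by linarith
  refine ⟨c * (1/(2*d))^((d:ℝ)-1/2), by positivity, 2^(K1+1) * (K1+1+1)^(d-1), ?_⟩
  intro N hN
  obtain ⟨K, hKdef⟩ : ∃ K, K = Nat.findGreatest (fun k => 2^k*(k+1)^(d-1) ≤ N) N := ⟨_, rfl⟩
  have h0 : ∀ k : ℕ, k < 2^k*(k+1)^(d-1) := by
    intro k
    have h1 : k < 2^k := Nat.lt_two_pow_self
    have h2 : 1 ≤ (k+1)^(d-1) := Nat.one_le_pow _ _ (Nat.succ_pos k)
    nlinarith
  have hKK : K1+1 ≤ K := by
    rw [hKdef]
    exact Nat.le_findGreatest ((h0 (K1+1)).le.trans hN) hN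
  have hP : 2^K*(K+1)^(d-1) ≤ N := by
    have := Nat.findGreatest_spec (P := fun k => 2^k*(k+1)^(d-1) ≤ N) (m := K1+1) (n := N)
      ((h0 (K1+1)).le.trans hN) hN
    rw [← hKdef] at this
    exact this
  have hQ : N < 2^(K+1)*(K+1+1)^(d-1) := by
    by_contra h
    push Not at h
    have : K+1 ≤ K := by
      conv_rhs => rw [hKdef]
      exact Nat.le_findGreatest ((h0 (K+1)).le.trans h) h
    omega
  obtain ⟨n, hn, P, hPP⟩ := hK K (by omega)
  have h1 := disc_lower (by omega) P _ hPP (hn.trans hP)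
  have hN1 : 1 ≤ N := by
    have := (h0 (K1+1)).le.trans hN
    omega
  have hN1' : (1:ℝ) ≤ N := by exact_mod_cast hN1
  have hKr : (1:ℝ) ≤ K := by
    have : 1 ≤ K := by omega
    exact_mod_cast this
  obtain ⟨e, hde⟩ : ∃ e, d = e + 1 := ⟨d - 1, by omega⟩
  have hlog : Real.log N ≤ 2*d*K := by
    have hQ' : (N:ℝ) ≤ 2^(K+1)*((K:ℝ)+1+1)^(d-1) := by exact_mod_cast hQ.le
    have hlog2 : Real.log 2 ≤ 1 := by
      have := Real.log_le_sub_one_of_pos (show (0:ℝ) < 2 by norm_num)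
      linarith
    have hlogK : Real.log ((K:ℝ)+1+1) ≤ K + 1 := by
      have := Real.log_le_sub_one_of_pos (show (0:ℝ) < (K:ℝ)+1+1 by positivity)
      linarith
    calc Real.log N ≤ Real.log (2^(K+1)*((K:ℝ)+1+1)^(d-1)) :=
          Real.log_le_log (by linarith) hQ'
      _ = ((K:ℝ)+1) * Real.log 2 + e * Real.log ((K:ℝ)+1+1) := by
          rw [Real.log_mul (by positivity) (by positivity), Real.log_pow, Real.log_pow]
          subst hde
          push_cast
          simp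
      _ ≤ ((K:ℝ)+1) * 1 + e * (K+1) := by
          have : (0:ℝ) ≤ e := Nat.cast_nonneg e
          gcongr
      _ = d * (K + 1) := by rw [hde]; push_cast; ring
      _ ≤ 2*d*K := by nlinarith
  have hlog0 : 0 ≤ Real.log N := Real.log_nonneg hN1'
  calc c * (1/(2*d))^((d:ℝ)-1/2) * (Real.log N)^((d:ℝ) - 1/2)
      = c * ((1/(2*d)) * Real.log N)^((d:ℝ) - 1/2) := by
        rw [Real.mul_rpow (by positivity) hlog0]; ring
    _ ≤ c * (K:ℝ)^((d:ℝ) - 1/2) := by
        apply mul_le_mul_of_nonneg_left _ hc.le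
        apply Real.rpow_le_rpow (by positivity) _ he
        rw [one_div, inv_mul_le_iff₀ (by positivity)]
        linarith
    _ ≤ dn d N := h1


end Sol_tusnady_lower

alias tusnady_lower := Sol_tusnady_lower.tusnady_lower

end Tus
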